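import Pool.Agent.Work.MP_dbf1ea_an.Alt

/-!
The altitude theorem.
-/

set_option autoImplicit false

open Finset Real

namespace Pool.Agent.Work.MP_dbf1ea_an

open Pool.Agent.Lib.PFR Pool.Agent.Lib.PFR.FP

universe u

variable {Γ : Type u} [Group Γ]

variable {C N : Γ → Γ → Prop} {m : ℕ} {B B' : Finset Γ} {alt ta tb : Γ → Γ → ℕ → Γ} {d : ℝ}

theorem AltH.side (H : AltH C N m B B' alt ta tb) (hN : DB N d) (hd : 0 ≤ d) (A : Finset Γ)
    (hA : ∀ a b, C a b → a ∈ A ∧ b ∈ A) {Ω : Type u} [Fintype Ω]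
    (P : FP Ω) (a b : Ω → Γ) {J : ℕ} (hJ : J ≤ m) (hb : ∀ ω, P.p ω ≠ 0 → C (a ω) (b ω))
    (K : ℝ) (hK1 : 1 ≤ K) (Λ : Γ → Finset Γ) (hΛ : ∀ ω, P.p ω ≠ 0 → alt (a ω) (b ω) J ∈ Λ (b ω))
    (hK : ∀ ω, P.p ω ≠ 0 → ((Λ (b ω)).card : ℝ) ≤ K) :
    2 * P.ent (fun ω => (a ω, b ω)) ≤ P.ent a + P.ent b + P.ent (fun ω => (a ω)⁻¹ * b ω) +
      (log (m + 1) + (d + 2 * log K + 10 * log B'.card + log B.card) / 2) +
      3 * log A.card * P.ex fun s => ∑ j ∈ Ioc J m, (P.fib a s).pr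
        fun ω => (alt (a s) (b s) j)⁻¹ * alt (a ω) (b ω) j ∈ B := by
  classical
  set Q := cp P a with hQ
  set ag : Ω × Ω → ℕ → Prop :=
    fun z j => (alt (a z.1) (b z.1) j)⁻¹ * alt (a z.1) (b z.2) j ∈ B with hag
  set θ : Ω × Ω → ℕ := fun z => Nat.findGreatest (ag z) m with hθ
  have hs : ∀ z, Q.p z ≠ 0 → C (a z.1) (b z.1) ∧ C (a z.1) (b z.2) := fun z hz => by
    obtain ⟨k1, k2, k3⟩ := cp_supp hz
    exact ⟨hb _ k1, k3 ▸ hb _ k2⟩
  have hθ1 : ∀ z, Q.p z ≠ 0 → ag z (θ z) := fun z hz =>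
    Nat.findGreatest_spec (P := ag z) (Nat.zero_le m) (H.h0 _ _ _ _ (hs z hz).1 (hs z hz).2)
  have hθ2 : ∀ z, θ z < m → ¬ ag z (θ z + 1) := fun z h =>
    Nat.findGreatest_is_greatest (Nat.lt_succ_self _) h
  have hθ3 : ∀ z, θ z ≤ m := fun z => Nat.findGreatest_le m
  set D0 := d + 2 * log K + 10 * log B'.card + log B.card with hD0
  have hD : 0 ≤ D0 := by
    have := log_nonneg hK1
    have := log_natCast_nonneg B'.card
    have := log_natCast_nonneg B.card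
    positivity
  have h3 : Q.ex (fun z => 2 * (Q.fib θ z).ent fun z => (a z.1, b z.1, b z.2)) ≤
      Q.ex fun z => (Q.fib θ z).ent (fun z => b z.1) + (Q.fib θ z).ent (fun z => b z.2) +
        (Q.fib θ z).ent (fun z => (a z.1)⁻¹ * b z.1) +
        (Q.fib θ z).ent (fun z => (a z.1)⁻¹ * b z.2) + D0 + 6 * log A.card * ind (J < θ z) := by
    refine Q.ex_mono fun z hz => ?_
    by_cases hz2 : J < θ z
    · rw [ind_pos hz2]
      have t1 := (Q.fib θ z).subadd (fun z => a z.1) (fun z => (b z.1, b z.2))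
        (fun z => (a z.1, b z.1, b z.2)) fun _ _ h h' => by rw [h, h']
      have t2 := (Q.fib θ z).subadd (fun z => b z.1) (fun z => b z.2)
        (fun z => (b z.1, b z.2)) fun _ _ h h' => by rw [h, h']
      have t3 := (Q.fib θ z).ent_le_log (fun z => a z.1) A
        fun w hw => (hA _ _ (hs w (fib_supp hz hw).1).1).1
      have := (Q.fib θ z).ent_le_log (fun z => b z.1) A
        fun w hw => (hA _ _ (hs w (fib_supp hz hw).1).1).2
      have := (Q.fib θ z).ent_le_log (fun z => b z.2) A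
        fun w hw => (hA _ _ (hs w (fib_supp hz hw).1).2).2
      have := (Q.fib θ z).ent_nonneg fun z => b z.1
      have := (Q.fib θ z).ent_nonneg fun z => b z.2
      have := (Q.fib θ z).ent_nonneg fun z => (a z.1)⁻¹ * b z.1
      have := (Q.fib θ z).ent_nonneg fun z => (a z.1)⁻¹ * b z.2
      linarith
    · rw [ind_neg hz2, mul_zero, add_zero]
      refine H.core hN (Q.fib θ z) (fun z => a z.1) (fun z => b z.1) (fun z => b z.2)
        (not_lt.mp hz2) hJ (fun w hw => (hs w (fib_supp hz hw).1).1)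
        (fun w hw => (hs w (fib_supp hz hw).1).2) (fun w hw => ?_) (fun w hw h => ?_) K Λ
        (fun w hw => hΛ _ (cp_supp (fib_supp hz hw).1).1)
        (fun w hw => hK _ (cp_supp (fib_supp hz hw).1).1) (fun w hw => ?_)
        (fun w hw => hK _ (cp_supp (fib_supp hz hw).1).2.1)
      · obtain ⟨k1, k2⟩ := fib_supp hz hw
        rw [← k2]
        exact hθ1 w k1
      · obtain ⟨k1, k2⟩ := fib_supp hz hw
        rw [← k2] at h ⊢
        exact hθ2 w h
      · obtain ⟨k1, k2, k3⟩ := cp_supp (fib_supp hz hw).1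
        rw [← k3]
        exact hΛ _ k2
  rw [ex_const_mul, ex_add, ex_add, ex_add, ex_add, ex_add, ex_const, ex_const_mul] at h3
  have h1 := le_ex_fib Q θ fun z => (a z.1, b z.1, b z.2)
  have h2 := Q.ent_le_log θ (range (m + 1)) fun z _ => mem_range.mpr (Nat.lt_succ_of_le (hθ3 z))
  rw [card_range] at h2
  push_cast at h2
  have h4 := ex_fib_le Q θ fun z => b z.1
  have h5 := ex_fib_le Q θ fun z => b z.2
  have h6 := ex_fib_le Q θ fun z => (a z.1)⁻¹ * b z.1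
  have h7 := ex_fib_le Q θ fun z => (a z.1)⁻¹ * b z.2
  have e1 := ent_cp_pair P a (fun ω => (a ω, b ω)) fun _ _ h => (Prod.ext_iff.mp h).1
  have e2 := ent_cp_fst P a b
  have e3 := ent_cp_snd P a b
  have e4 := ent_cp_fst P a fun ω => (a ω)⁻¹ * b ω
  have e5 : Q.ent (fun z => (a z.1)⁻¹ * b z.2) = P.ent fun ω => (a ω)⁻¹ * b ω := by
    rw [← ent_cp_snd P a]
    refine Q.ent_congr' fun z w hz hw => ?_
    rw [(cp_supp hz).2.2, (cp_supp hw).2.2]
  have e6 : Q.ent (fun z => ((a z.1, b z.1), (a z.2, b z.2))) ≤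
      Q.ent fun z => (a z.1, b z.1, b z.2) := Q.ent_mono' fun z w hz hw h => by
    simp only [Prod.mk.injEq] at h ⊢
    rw [(cp_supp hz).2.2, (cp_supp hw).2.2]
    tauto
  have e7 : Q.ex (fun z => ind (J < θ z)) ≤ P.ex fun s => ∑ j ∈ Ioc J m, (P.fib a s).pr
      fun ω => (alt (a s) (b s) j)⁻¹ * alt (a ω) (b ω) j ∈ B := by
    rw [hQ, ex_cp]
    refine P.ex_mono fun s hs0 => le_trans ?_ (pr_exists_le _ _ _)
    refine (P.fib a s).ex_mono fun ω hω => ind_mono fun h => ?_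
    have hz : Q.p (s, ω) ≠ 0 := mul_ne_zero hs0 hω
    refine ⟨θ (s, ω), mem_Ioc.mpr ⟨h, hθ3 _⟩, ?_⟩
    rw [(fib_supp hs0 hω).2]
    exact hθ1 _ hz
  have e8 := mul_le_mul_of_nonneg_left e7 (log_natCast_nonneg A.card)
  rw [← hQ] at e1 e2 e3 e4
  linarith

theorem AltH.main (H : AltH C N m B B' alt ta tb)
    (H' : AltH (fun b a => C a b) N m B B' (fun b a => alt a b) (fun b a => tb a b)
      (fun b a => ta a b))
    (hN : DB N d) (hd : 0 ≤ d) (A : Finset Γ) (hA : ∀ a b, C a b → a ∈ A ∧ b ∈ A) :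
    DB C (d / 2 + 14 + 5 * log (m + 1) + log (log A.card + 1) + 2 * log B.card +
      5 * log B'.card) := by
  intro Ω _ P a b hab
  classical
  set L := log (A.card : ℝ) with hL
  have hL0 : 0 ≤ L := log_natCast_nonneg _
  set η : ℝ := (((m : ℝ) + 1) ^ 2 * (L + 1))⁻¹ with hη
  have hm1 : (1 : ℝ) ≤ m + 1 := by have := Nat.cast_nonneg (α := ℝ) m; linarith
  have hη1 : (1 : ℝ) ≤ ((m : ℝ) + 1) ^ 2 * (L + 1) :=
    one_le_mul_of_one_le_of_one_le (one_le_pow₀ hm1) (by linarith)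
  have hη0 : 0 < η := inv_pos.mpr (by linarith)
  have hη2 : η ≤ 1 := inv_le_one_of_one_le₀ hη1
  set hv : (Ω → Γ) → Ω → ℕ → Prop := fun g ω j => η * P.pv g ω ≤
    P.pr (fun ω' => g ω' = g ω ∧ (alt (a ω) (b ω) j)⁻¹ * alt (a ω') (b ω') j ∈ B) with hhv
  have hv0 : ∀ g ω, P.p ω ≠ 0 → hv g ω 0 := fun g ω h0 => by
    refine le_trans (mul_le_of_le_one_left (P.pr_nonneg _) hη2) ?_
    exact P.pr_mono fun ω' h1 h => ⟨h, H.h0 _ _ _ _ (hab ω h0) (hab ω' h1)⟩
  set J : (Ω → Γ) → Ω → ℕ := fun g ω => Nat.findGreatest (hv g ω) m with hJ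
  have hJ1 : ∀ g ω, P.p ω ≠ 0 → hv g ω (J g ω) := fun g ω h0 =>
    Nat.findGreatest_spec (P := hv g ω) (Nat.zero_le m) (hv0 g ω h0)
  have hJ2 : ∀ g ω j, J g ω < j → j ≤ m → ¬ hv g ω j := fun g ω j h1 h2 =>
    Nat.findGreatest_is_greatest h1 h2
  have hJ3 : ∀ g ω, J g ω ≤ m := fun g ω => Nat.findGreatest_le m
  set τ : Ω → ℕ × Bool := fun ω => (max (J a ω) (J b ω), decide (J a ω ≤ J b ω)) with hτ
  set Θ : Finset (ℕ × Bool) := range (m + 1) ×ˢ univ with hΘ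
  have hτΘ : ∀ ω, P.p ω ≠ 0 → τ ω ∈ Θ := fun ω _ =>
    mem_product.mpr ⟨mem_range.mpr (Nat.lt_succ_of_le (max_le (hJ3 _ _) (hJ3 _ _))), mem_univ _⟩
  have hΘc : (Θ.card : ℝ) = 2 * (m + 1) := by
    rw [hΘ, card_product, card_range, card_univ, Fintype.card_bool]; push_cast; ring
  obtain ⟨ω1, hω1⟩ := P.exists_supp
  have hB1 : (1 : ℝ) ≤ B.card := by
    exact_mod_cast card_pos.mpr ⟨_, H.h0 _ _ _ _ (hab ω1 hω1) (hab ω1 hω1)⟩
  have hK1 : 1 ≤ (B.card : ℝ) / η := by rw [le_div_iff₀ hη0]; linarith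
  set D1 := log (m + 1) + (d + 2 * log ((B.card : ℝ) / η) + 10 * log B'.card + log B.card) / 2
    with hD1
  set r : (Ω → Γ) → Ω → ℝ := fun g ω => P.pv g ω / P.pv (fun ω => (τ ω, g ω)) ω with hr
  have hr0 : ∀ g ω, 0 ≤ r g ω := fun g ω => div_nonneg (P.pr_nonneg _) (P.pr_nonneg _)
  have fail : ∀ g ω0, P.p ω0 ≠ 0 → ∀ J0, (∀ s, P.p s ≠ 0 → τ s = τ ω0 → J g s ≤ J0) →
      (P.fib τ ω0).ex (fun s => ∑ j ∈ Ioc J0 m, ((P.fib τ ω0).fib g s).pr
        fun ω => (alt (a s) (b s) j)⁻¹ * alt (a ω) (b ω) j ∈ B) ≤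
      (P.fib τ ω0).ex fun s => (m + 1) * η * (r a s + r b s + r g s) - (m + 1) * η * (r a s + r b s) := by
    intro g ω0 h0 J0 hJ0
    refine (P.fib τ ω0).ex_mono fun s hs => ?_
    obtain ⟨k1, k2⟩ := fib_supp h0 hs
    calc _ ≤ ∑ _j ∈ Ioc J0 m, η * r g s := by
          refine sum_le_sum fun j hj => (pr_fib_fib_le P τ g h0 hs _).trans ?_
          rw [hr, ← mul_div_assoc]
          refine div_le_div_of_nonneg_right (le_of_lt (not_le.mp ?_)) (P.pr_nonneg _)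
          exact hJ2 g s j ((hJ0 s k1 k2).trans_lt (mem_Ioc.mp hj).1) (mem_Ioc.mp hj).2
      _ ≤ _ := by
          rw [sum_const, nsmul_eq_mul, Nat.card_Ioc]
          have : ((m - J0 : ℕ) : ℝ) ≤ m + 1 := by
            exact_mod_cast (Nat.sub_le m J0).trans (Nat.le_succ m)
          have h2 := mul_le_mul_of_nonneg_right this (mul_nonneg hη0.le (hr0 g s))
          linarith
  have h3 : P.ex (fun ω => 2 * (P.fib τ ω).ent fun ω => (a ω, b ω)) ≤
      P.ex fun ω => (P.fib τ ω).ent a + (P.fib τ ω).ent b +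
        (P.fib τ ω).ent (fun ω => (a ω)⁻¹ * b ω) + D1 +
        3 * L * (P.fib τ ω).ex fun s => (m + 1) * η * (r a s + r b s) := by
    refine P.ex_mono fun ω0 h0 => ?_
    have hC : ∀ ω, (P.fib τ ω0).p ω ≠ 0 → C (a ω) (b ω) := fun ω h => hab ω (fib_supp h0 h).1
    have hm0 : 0 ≤ ((m : ℝ) + 1) * η := by positivity
    by_cases hc : J a ω0 ≤ J b ω0
    · have hτ1 : ∀ s, τ s = τ ω0 → J a s ≤ J b s ∧ J b s = J b ω0 := fun s e => by
        simp only [hτ, Prod.mk.injEq, decide_eq_decide] at e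
        have := e.2.mpr hc
        rw [max_eq_right this, max_eq_right hc] at e
        exact ⟨this, e.1⟩
      obtain ⟨Λ, hΛ1, hΛ2⟩ := exists_list P b (fun ω => alt (a ω) (b ω) (J b ω0)) B hη0
      have k := H.side hN hd A hA (P.fib τ ω0) a b (hJ3 b ω0) hC _ hK1 Λ
        (fun ω h => hΛ2 ω (by
          have := hJ1 b ω (fib_supp h0 h).1
          rwa [(hτ1 ω (fib_supp h0 h).2).2] at this))
        (fun ω h => hΛ1 ω (fib_supp h0 h).1)
      have k2 := (fail a ω0 h0 (J b ω0) fun s _ e => (hτ1 s e).1.trans (hτ1 s e).2.le).trans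
        ((P.fib τ ω0).ex_mono (G := fun s => (m + 1) * η * (r a s + r b s)) fun s _ => by
          nlinarith [hr0 b s])
      have k3 := mul_le_mul_of_nonneg_left k2 (by positivity : 0 ≤ 3 * L)
      linarith
    · have hτ1 : ∀ s, τ s = τ ω0 → J b s ≤ J a s ∧ J a s = J a ω0 := fun s e => by
        simp only [hτ, Prod.mk.injEq, decide_eq_decide] at e
        have : J b s ≤ J a s := le_of_lt (not_le.mp fun h => hc (e.2.mp h))
        rw [max_eq_left this, max_eq_left (le_of_lt (not_le.mp hc))] at e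
        exact ⟨this, e.1⟩
      obtain ⟨Λ, hΛ1, hΛ2⟩ := exists_list P a (fun ω => alt (a ω) (b ω) (J a ω0)) B hη0
      have k := H'.side hN hd A (fun b a h => (hA a b h).symm) (P.fib τ ω0) b a (hJ3 a ω0) hC
        _ hK1 Λ
        (fun ω h => hΛ2 ω (by
          have := hJ1 a ω (fib_supp h0 h).1
          rwa [(hτ1 ω (fib_supp h0 h).2).2] at this))
        (fun ω h => hΛ1 ω (fib_supp h0 h).1)
      have k2 := (fail b ω0 h0 (J a ω0) fun s _ e => (hτ1 s e).1.trans (hτ1 s e).2.le).trans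
        ((P.fib τ ω0).ex_mono (G := fun s => (m + 1) * η * (r a s + r b s)) fun s _ => by
          nlinarith [hr0 a s])
      have k3 := mul_le_mul_of_nonneg_left k2 (by positivity : 0 ≤ 3 * L)
      have e1 : (P.fib τ ω0).ent (fun ω => (b ω, a ω)) = (P.fib τ ω0).ent (fun ω => (a ω, b ω)) :=
        (P.fib τ ω0).ent_congr fun ω ω' => by simp only [Prod.mk.injEq]; tauto
      have e2 : (P.fib τ ω0).ent (fun ω => (b ω)⁻¹ * a ω) =
          (P.fib τ ω0).ent (fun ω => (a ω)⁻¹ * b ω) :=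
        (P.fib τ ω0).ent_congr fun ω ω' => by
          rw [← inv_inj]; simp only [mul_inv_rev, inv_inv]
      linarith
  rw [ex_const_mul, ex_add, ex_add, ex_add, ex_add, ex_const, ex_const_mul, tower', ex_const_mul,
    ex_add] at h3
  have r1 := ex_ratio_le P τ a Θ hτΘ
  have r2 := ex_ratio_le P τ b Θ hτΘ
  rw [hΘc] at r1 r2
  have h1 := le_ex_fib P τ fun ω => (a ω, b ω)
  have h2 := P.ent_le_log τ Θ hτΘ
  rw [hΘc, log_mul (by norm_num) (by linarith)] at h2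
  have h4 := ex_fib_le P τ a
  have h5 := ex_fib_le P τ b
  have h6 := ex_fib_le P τ fun ω => (a ω)⁻¹ * b ω
  have h7 : log ((B.card : ℝ) / η) = log B.card + 2 * log (m + 1) + log (L + 1) := by
    rw [hη, div_inv_eq_mul, log_mul (by linarith) (by linarith),
      log_mul (by positivity) (by linarith), log_pow]
    push_cast
    ring
  have h8 : 3 * L * ((m + 1) * η * (P.ex (r a) + P.ex (r b))) ≤ 12 := by
    have k1 : P.ex (r a) + P.ex (r b) ≤ 4 * (m + 1) := by linarith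
    have k2 := mul_le_mul_of_nonneg_left k1 (by positivity : 0 ≤ 3 * L * ((m + 1) * η))
    have k3 : ((m : ℝ) + 1) ^ 2 * (L + 1) * η = 1 := mul_inv_cancel₀ (by linarith)
    have k4 : 0 ≤ ((m : ℝ) + 1) ^ 2 * η := by positivity
    nlinarith
  have h9 : log 2 ≤ 1 := by
    have := log_le_sub_one_of_pos (x := 2) (by norm_num); linarith
  have := log_natCast_nonneg B.card
  linarith

end Pool.Agent.Work.MP_dbf1ea_an
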