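import Pool.Agent.Work.MP_dbf1ea_an.Flat

/-!
Apartment charts, convexity, branching of altitudes, and reduction to flat triangles.
-/

set_option autoImplicit false

namespace Pool.Agent.Work.MP_dbf1ea_an

universe u

/-- `v` lies in the convex hull, for the roots, of three coweights. -/
def Btw (v0 v1 v2 v : ℤ × ℤ) : Prop :=
  (v.1 ≤ v0.1 ∨ v.1 ≤ v1.1 ∨ v.1 ≤ v2.1) ∧ (v0.1 ≤ v.1 ∨ v1.1 ≤ v.1 ∨ v2.1 ≤ v.1) ∧
  (v.2 ≤ v0.2 ∨ v.2 ≤ v1.2 ∨ v.2 ≤ v2.2) ∧ (v0.2 ≤ v.2 ∨ v1.2 ≤ v.2 ∨ v2.2 ≤ v.2) ∧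
  (v.1 + v.2 ≤ v0.1 + v0.2 ∨ v.1 + v.2 ≤ v1.1 + v1.2 ∨ v.1 + v.2 ≤ v2.1 + v2.2) ∧
  (v0.1 + v0.2 ≤ v.1 + v.2 ∨ v1.1 + v1.2 ≤ v.1 + v.2 ∨ v2.1 + v2.2 ≤ v.1 + v.2) ∧
  (v.1 - v.2 ≤ v0.1 - v0.2 ∨ v.1 - v.2 ≤ v1.1 - v1.2 ∨ v.1 - v.2 ≤ v2.1 - v2.2) ∧
  (v0.1 - v0.2 ≤ v.1 - v.2 ∨ v1.1 - v1.2 ≤ v.1 - v.2 ∨ v2.1 - v2.2 ≤ v.1 - v.2)

theorem Btw.ap {v0 v1 v2 v : ℤ × ℤ} (h : Btw v0 v1 v2 v) (r c : I4) :
    wt v c - wt v r ≤ wt v0 c - wt v0 r ∨ wt v c - wt v r ≤ wt v1 c - wt v1 r ∨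
      wt v c - wt v r ≤ wt v2 c - wt v2 r := by
  obtain ⟨h1, h2, h3, h4, h5, h6, h7, h8⟩ := h
  revert r c
  simp only [forall_I4, wt_i0, wt_i1, wt_j0, wt_j1]
  refine ⟨⟨?_, ?_, ?_, ?_⟩, ⟨?_, ?_, ?_, ?_⟩, ⟨?_, ?_, ?_, ?_⟩, ?_, ?_, ?_, ?_⟩
  · omega
  · clear h1 h2 h3 h4 h5 h6 h7; omega
  · clear h1 h3 h4 h5 h6 h7 h8; omega
  · clear h1 h2 h3 h4 h5 h7 h8; omega
  · clear h1 h2 h3 h4 h5 h6 h8; omega
  · omega
  · clear h1 h2 h3 h4 h5 h7 h8; omega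
  · clear h1 h2 h3 h5 h6 h7 h8; omega
  · clear h2 h3 h4 h5 h6 h7 h8; omega
  · clear h1 h2 h3 h4 h6 h7 h8; omega
  · omega
  · clear h1 h2 h3 h4 h5 h6 h8; omega
  · clear h1 h2 h3 h4 h6 h7 h8; omega
  · clear h1 h2 h4 h5 h6 h7 h8; omega
  · clear h1 h2 h3 h4 h5 h6 h7; omega
  · omega

theorem btw_dom {l v : ℤ × ℤ} (h1 : Dom v) (h2 : Dom (l - v)) : Btw 0 l l v := by
  unfold Dom at *
  simp only [Prod.fst_sub, Prod.snd_sub] at h2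
  simp only [Btw, Prod.fst_zero, Prod.snd_zero]
  omega

theorem btw_mid (d : ℤ × ℤ) : Btw d (-d) (-d) 0 := by
  simp only [Btw, Prod.fst_zero, Prod.snd_zero, Prod.fst_neg, Prod.snd_neg]
  omega

theorem Btw.swap {v0 v1 v : ℤ × ℤ} (h : Btw v0 v1 v1 v) : Btw v1 v0 v0 v := by
  have e : ∀ {p q : Prop}, p ∨ q ∨ q → q ∨ p ∨ p := fun h => by tauto
  obtain ⟨h1, h2, h3, h4, h5, h6, h7, h8⟩ := h
  exact ⟨e h1, e h2, e h3, e h4, e h5, e h6, e h7, e h8⟩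

namespace Sc

variable {k : Type u} [NormedField k] {s : Sc k}

theorem conv {n : ℤ} {g : Sp k} {v0 v1 v2 v : ℤ × ℤ} (h : Btw v0 v1 v2 v)
    (h0 : s.Bd n ((s.t v0)⁻¹ * g * s.t v0)) (h1 : s.Bd n ((s.t v1)⁻¹ * g * s.t v1))
    (h2 : s.Bd n ((s.t v2)⁻¹ * g * s.t v2)) : s.Bd n ((s.t v)⁻¹ * g * s.t v) := by
  rw [Bd_conj] at *
  intro r c
  rcases h.ap r c with e | e | e
  · exact (h0 r c).mono (by omega)
  · exact (h1 r c).mono (by omega)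
  · exact (h2 r c).mono (by omega)

variable (s) in
/-- The point `x` is near the point `v` of the chart `g`. -/
def At (n : ℤ) (g : Sp k) (v : ℤ × ℤ) (x : Sp k) : Prop := s.Bd n ((g * s.t v)⁻¹ * x)

section At

variable {n m : ℤ} {g g' x x' w : Sp k} {u v : ℤ × ℤ}

theorem At.mono (h : s.At n g v x) (hm : n ≤ m) : s.At m g v x := Bd.mono h hm

theorem At.agree (h : s.At n g v x) (h' : s.At n g' v x') (hx : s.Bd m (x⁻¹ * x')) :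
    s.Bd (m + 2 * n + 2) ((s.t v)⁻¹ * (g⁻¹ * g') * s.t v) := by
  have := (Bd.mul h hx).mul (Bd.inv h')
  have e : (g * s.t v)⁻¹ * x * (x⁻¹ * x') * ((g' * s.t v)⁻¹ * x')⁻¹ =
      (s.t v)⁻¹ * (g⁻¹ * g') * s.t v := by group
  rw [e] at this
  exact this.mono (by omega)

theorem At.agree' (h : s.At n g v x) (h' : s.At n g' v x) :
    s.Bd (2 * n + 1) ((s.t v)⁻¹ * (g⁻¹ * g') * s.t v) := by
  have := Bd.mul h (Bd.inv h')
  have e : (g * s.t v)⁻¹ * x * ((g' * s.t v)⁻¹ * x)⁻¹ = (s.t v)⁻¹ * (g⁻¹ * g') * s.t v := by group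
  rw [e] at this
  exact this.mono (by omega)

theorem At.close (h : s.At n g v x) (h' : s.At n g' v x')
    (hx : s.Bd m ((s.t v)⁻¹ * (g⁻¹ * g') * s.t v)) : s.Bd (m + 2 * n + 2) (x⁻¹ * x') := by
  have := ((Bd.inv h).mul hx).mul h'
  have e : ((g * s.t v)⁻¹ * x)⁻¹ * ((s.t v)⁻¹ * (g⁻¹ * g') * s.t v) * ((g' * s.t v)⁻¹ * x') =
      x⁻¹ * x' := by group
  rw [e] at this
  exact this.mono (by omega)

theorem At.left (h : s.At n g v x) (y : Sp k) : s.At n (y * g) v (y * x) := by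
  have e : (y * g * s.t v)⁻¹ * (y * x) = (g * s.t v)⁻¹ * x := by group
  rwa [At, e]

theorem At.near (h : s.At n g v x) (hx : s.Bd m (x⁻¹ * x')) : s.At (n + m + 1) g v x' := by
  have := Bd.mul h hx
  rwa [mul_assoc, mul_inv_cancel_left] at this

theorem At.chart (h : s.At n g v x) (hw : s.Bd m ((s.t u)⁻¹ * w⁻¹ * s.t v)) :
    s.At (n + m + 1) (g * w) u x := by
  have := hw.mul h
  have e : (s.t u)⁻¹ * w⁻¹ * s.t v * ((g * s.t v)⁻¹ * x) = (g * w * s.t u)⁻¹ * x := by group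
  rw [e, add_comm m] at this
  exact this

theorem At.weyl (h : s.At n g v x) (hw : s.Bd 0 w) (hc : s.t v * w = w * s.t u) :
    s.At (n + 1) (g * w) u x := by
  have := h.chart (u := u) (w := w) (m := 0) (by
    rw [← mul_inv_rev, ← hc, mul_inv_rev, inv_mul_cancel_right]; exact hw.inv)
  rwa [add_zero] at this

theorem At_shift : s.At n (g * s.t u) v x ↔ s.At n g (u + v) x := by
  rw [At, At, t_add, mul_assoc g]

theorem At.move (h : s.At n g v x) (h1 : |v.1 - u.1| ≤ m) (h2 : |v.2 - u.2| ≤ m) :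
    s.At (n + m + 1) g u x := by
  have := h.chart (u := u) (w := 1) (m := m) (by
    rw [inv_one, mul_one, t_comm', ← t_sub]; exact Bd_t h1 h2)
  rwa [mul_one] at this
where t_comm' : (s.t u)⁻¹ * s.t v = s.t v * (s.t u)⁻¹ := by rw [← t_neg, t_comm]

theorem At_self (g : Sp k) (v : ℤ × ℤ) : s.At 0 g v (g * s.t v) := by
  rw [At, inv_mul_cancel]; exact Bd_one

theorem det3 {v0 v1 v2 : ℤ × ℤ} {x0 x1 x2 : Sp k} (h : Btw v0 v1 v2 v)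
    (a0 : s.At n g v0 x0) (a1 : s.At n g v1 x1) (a2 : s.At n g v2 x2) (a : s.At n g v x)
    (b0 : s.At n g' v0 x0) (b1 : s.At n g' v1 x1) (b2 : s.At n g' v2 x2) (b : s.At n g' v x') :
    s.Bd (4 * n + 3) (x⁻¹ * x') :=
  (a.close b (conv h (a0.agree' b0) (a1.agree' b1) (a2.agree' b2))).mono (by omega)

end At

theorem brI (n e : ℤ) : ∃ m : ℤ, ∀ (κ : Sp k) (σ j : ℤ), 0 ≤ j → 2 * j ≤ σ → s.Bd n κ →
    s.Bd n ((s.t (0, σ))⁻¹ * κ * s.t (0, σ)) → s.Bd e ((s.t (j, j))⁻¹ * κ * s.t (j, j)) →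
    (2 * (j + 1) ≤ σ → ¬ s.Bd n ((s.t (j + 1, j + 1))⁻¹ * κ * s.t (j + 1, j + 1))) →
    s.Fr m ((s.t (j, j))⁻¹ * κ * s.t (j, j)) (σ - 2 * j, 0) (-(σ - 2 * j), 0) (σ - 2 * j, 0) := by
  refine ⟨3 * (|e| + |n - 2|) + 4, fun κ σ j h0 h1 b0 b1 b2 hn => ?_⟩
  have := abs_nonneg e
  have := abs_nonneg (n - 2)
  by_cases hj : 2 * (j + 1) ≤ σ
  · refine (oppI (e := n - 2) (by omega) b2 ?_).mono (by omega)
    rw [conj_ap, L_mul_pow]
    by_contra hc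
    apply hn hj
    have hc := N_of_not hc
    rw [Bd_conj] at b1 ⊢
    simp only [forall_I4, wt_i0, wt_i1, wt_j0, wt_j1] at b1 hc ⊢
    obtain ⟨⟨-, c1, -, -⟩, -, ⟨-, c2, -, -⟩, c3, c4, c5, -⟩ := b1
    refine ⟨⟨?_, ?_, ?_, ?_⟩, ⟨?_, ?_, ?_, ?_⟩, ⟨hc.mono (by omega), c2.mono (by omega), ?_, ?_⟩,
      c3.mono (by omega), c4.mono (by omega), ?_, ?_⟩ <;> exact (b0 _ _).mono (by omega)
  · exact (Fr_triv (c := 1) b2 (by simp only [abs_le]; omega) (by simp only [abs_le]; omega)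
      (by simp only [abs_le]; omega) (by simp only [abs_le]; omega)).mono (by omega)

theorem brII [ProperSpace k] (n e : ℤ) : ∃ m : ℤ, ∀ (κ : Sp k) (τ j : ℤ), 0 ≤ j → j ≤ τ →
    s.Bd n κ → s.Bd n ((s.t (τ, -τ))⁻¹ * κ * s.t (τ, -τ)) →
    s.Bd e ((s.t (j, 0))⁻¹ * κ * s.t (j, 0)) →
    (j + 1 ≤ τ → ¬ s.Bd n ((s.t (j + 1, 0))⁻¹ * κ * s.t (j + 1, 0))) →
    s.Fr m ((s.t (j, 0))⁻¹ * κ * s.t (j, 0)) (τ - j, τ - j) (-(τ - j), -(τ - j)) (τ - j, τ - j) := by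
  obtain ⟨e', h⟩ := model (s := s) e (n - 1)
  refine ⟨3 * (|e| + |e'|) + 2 * |n| + 4, fun κ τ j h0 h1 b0 b1 b2 hn => ?_⟩
  have := abs_nonneg e
  have := abs_nonneg e'
  have := abs_nonneg n
  have := le_abs_self n
  have := neg_abs_le e'
  by_cases hj : |n| + |e'| + 1 ≤ τ - j
  · obtain ⟨g0, m1, m2, m3⟩ := h _ b2
    refine (oppII (e := e') (by omega) b2 (m2 _ _ _ _ ?_)).mono (by omega)
    rw [Bd_conj] at b1
    have sm : ∀ r c, n - (wt (τ, -τ) c - wt (τ, -τ) r) + (wt (j, 0) c - wt (j, 0) r) < e' →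
        g0.1 r c = 0 := fun r c hh => by
      by_contra hc
      have h3 := m1 r c hc
      rw [conj_ap, L_mul_pow] at h3
      have := h3.le (b1 r c)
      omega
    have z1 := sm j0 i0 (by simp only [wt_i0, wt_j0]; omega)
    have z2 := sm i1 j1 (by simp only [wt_i1, wt_j1]; omega)
    have z3 := sm i1 i0 (by simp only [wt_i0, wt_i1]; omega)
    have z4 := sm j0 j1 (by simp only [wt_j0, wt_j1]; omega)
    have big : g0.1 j1 i0 ≠ 0 ∨ g0.1 j0 i1 ≠ 0 := by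
      by_contra hc
      push Not at hc
      have c1 := N_of_not fun h => m3 _ _ h hc.1
      have c2 := N_of_not fun h => m3 _ _ h hc.2
      rw [conj_ap, N_mul_pow] at c1 c2
      apply hn (by omega)
      rw [Bd_conj]
      simp only [forall_I4, wt_i0, wt_i1, wt_j0, wt_j1] at b1 c1 c2 ⊢
      obtain ⟨-, ⟨d1, -⟩, ⟨d2, -, -, d3⟩, -⟩ := b1
      refine ⟨⟨?_, ?_, ?_, ?_⟩, ⟨d1.mono (by omega), ?_, ?_, ?_⟩,
        ⟨d2.mono (by omega), c2.mono (by omega), ?_, d3.mono (by omega)⟩,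
        c1.mono (by omega), ?_, ?_, ?_⟩ <;> exact (b0 _ _).mono (by omega)
    obtain ⟨k1, -, k3, -, -, k6⟩ := cols g0
    simp only [om, z1, z2, z3, z4, mul_zero, zero_mul, sub_zero, add_zero, zero_sub] at k1 k3 k6
    simp only [mn, z1, zero_mul, zero_sub, ne_eq, neg_eq_zero, mul_eq_zero, not_or]
    by_cases y1 : g0.1 j1 i0 = 0
    · have y2 := big.resolve_left (not_not.mpr y1)
      simp only [y1, zero_mul, sub_zero, mul_eq_zero, y2, or_false] at k1 k3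
      simp [k1] at k3
    · refine ⟨fun y2 => ?_, y1⟩
      simp only [y2, mul_zero, zero_mul, zero_sub, neg_eq_zero, mul_eq_zero, y1, false_or] at k1 k6
      simp [k1] at k6
  · exact (Fr_triv (c := |n| + |e'|) b2 (by simp only [abs_le]; omega)
      (by simp only [abs_le]; omega) (by simp only [abs_le]; omega)
      (by simp only [abs_le]; omega)).mono (by omega)

end Sc

end Pool.Agent.Work.MP_dbf1ea_an
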