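import Pool.Agent.Work.MP_dbf1ea_an.Reduce

/-!
Flat right isosceles triangles and opposite directions.
-/

set_option autoImplicit false

namespace Pool.Agent.Work.MP_dbf1ea_an

universe u

namespace Sc

variable {k : Type u} [NormedField k] {s : Sc k}

theorem par1 {n σ : ℤ} {h : Sp k} (hb : s.Bd n h) (hσ : 0 ≤ σ) (h1 : h.1 i1 i0 = 0)
    (h2 : h.1 j1 i0 = 0) (h3 : h.1 j0 i0 = 0) (h4 : h.1 j0 i1 = 0) (h5 : h.1 j0 j1 = 0) :
    s.Bd n ((s.t (σ, 0))⁻¹ * h * s.t (σ, 0)) := by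
  simp only [Bd_conj, forall_I4, wt_i0, wt_i1, wt_j0, wt_j1, h1, h2, h3, h4, h5, N_zero, true_and,
    and_true]
  refine ⟨⟨?_, ?_, ?_, ?_⟩, ⟨?_, ?_, ?_⟩, ?_, ?_, ?_, ?_⟩ <;> exact (hb _ _).mono (by omega)

theorem par2 {n σ : ℤ} {h : Sp k} (hb : s.Bd n h) (hσ : 0 ≤ σ) (h1 : h.1 j0 i0 = 0)
    (h2 : h.1 j0 i1 = 0) (h3 : h.1 j1 i0 = 0) (h4 : h.1 j1 i1 = 0) :
    s.Bd n ((s.t (σ, σ))⁻¹ * h * s.t (σ, σ)) := by
  simp only [Bd_conj, forall_I4, wt_i0, wt_i1, wt_j0, wt_j1, h1, h2, h3, h4, N_zero, true_and]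
  refine ⟨⟨?_, ?_, ?_, ?_⟩, ⟨?_, ?_, ?_, ?_⟩, ⟨?_, ?_⟩, ?_, ?_⟩ <;> exact (hb _ _).mono (by omega)

theorem Bd.conj_inv {n : ℤ} {h x : Sp k} (hb : s.Bd n (x⁻¹ * h * x)) :
    s.Bd n (x⁻¹ * h⁻¹ * x) := by
  have := hb.inv
  simpa only [mul_inv_rev, inv_inv, mul_assoc] using this

variable (s) in
/-- A frame `f` fixing the directions `0` and `u` and carrying `u'` to the image of `v`. -/
def Fr (m : ℤ) (K : Sp k) (u u' v : ℤ × ℤ) : Prop :=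
  ∃ f : Sp k, s.Bd m f ∧ s.Bd m ((s.t u)⁻¹ * f * s.t u) ∧ s.Bd m ((s.t u')⁻¹ * (f⁻¹ * K) * s.t v)

theorem Fr.mono {m m' : ℤ} {K : Sp k} {u u' v : ℤ × ℤ} (h : s.Fr m K u u' v) (hm : m ≤ m') :
    s.Fr m' K u u' v := by
  obtain ⟨f, h1, h2, h3⟩ := h
  exact ⟨f, h1.mono hm, h2.mono hm, h3.mono hm⟩

theorem Fr_triv {n c : ℤ} {K : Sp k} {u u' v : ℤ × ℤ} (h : s.Bd n K) (h1 : |u'.1| ≤ c)
    (h2 : |u'.2| ≤ c) (h3 : |v.1| ≤ c) (h4 : |v.2| ≤ c) : s.Fr (|n| + 2 * c + 2) K u u' v := by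
  have := abs_nonneg n
  have := le_abs_self n
  have := abs_nonneg v.1
  refine ⟨1, Bd_one.mono (by omega), ?_, ?_⟩
  · rw [mul_one, inv_mul_cancel]; exact Bd_one.mono (by omega)
  · rw [inv_one, one_mul]
    exact (((Bd_t h1 h2).inv.mul h).mul (Bd_t h3 h4)).mono (by omega)

theorem Fr.left {m : ℤ} {K w : Sp k} {u u' v : ℤ × ℤ} (h : s.Fr m (w * K) u u' v) (hw : s.Bd 0 w)
    (hc : s.t u * w = w * s.t u) : s.Fr (m + 1) K u u' v := by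
  obtain ⟨f, h1, h2, h3⟩ := h
  refine ⟨w⁻¹ * f, (hw.inv.mul h1).mono (by omega), ?_, ?_⟩
  · have e : (s.t u)⁻¹ * (w⁻¹ * f) * s.t u = w⁻¹ * ((s.t u)⁻¹ * f * s.t u) := by
      simp only [← mul_assoc]
      rw [← mul_inv_rev, ← mul_inv_rev, hc]
    rw [e]
    exact (hw.inv.mul h2).mono (by omega)
  · rw [mul_inv_rev, inv_inv, mul_assoc f⁻¹]
    exact h3.mono (by omega)

theorem Fr.right {m m' : ℤ} {K w : Sp k} {u u' v : ℤ × ℤ} (h : s.Fr m (K * w) u u' v)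
    (hw : s.Bd m' ((s.t v)⁻¹ * w * s.t v)) (h0 : 0 ≤ m') : s.Fr (m + m' + 1) K u u' v := by
  obtain ⟨f, h1, h2, h3⟩ := h
  refine ⟨f, h1.mono (by omega), h2.mono (by omega), ?_⟩
  have := h3.mul hw.inv
  have e : (s.t u')⁻¹ * (f⁻¹ * (K * w)) * s.t v * ((s.t v)⁻¹ * w * s.t v)⁻¹ =
      (s.t u')⁻¹ * (f⁻¹ * K) * s.t v := by group
  rwa [e] at this

theorem flatI0 {n e e' σ : ℤ} {K : Sp k} (hσ : 0 ≤ σ) (hK : s.Bd n K) (hl : s.L e' (K.1 i1 i0))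
    (hN : s.N (e - σ) (K.1 j0 i0)) :
    s.Fr (10 * (|n| + |e| + |e'|) + 10) K (σ, 0) (0, σ) (σ, 0) := by
  obtain ⟨c, hc, c1, c2, c3⟩ : ∃ c, c = |n| + |e| + |e'| ∧ n ≤ c ∧ e ≤ c ∧ -c ≤ e' := by
    have := abs_nonneg n
    have := abs_nonneg e
    have := abs_nonneg e'
    have := le_abs_self n
    have := le_abs_self e
    have := neg_abs_le e'
    exact ⟨_, rfl, by omega, by omega, by omega⟩
  have c0 : 0 ≤ c := by rw [hc]; positivity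
  rw [← hc]
  have hx := hl.ne
  set r := K.1 i0 i0 / K.1 i1 i0 with hr
  set q := (K.1 j1 i0 + r * K.1 j0 i0) / K.1 i1 i0 with hq
  have n1 : s.N (2 * c) r := ((hK _ _).div hl).mono (by omega)
  have n2 : s.N (4 * c + 1) q := (((hK _ _).add (n1.mul (hK _ _))).div hl).mono (by omega)
  have b1 : s.Bd (6 * c + 2) (hU (-r) 0 0 * xL (-q)) :=
    ((Bd_hU (by omega) n1.neg (N_zero _) (N_zero _)).mul (Bd_xL (by omega) n2.neg)).mono (by omega)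
  refine ⟨(hU (-r) 0 0 * xL (-q))⁻¹, b1.inv.mono (by omega),
    (par1 b1 hσ ?_ ?_ ?_ ?_ ?_).conj_inv.mono (by omega), ?_⟩
  any_goals simp only [mul_ap]; simp [hU, xL]
  rw [inv_inv]
  have b2 := b1.mul hK
  set H := hU (-r) 0 0 * xL (-q) * K with hH
  have z1 : H.1 i0 i0 = 0 := by
    simp only [hH, mul_ap]; simp [hU, xL, hr]; field_simp; ring
  have z2 : H.1 j1 i0 = 0 := by
    simp only [hH, mul_ap]; simp [hU, xL, hq]; field_simp; ring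
  have z3 : H.1 i1 i0 = K.1 i1 i0 := by simp only [hH, mul_ap]; simp [hU, xL]
  have z4 : H.1 j0 i0 = K.1 j0 i0 := by simp only [hH, mul_ap]; simp [hU, xL]
  obtain ⟨k1, -, -, k4, -, -⟩ := cols H
  simp only [om, z1, z2, z3, z4] at k1 k4
  have z5 : H.1 j1 i1 = K.1 j0 i0 * H.1 i0 i1 / K.1 i1 i0 := by
    field_simp; linear_combination k1
  have z6 : H.1 j1 j1 = K.1 j0 i0 * H.1 i0 j1 / K.1 i1 i0 := by
    field_simp; linear_combination k4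
  simp only [Bd_conj, forall_I4, wt_i0, wt_i1, wt_j0, wt_j1, z1, z2, N_zero, true_and]
  refine ⟨⟨?_, ?_, ?_⟩, ⟨?_, ?_, ?_, ?_⟩, ⟨z4 ▸ hN.mono (by omega), ?_, ?_, ?_⟩,
    z5 ▸ ((hN.mul (b2 _ _)).div hl).mono (by omega), ?_,
    z6 ▸ ((hN.mul (b2 _ _)).div hl).mono (by omega)⟩ <;> exact (b2 _ _).mono (by omega)

theorem flatI [ProperSpace k] (n e : ℤ) : ∃ m : ℤ, ∀ (K : Sp k) (σ : ℤ), 0 ≤ σ → s.Bd n K →
    ¬ s.Bd n ((s.t (1, 0))⁻¹ * K * s.t (1, 0)) → s.N (e - σ) (K.1 j0 i0) →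
    s.Fr m K (σ, 0) (0, σ) (σ, 0) := by
  obtain ⟨e', h⟩ := model (s := s) n (n - 2)
  refine ⟨10 * (|n + 1| + |n| + |e| + |e'|) + 11, fun K σ hσ hK hR hN => ?_⟩
  obtain ⟨g0, m1, -, m3⟩ := h K hK
  have := abs_nonneg n
  have := abs_nonneg (n + 1)
  have := abs_nonneg e
  have := abs_nonneg e'
  have := le_abs_self e
  have := neg_abs_le e'
  have h3 : g0.1 i1 i0 ≠ 0 ∨ g0.1 j1 i0 ≠ 0 ∨ g0.1 j0 i0 ≠ 0 := by
    by_contra hc
    push Not at hc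
    obtain ⟨z1, z2, z3⟩ := hc
    obtain ⟨k1, -, k3, k4, -, -⟩ := cols g0
    simp only [om, z1, z2, z3, zero_mul, sub_zero, add_zero] at k1 k3 k4
    have a1 := left_ne_zero_of_mul_eq_one k3
    rcases nb10 hK hR with h | h | h | h | h
    · exact m3 _ _ h z1
    · exact m3 _ _ h z2
    · exact m3 _ _ h z3
    · exact m3 _ _ h ((mul_eq_zero.mp k1).resolve_left a1)
    · exact m3 _ _ h ((mul_eq_zero.mp k4).resolve_left a1)
  rcases h3 with h3 | h3 | h3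
  · exact (flatI0 hσ hK (m1 _ _ h3) hN).mono (by omega)
  · have e1 : (s2 * K).1 i1 i0 = -K.1 j1 i0 := by simp only [mul_ap]; simp [s2]
    have e2 : (s2 * K).1 j0 i0 = K.1 j0 i0 := by simp only [mul_ap]; simp [s2]
    have := flatI0 (e' := e') (e := e) hσ (Bd_s2.mul hK) (by rw [e1, L_neg]; exact m1 _ _ h3)
      (e2 ▸ hN)
    rw [zero_add] at this
    exact (this.left Bd_s2 (by simpa using t_s2 (s := s) σ 0)).mono (by omega)
  · have := (m1 _ _ h3).le hN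
    exact (Fr_triv (c := |e| + |e'|) hK (by simp only [abs_le]; omega) (by simp only [abs_le]; omega)
      (by simp only [abs_le]; omega) (by simp only [abs_le]; omega)).mono (by omega)

theorem flatII0 {n e e' τ : ℤ} {K : Sp k} (hτ : 0 ≤ τ) (hK : s.Bd n K) (hl : s.L e' (K.1 j1 i1))
    (hN : s.N (e - 2 * τ) (mn K.1 j0 j1 i0 i1)) :
    s.Fr (20 * (|n| + |e| + |e'|) + 20) K (τ, τ) (τ, -τ) (τ, τ) := by
  obtain ⟨c, hc, c1, c2, c3⟩ : ∃ c, c = |n| + |e| + |e'| ∧ n ≤ c ∧ e ≤ c ∧ -c ≤ e' := by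
    have := abs_nonneg n
    have := abs_nonneg e
    have := abs_nonneg e'
    have := le_abs_self n
    have := le_abs_self e
    have := neg_abs_le e'
    exact ⟨_, rfl, by omega, by omega, by omega⟩
  have c0 : 0 ≤ c := by rw [hc]; positivity
  rw [← hc]
  have hx := hl.ne
  set a := -K.1 j1 i0 / K.1 j1 i1 with ha
  set b := K.1 j0 i1 / K.1 j1 i1 with hb
  set q := -(b * K.1 i0 i1 + K.1 i1 i1) / K.1 j1 i1 with hq
  have n0 : s.N (2 * c) a := ((hK _ _).neg.div hl).mono (by omega)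
  have n1 : s.N (2 * c) b := ((hK _ _).div hl).mono (by omega)
  have n2 : s.N (4 * c + 1) q := (((n1.mul (hK _ _)).add (hK _ _)).neg.div hl).mono (by omega)
  have b0 : s.Bd (2 * c) (hL a 0 0) := Bd_hL (by omega) n0 (N_zero _) (N_zero _)
  have b1 : s.Bd (6 * c + 2) (sg 0 0 q * hL b 0 0) :=
    ((Bd_sg (by omega) (N_zero _) (N_zero _) n2).mul
      (Bd_hL (by omega) n1 (N_zero _) (N_zero _))).mono (by omega)
  refine (Fr.right (m := 18 * c + 10) (w := hL a 0 0) ?_ (par2 b0 hτ rfl rfl rfl rfl)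
    (by omega)).mono (by omega)
  refine ⟨(sg 0 0 q * hL b 0 0)⁻¹, b1.inv.mono (by omega),
    (par2 b1 hτ ?_ ?_ ?_ ?_).conj_inv.mono (by omega), ?_⟩
  any_goals simp only [mul_ap]; simp [hL, sg]
  rw [inv_inv]
  have b2 := b1.mul (hK.mul b0)
  set H := sg 0 0 q * hL b 0 0 * (K * hL a 0 0) with hH
  have z1 : H.1 j1 i0 = 0 := by
    simp only [hH, mul_ap]; simp [hL, sg, ha]; field_simp; ring
  have z2 : H.1 j0 i1 = 0 := by
    simp only [hH, mul_ap]; simp [hL, sg, hb]; field_simp; ring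
  have z3 : H.1 i1 i1 = 0 := by
    simp only [hH, mul_ap]; simp [hL, sg, hq]; field_simp; ring
  have z4 : H.1 j1 i1 = K.1 j1 i1 := by simp only [hH, mul_ap]; simp [hL, sg]
  have z5 : H.1 j0 i0 = mn K.1 j0 j1 i0 i1 / K.1 j1 i1 := by
    simp only [hH, mul_ap]; simp [hL, sg, ha, hb, mn]; field_simp; ring
  obtain ⟨k1, -, -, -, -, -⟩ := cols H
  simp only [om, z1, z2, z3, z4] at k1
  have z6 : H.1 i1 i0 = H.1 j0 i0 * H.1 i0 i1 / K.1 j1 i1 := by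
    field_simp; linear_combination k1
  have n5 : s.N (2 * c - 2 * τ) (H.1 j0 i0) := z5 ▸ (hN.div hl).mono (by omega)
  simp only [Bd_conj, forall_I4, wt_i0, wt_i1, wt_j0, wt_j1, z1, z2, z3, N_zero, true_and]
  refine ⟨⟨?_, ?_, ?_, ?_⟩, ⟨z6 ▸ ((n5.mul (b2 _ _)).div hl).mono (by omega), ?_, ?_⟩,
    ⟨n5.mono (by omega), ?_, ?_⟩, ?_, ?_, ?_⟩ <;> exact (b2 _ _).mono (by omega)

theorem flatII (n e : ℤ) : ∃ m : ℤ, ∀ (K : Sp k) (τ : ℤ), 0 ≤ τ → s.Bd n K →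
    ¬ s.Bd n ((s.t (1, 1))⁻¹ * K * s.t (1, 1)) → s.N (e - 2 * τ) (mn K.1 j0 j1 i0 i1) →
    s.Fr m K (τ, τ) (τ, -τ) (τ, τ) := by
  refine ⟨20 * (|n + 2| + |e| + |n - 2|) + 22, fun K τ hτ hK hR hN => ?_⟩
  have hs : s.Bd 0 ((s.t (τ, τ))⁻¹ * s1 * s.t (τ, τ)) := by
    rw [mul_assoc, ← t_s1, inv_mul_cancel_left]; exact Bd_s1
  rcases nb11 hK hR with h | h | h | h
  · have e1 : (s1 * (K * s1)).1 j1 i1 = K.1 j0 i0 := by simp only [mul_ap]; simp [s1]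
    have e2 : mn (s1 * (K * s1)).1 j0 j1 i0 i1 = mn K.1 j0 j1 i0 i1 := by
      simp only [mn, mul_ap]; simp [s1]; ring
    exact (((flatII0 (n := n + 2) hτ ((Bd_s1.mul (hK.mul Bd_s1)).mono (by omega)) (e1 ▸ h)
      (e2 ▸ hN)).left Bd_s1 (t_s1 _ _)).right hs le_rfl).mono (by omega)
  · have e1 : (s1 * K).1 j1 i1 = K.1 j0 i1 := by simp only [mul_ap]; simp [s1]
    have e2 : mn (s1 * K).1 j0 j1 i0 i1 = -mn K.1 j0 j1 i0 i1 := by
      simp only [mn, mul_ap]; simp [s1]; ring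
    exact ((flatII0 (n := n + 2) hτ ((Bd_s1.mul hK).mono (by omega)) (e1 ▸ h)
      (e2 ▸ hN.neg)).left Bd_s1 (t_s1 _ _)).mono (by omega)
  · have e1 : (K * s1).1 j1 i1 = K.1 j1 i0 := by simp only [mul_ap]; simp [s1]
    have e2 : mn (K * s1).1 j0 j1 i0 i1 = -mn K.1 j0 j1 i0 i1 := by
      simp only [mn, mul_ap]; simp [s1]
    exact ((flatII0 (n := n + 2) hτ ((hK.mul Bd_s1).mono (by omega)) (e1 ▸ h)
      (e2 ▸ hN.neg)).right hs le_rfl).mono (by omega)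
  · exact (flatII0 (n := n + 2) hτ (hK.mono (by omega)) h hN).mono (by omega)

theorem oppI {n e σ : ℤ} {K : Sp k} (hσ : 0 ≤ σ) (hK : s.Bd n K) (hl : s.L e (K.1 j0 i0)) :
    s.Fr (3 * (|n| + |e|) + 1) K (σ, 0) (-σ, 0) (σ, 0) := by
  have := abs_nonneg n
  have := abs_nonneg e
  have := le_abs_self n
  have := neg_abs_le e
  have hx := hl.ne
  have b1 : s.Bd (|n| + |e|)
      (hU (K.1 j1 i0 / K.1 j0 i0) (-K.1 i1 i0 / K.1 j0 i0) (-K.1 i0 i0 / K.1 j0 i0)) :=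
    Bd_hU (by omega) (((hK _ _).div hl).mono (by omega)) (((hK _ _).neg.div hl).mono (by omega))
      (((hK _ _).neg.div hl).mono (by omega))
  refine ⟨_⁻¹, b1.inv.mono (by omega),
    (par1 b1 hσ rfl rfl rfl rfl rfl).conj_inv.mono (by omega), ?_⟩
  rw [inv_inv]
  have b2 := b1.mul hK
  set H := hU (K.1 j1 i0 / K.1 j0 i0) (-K.1 i1 i0 / K.1 j0 i0) (-K.1 i0 i0 / K.1 j0 i0) * K with hH
  have z1 : H.1 i0 i0 = 0 := by simp only [hH, mul_ap]; simp [hU]; field_simp; ring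
  have z2 : H.1 i1 i0 = 0 := by simp only [hH, mul_ap]; simp [hU]; field_simp; ring
  have z3 : H.1 j1 i0 = 0 := by simp only [hH, mul_ap]; simp [hU]; field_simp; ring
  have z4 : H.1 j0 i0 = K.1 j0 i0 := by simp only [hH, mul_ap]; simp [hU]
  obtain ⟨k1, -, -, k4, -, -⟩ := cols H
  simp only [om, z1, z2, z3, z4, zero_mul, zero_sub, add_zero, sub_zero, neg_eq_zero, mul_eq_zero,
    hx, false_or] at k1 k4
  simp only [Bd_conj, forall_I4, wt_i0, wt_i1, wt_j0, wt_j1, z1, z2, z3, k1, k4, N_zero, true_and,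
    and_true]
  refine ⟨?_, ⟨?_, ?_, ?_⟩, ⟨?_, ?_, ?_, ?_⟩, ?_, ?_, ?_⟩ <;> exact (b2 _ _).mono (by omega)

theorem oppII {n e σ : ℤ} {K : Sp k} (hσ : 0 ≤ σ) (hK : s.Bd n K)
    (hl : s.L e (mn K.1 j0 j1 i0 i1)) :
    s.Fr (3 * (|n| + |e|) + 2) K (σ, σ) (-σ, -σ) (σ, σ) := by
  have := abs_nonneg n
  have := abs_nonneg e
  have := le_abs_self n
  have := neg_abs_le e
  have hx := hl.ne
  have hm : ∀ r a b c, s.N (2 * |n| + |e| + 1)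
      ((K.1 r a * K.1 b c - K.1 r c * K.1 b a) / mn K.1 j0 j1 i0 i1) := fun r a b c =>
    ((((hK _ _).mul (hK _ _)).sub ((hK _ _).mul (hK _ _))).div hl).mono (by omega)
  have b1 := Bd_sg (by omega) (hm i0 i1 j1 i0) (hm i0 i0 j0 i1) (hm i1 i0 j0 i1)
  refine ⟨_⁻¹, b1.inv.mono (by omega),
    (par2 b1 hσ rfl rfl rfl rfl).conj_inv.mono (by omega), ?_⟩
  rw [inv_inv]
  have b2 := b1.mul hK
  have k1 := (cols K).1
  simp only [om] at k1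
  set H := sg ((K.1 i0 i1 * K.1 j1 i0 - K.1 i0 i0 * K.1 j1 i1) / mn K.1 j0 j1 i0 i1)
    ((K.1 i0 i0 * K.1 j0 i1 - K.1 i0 i1 * K.1 j0 i0) / mn K.1 j0 j1 i0 i1)
    ((K.1 i1 i0 * K.1 j0 i1 - K.1 i1 i1 * K.1 j0 i0) / mn K.1 j0 j1 i0 i1) * K with hH
  have z1 : H.1 i0 i0 = 0 := by
    simp only [hH, mul_ap]; simp [sg]; field_simp; simp only [mn]; ring
  have z2 : H.1 i0 i1 = 0 := by
    simp only [hH, mul_ap]; simp [sg]; field_simp; simp only [mn]; ring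
  have z3 : H.1 i1 i0 = 0 := by
    simp only [hH, mul_ap]; simp [sg]; field_simp; simp only [mn]
    linear_combination K.1 j0 i0 * k1
  have z4 : H.1 i1 i1 = 0 := by
    simp only [hH, mul_ap]; simp [sg]; field_simp; simp only [mn]
    linear_combination K.1 j0 i1 * k1
  simp only [Bd_conj, forall_I4, wt_i0, wt_i1, wt_j0, wt_j1, z1, z2, z3, z4, N_zero, true_and]
  refine ⟨⟨?_, ?_⟩, ⟨?_, ?_⟩, ⟨?_, ?_, ?_, ?_⟩, ?_, ?_, ?_, ?_⟩ <;> exact (b2 _ _).mono (by omega)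

end Sc

end Pool.Agent.Work.MP_dbf1ea_an
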