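import Pool.Agent.Work.MP_dbf1ea_an.Lat
import Pool.Agent.Work.MP_dbf1ea_an.Alt2

/-!
The altitude theorem for flat right isosceles triangles in a lattice.
-/

set_option autoImplicit false

namespace Pool.Agent.Work.MP_dbf1ea_an

universe u

variable {k : Type u} [NormedField k]

namespace Sc

variable (s : Sc k)

/-- The segment from `1` to `u` has type `v`. -/
def Sd (n : ℤ) (v : ℤ × ℤ) (u : Sp k) : Prop := ∃ g, s.At n g 0 1 ∧ s.At n g v u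

/-- A flat triangle with vertices at `0`, `A`, `B`. -/
def Fl (n : ℤ) (A B : ℤ × ℤ) (a b : Sp k) : Prop :=
  ∃ g, s.At n g 0 1 ∧ s.At n g A a ∧ s.At n g B b

/-- A segment of axis type. -/
def Ax (n : ℤ) (M : ℕ) (u : Sp k) : Prop :=
  ∃ σ : ℤ, 0 ≤ σ ∧ σ ≤ M ∧ s.Sd n (σ, 0) u ∧ s.Sd n (σ, 0) u⁻¹

/-- A segment of diagonal type. -/
def Dg (n : ℤ) (M : ℕ) (u : Sp k) : Prop :=
  ∃ σ : ℤ, 0 ≤ σ ∧ σ ≤ M ∧ s.Sd n (σ, σ) u ∧ s.Sd n (σ, σ) u⁻¹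

variable {s}

theorem Sd.mono {n m : ℤ} {v : ℤ × ℤ} {u : Sp k} (h : s.Sd n v u) (hm : n ≤ m) : s.Sd m v u := by
  obtain ⟨g, h1, h2⟩ := h
  exact ⟨g, h1.mono hm, h2.mono hm⟩

theorem Sd.inv {n : ℤ} {v : ℤ × ℤ} {u : Sp k} (h : s.Sd n v u) : s.Sd (n + 1) v u⁻¹ := by
  obtain ⟨g, h1, h2⟩ := h
  have h3 := h1.left u⁻¹
  have h4 := h2.left u⁻¹
  rw [mul_one] at h3
  rw [inv_mul_cancel] at h4
  refine ⟨u⁻¹ * g * s.t v * sJ, At.weyl (v := 0) ?_ Bd_sJ ?_, At.weyl (v := -v) ?_ Bd_sJ ?_⟩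
  · rwa [At_shift, add_zero]
  · rw [t_sJ, neg_zero]
  · rwa [At_shift, add_neg_cancel]
  · rw [t_sJ, neg_neg]

theorem Sd.ax {n σ : ℤ} {M : ℕ} {u : Sp k} (h : s.Sd n (σ, 0) u) (h0 : 0 ≤ σ) (h1 : σ ≤ M) :
    s.Ax (n + 1) M u := ⟨σ, h0, h1, h.mono (by omega), h.inv⟩

theorem Sd.dg {n σ : ℤ} {M : ℕ} {u : Sp k} (h : s.Sd n (σ, σ) u) (h0 : 0 ≤ σ) (h1 : σ ≤ M) :
    s.Dg (n + 1) M u := ⟨σ, h0, h1, h.mono (by omega), h.inv⟩

theorem Ax.inv {n : ℤ} {M : ℕ} {u : Sp k} (h : s.Ax n M u) : s.Ax n M u⁻¹ := by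
  obtain ⟨σ, h0, h1, h2, h3⟩ := h
  exact ⟨σ, h0, h1, h3, by rwa [inv_inv]⟩

theorem Dg.inv {n : ℤ} {M : ℕ} {u : Sp k} (h : s.Dg n M u) : s.Dg n M u⁻¹ := by
  obtain ⟨σ, h0, h1, h2, h3⟩ := h
  exact ⟨σ, h0, h1, h3, by rwa [inv_inv]⟩

theorem Ax.mono {n : ℤ} {M M' : ℕ} {u : Sp k} (h : s.Ax n M u) (hM : M ≤ M') : s.Ax n M' u := by
  obtain ⟨σ, h0, h1, h2⟩ := h
  exact ⟨σ, h0, by omega, h2⟩

theorem Dg.mono {n : ℤ} {M M' : ℕ} {u : Sp k} (h : s.Dg n M u) (hM : M ≤ M') : s.Dg n M' u := by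
  obtain ⟨σ, h0, h1, h2⟩ := h
  exact ⟨σ, h0, by omega, h2⟩

theorem At.Bd {n c : ℤ} {g u : Sp k} {v : ℤ × ℤ} (h0 : s.At n g 0 1) (h : s.At n g v u)
    (h1 : |v.1| ≤ c) (h2 : |v.2| ≤ c) : s.Bd (2 * n + c + 2) u := by
  have := (h0.inv.mul (Bd_t h1 h2)).mul h
  have e : ((g * s.t 0)⁻¹ * 1)⁻¹ * s.t v * ((g * s.t v)⁻¹ * u) = u := by rw [t_zero]; group
  rw [e] at this
  exact this.mono (by omega)

theorem Sd.of_weyl {n : ℤ} {g u w : Sp k} {p q d d' : ℤ × ℤ} (h1 : s.At n g p 1) (h2 : s.At n g q u)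
    (hq : q = p + d) (hw : s.Bd 0 w) (hc : s.t d * w = w * s.t d') : s.Sd (n + 1) d' u := by
  refine ⟨g * s.t p * w, At.weyl (v := 0) ?_ hw ?_, At.weyl (v := d) ?_ hw hc⟩
  · rwa [At_shift, add_zero]
  · rw [t_zero, one_mul, mul_one]
  · rwa [At_shift, ← hq]

end Sc

namespace Lat

variable {s : Sc k} {Γ : Subgroup (Sp k)} (Λ : Lat s Γ)

open Sc

theorem altH_gen {n mm : ℤ} (hn : 0 ≤ n) {m : ℕ} {A Bv : ℤ × ℤ} {al pa d : ℕ → ℤ × ℤ}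
    {C N : Γ → Γ → Prop} {G : Γ → Γ → Sp k} {alt ta tb : Γ → Γ → ℕ → Γ}
    (hG : ∀ a b, C a b → s.At n (G a b) 0 1 ∧ s.At n (G a b) A a.1 ∧ s.At n (G a b) Bv b.1 ∧
      ∀ j, s.At n (G a b) (al j) (alt a b j).1 ∧ s.At n (G a b) (pa j) (ta a b j).1 ∧
        s.At n (G a b) (al j + d j) (tb a b j).1)
    (al0 : al 0 = 0) (b1 : ∀ i j, i ≤ j → j ≤ m → Btw 0 (al j) (al j) (al i))
    (b2 : ∀ j, j ≤ m → Btw 0 Bv (al j) (al j + d j))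
    (b3 : ∀ j, j ≤ m → Btw A Bv Bv (pa j) ∧ Btw A Bv Bv (al j + d j))
    (b4 : ∀ j, j ≤ m → Btw 0 A (al j) (pa j))
    (br : ∀ (κ : Sp k) j, j ≤ m → s.Bd (2 * n + 1) κ → s.Bd (2 * n + 1) ((s.t A)⁻¹ * κ * s.t A) →
      s.Bd (6 * n + 5) ((s.t (al j))⁻¹ * κ * s.t (al j)) →
      (j < m → ¬ s.Bd (2 * n + 1) ((s.t (al (j + 1)))⁻¹ * κ * s.t (al (j + 1)))) →
      s.Fr mm ((s.t (al j))⁻¹ * κ * s.t (al j)) (d j) (-d j) (d j))
    (hN : ∀ j, j ≤ m → ∀ u u' : Γ,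
      (∃ g, s.At (9 * n + 8) g (pa j) 1 ∧ s.At (9 * n + 8) g (al j + d j) u.1) →
      (∃ g, s.At (9 * n + 8) g (pa j) 1 ∧ s.At (9 * n + 8) g (al j + d j) u'.1) → N u u') :
    AltH C N m (Λ.ball (4 * n + 3)) (Λ.ball (13 * n + 4 * |mm| + 15)) alt ta tb := by
  have hmm := abs_nonneg mm
  have hm2 := le_abs_self mm
  have k0 : ∀ a b c, C a b → C a c → s.Bd (2 * n + 1) ((G a b)⁻¹ * G a c) := fun a b c h h' => by
    have := (hG a b h).1.agree' (hG a c h').1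
    rwa [t_zero, inv_one, one_mul, mul_one] at this
  have k1 : ∀ a b c j, C a b → C a c → (alt a b j)⁻¹ * alt a c j ∈ Λ.ball (4 * n + 3) →
      s.Bd (6 * n + 5) ((s.t (al j))⁻¹ * ((G a b)⁻¹ * G a c) * s.t (al j)) :=
    fun a b c j h h' hb => (((hG a b h).2.2.2 j).1.agree ((hG a c h').2.2.2 j).1
      ((Λ.mem_ball _ _).mp hb)).mono (by omega)
  have k2 : ∀ a b c j, C a b → C a c → j ≤ m → (alt a b j)⁻¹ * alt a c j ∈ Λ.ball (4 * n + 3) →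
      (j < m → (alt a b (j + 1))⁻¹ * alt a c (j + 1) ∉ Λ.ball (4 * n + 3)) →
      ∃ g, s.At (n + |mm| + 1) g (d j) 1 ∧
        s.At (n + |mm| + 1) g (-d j) ((tb a b j)⁻¹ * tb a c j).1 ∧
        s.At (n + |mm| + 1) g 0 ((tb a b j)⁻¹ * alt a b j).1 := by
    intro a b c j h h' hj hb hb'
    obtain ⟨f, f1, f2, f3⟩ := (br _ j hj (k0 a b c h h') ((hG a b h).2.1.agree' (hG a c h').2.1)
      (k1 a b c j h h' hb) fun hj' hc => hb' hj' ((Λ.mem_ball _ _).mpr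
        ((((hG a b h).2.2.2 (j + 1)).1.close ((hG a c h').2.2.2 (j + 1)).1 hc).mono
          (by omega)))).mono hm2
    obtain ⟨p1, -, p3⟩ := (hG a b h).2.2.2 j
    obtain ⟨-, -, q3⟩ := (hG a c h').2.2.2 j
    rw [← add_zero (al j), ← At_shift] at p1
    rw [← At_shift] at p3 q3
    refine ⟨(tb a b j).1⁻¹ * (G a b * s.t (al j) * f), ?_, ?_, ?_⟩
    · have := (p3.chart f2.conj_inv).left (tb a b j).1⁻¹
      rwa [inv_mul_cancel] at this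
    · have := (q3.chart (w := (f⁻¹ * ((s.t (al j))⁻¹ * ((G a b)⁻¹ * G a c) * s.t (al j)))⁻¹)
        (u := -d j) (by rwa [inv_inv])).left (tb a b j).1⁻¹
      rwa [show G a c * s.t (al j) *
        (f⁻¹ * ((s.t (al j))⁻¹ * ((G a b)⁻¹ * G a c) * s.t (al j)))⁻¹ =
        G a b * s.t (al j) * f by group] at this
    · exact (p1.chart (u := 0) (by rw [t_zero, inv_one, one_mul, mul_one]; exact f1.inv)).left _
  refine ⟨fun a b a' b' h h' => ?_, fun a b a' b' i j h h' hi hj e => ?_,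
    fun a b a' j h h' hj e => ?_, fun a b a' b' j h h' hj e => ?_,
    fun a b c j h h' hj hb hb' => ?_,
    fun a b c a' b' c' j h1 h2 hj h3 h4 h5 h6 h7 h8 e => ?_⟩
  · rw [Λ.mem_ball]
    have p1 := ((hG a b h).2.2.2 0).1
    have p2 := ((hG a' b' h').2.2.2 0).1
    rw [al0] at p1 p2
    exact (p1.close p2 ((hG a b h).1.agree' (hG a' b' h').1)).mono (by omega)
  · rw [Λ.mem_ball]
    have p1 := ((hG a b h).2.2.2 j).1
    have p2 := ((hG a' b' h').2.2.2 j).1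
    rw [← e] at p2
    exact (det3 (b1 i j hi hj) (hG a b h).1 p1 p1 ((hG a b h).2.2.2 i).1 (hG a' b' h').1 p2 p2
      ((hG a' b' h').2.2.2 i).1).mono (by omega)
  · rw [Λ.mem_ball]
    have p1 := ((hG a b h).2.2.2 j).1
    have p2 := ((hG a' b h').2.2.2 j).1
    rw [← e] at p2
    exact (det3 (b2 j hj) (hG a b h).1 (hG a b h).2.2.1 p1 ((hG a b h).2.2.2 j).2.2 (hG a' b h').1
      (hG a' b h').2.2.1 p2 ((hG a' b h').2.2.2 j).2.2).mono (by omega)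
  · rw [Λ.mem_ball, Λ.mem_ball]
    have p0 := (hG a b h).2.1.left a.1⁻¹
    have q0 := (hG a' b' h').2.1.left a'.1⁻¹
    rw [inv_mul_cancel] at p0 q0
    have p1 : s.At n (a.1⁻¹ * G a b) Bv (a⁻¹ * b).1 := (hG a b h).2.2.1.left a.1⁻¹
    have q1 : s.At n (a'.1⁻¹ * G a' b') Bv (a'⁻¹ * b').1 := (hG a' b' h').2.2.1.left a'.1⁻¹
    rw [← e] at q1
    exact ⟨(det3 (b3 j hj).1 p0 p1 p1 (((hG a b h).2.2.2 j).2.1.left _) q0 q1 q1
        (((hG a' b' h').2.2.2 j).2.1.left _)).mono (by omega),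
      (det3 (b3 j hj).2 p0 p1 p1 (((hG a b h).2.2.2 j).2.2.left _) q0 q1 q1
        (((hG a' b' h').2.2.2 j).2.2.left _)).mono (by omega)⟩
  · have c1 := conv (b4 j hj) (((hG a b h).1.agree' (hG a c h').1).mono (by omega))
      (((hG a b h).2.1.agree' (hG a c h').2.1).mono (by omega)) (k1 a b c j h h' hb)
    have c2 := ((hG a b h).2.2.2 j).2.1.close ((hG a c h').2.2.2 j).2.1 c1
    refine ⟨hN j hj _ _ ⟨(ta a b j).1⁻¹ * G a b, ?_, ?_⟩ ⟨(ta a b j).1⁻¹ * G a c, ?_, ?_⟩,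
      (Λ.mem_ball _ _).mpr (c2.mono (by omega))⟩
    · have := ((hG a b h).2.2.2 j).2.1.left (ta a b j).1⁻¹
      rw [inv_mul_cancel] at this
      exact this.mono (by omega)
    · exact (((hG a b h).2.2.2 j).2.2.left _).mono (by omega)
    · have c3 := c2.inv
      rw [mul_inv_rev, inv_inv] at c3
      have := (((hG a c h').2.2.2 j).2.1.near c3).left (ta a b j).1⁻¹
      rw [inv_mul_cancel] at this
      exact this.mono (by omega)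
    · exact (((hG a c h').2.2.2 j).2.2.left _).mono (by omega)
  · obtain ⟨g, p1, p2, p3⟩ := k2 a b c j h1 h2 hj h3 h4
    obtain ⟨g', q1, q2, q3⟩ := k2 a' b' c' j h5 h6 hj h7 h8
    rw [← e] at q2
    exact (Λ.mem_ball _ _).mpr ((det3 (btw_mid (d j)) p1 p2 p2 p3 q1 q2 q2 q3).mono (by omega))

end Lat

theorem const_le_log (K : ℝ) : ∃ c : ℝ, 0 ≤ c ∧ ∀ n : ℕ, K ≤ c * Real.log (n + 2) := by
  have h2 : 0 < Real.log 2 := Real.log_pos one_lt_two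
  refine ⟨|K| / Real.log 2, by positivity, fun n => ?_⟩
  have h1 : Real.log 2 ≤ Real.log (n + 2) :=
    Real.log_le_log two_pos (by have := Nat.cast_nonneg (α := ℝ) n; linarith)
  calc K ≤ |K| / Real.log 2 * Real.log 2 := by rw [div_mul_cancel₀ _ h2.ne']; exact le_abs_self K
    _ ≤ _ := mul_le_mul_of_nonneg_left h1 (by positivity)

theorem alt_const (c1 K : ℝ) (hc1 : 0 ≤ c1) (c2 : ℕ) : ∃ c : ℝ, 0 ≤ c ∧ ∀ (σ m : ℕ) (L : ℝ),
    m ≤ σ → 0 ≤ L → L ≤ c1 * ((σ + c2 : ℕ) + 1) →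
    14 + 5 * Real.log (m + 1) + Real.log (L + 1) + K ≤ c * Real.log (σ + 2) := by
  obtain ⟨c, hc, h⟩ := const_le_log (14 + K + Real.log (c1 * (c2 + 1) + 1))
  refine ⟨c + 6, by positivity, fun σ m L h1 h2 h3 => ?_⟩
  have hσ := Nat.cast_nonneg (α := ℝ) σ
  have hc2 := Nat.cast_nonneg (α := ℝ) c2
  have e1 : Real.log (m + 1) ≤ Real.log (σ + 2) := Real.log_le_log (by positivity) (by
    have : (m : ℝ) ≤ σ := by exact_mod_cast h1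
    linarith)
  have e2 : Real.log (L + 1) ≤ Real.log (c1 * (c2 + 1) + 1) + Real.log (σ + 2) := by
    rw [← Real.log_mul (by positivity) (by positivity)]
    refine Real.log_le_log (by positivity) ?_
    push_cast at h3
    have : 0 ≤ c1 * c2 * σ := by positivity
    have : 0 ≤ c1 * c2 := by positivity
    nlinarith
  have := h σ
  linarith

namespace Lat

variable {s : Sc k} {Γ : Subgroup (Sp k)} (Λ : Lat s Γ)

open Sc

theorem db_flat {mm : ℤ} {w : Sp k} (hw : s.Bd 0 w) : ∃ c : ℝ, 0 ≤ c ∧ ∀ (σ m : ℕ)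
    (A Bv : ℤ × ℤ) (al pa d : ℕ → ℤ × ℤ) (N : Γ → Γ → Prop) (x : ℝ), m ≤ σ →
    |A.1| ≤ σ → |A.2| ≤ σ → |Bv.1| ≤ σ → |Bv.2| ≤ σ →
    s.t A * w = w * s.t Bv → s.t Bv * w = w * s.t A → (∀ j, s.t (al j) * w = w * s.t (al j)) →
    (∀ j, s.t (pa j) * w = w * s.t (al j + d j)) → (∀ j, s.t (al j + d j) * w = w * s.t (pa j)) →
    (∀ {C : Γ → Γ → Prop} {G : Γ → Γ → Sp k} {alt ta tb : Γ → Γ → ℕ → Γ},
      (∀ a b, C a b → s.At (Λ.R + 1) (G a b) 0 1 ∧ s.At (Λ.R + 1) (G a b) A a.1 ∧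
        s.At (Λ.R + 1) (G a b) Bv b.1 ∧ ∀ j, s.At (Λ.R + 1) (G a b) (al j) (alt a b j).1 ∧
        s.At (Λ.R + 1) (G a b) (pa j) (ta a b j).1 ∧
        s.At (Λ.R + 1) (G a b) (al j + d j) (tb a b j).1) →
      AltH C N m (Λ.ball (4 * (Λ.R + 1) + 3)) (Λ.ball (13 * (Λ.R + 1) + 4 * |mm| + 15))
        alt ta tb) →
    0 ≤ x → DB N x → DB (fun a b : Γ => s.Fl Λ.R A Bv a.1 b.1) (x / 2 + c * Real.log (σ + 2)) := by
  classical
  obtain ⟨c1, hc1, h1⟩ := Λ.log_card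
  obtain ⟨c, hc, h⟩ := alt_const c1 (2 * Real.log (Λ.ball (4 * (Λ.R + 1) + 3)).card +
    5 * Real.log (Λ.ball (13 * (Λ.R + 1) + 4 * |mm| + 15)).card) hc1 (2 * Λ.R + 2).toNat
  refine ⟨c, hc, fun σ m A Bv al pa d N x hm a1 a2 a3 a4 w1 w2 w3 w4 w5 H hx hN => ?_⟩
  have hR := Λ.R0
  let G : Γ → Γ → Sp k := fun a b => if h : s.Fl Λ.R A Bv a.1 b.1 then h.choose else 1
  have hG : ∀ a b : Γ, s.Fl Λ.R A Bv a.1 b.1 → s.At Λ.R (G a b) 0 1 ∧ s.At Λ.R (G a b) A a.1 ∧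
      s.At Λ.R (G a b) Bv b.1 := fun a b h => by
    simp only [G, dif_pos h]
    exact h.choose_spec
  have H1 := H (C := fun a b : Γ => s.Fl Λ.R A Bv a.1 b.1) (G := G)
    (alt := fun a b j => Λ.rnd (G a b * s.t (al j))) (ta := fun a b j => Λ.rnd (G a b * s.t (pa j)))
    (tb := fun a b j => Λ.rnd (G a b * s.t (al j + d j))) fun a b h =>
      ⟨(hG a b h).1.mono (by omega), (hG a b h).2.1.mono (by omega),
        (hG a b h).2.2.mono (by omega), fun j => ⟨(Λ.at_rnd _ _).mono (by omega),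
          (Λ.at_rnd _ _).mono (by omega), (Λ.at_rnd _ _).mono (by omega)⟩⟩
  have H2 := H (C := fun b a : Γ => s.Fl Λ.R A Bv a.1 b.1) (G := fun b a => G a b * w)
    (alt := fun b a j => Λ.rnd (G a b * s.t (al j)))
    (ta := fun b a j => Λ.rnd (G a b * s.t (al j + d j)))
    (tb := fun b a j => Λ.rnd (G a b * s.t (pa j))) fun b a h =>
      ⟨(hG a b h).1.weyl hw (by rw [t_zero, one_mul, mul_one]), (hG a b h).2.2.weyl hw w2,
        (hG a b h).2.1.weyl hw w1, fun j => ⟨(Λ.at_rnd _ _).weyl hw (w3 j),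
          (Λ.at_rnd _ _).weyl hw (w5 j), (Λ.at_rnd _ _).weyl hw (w4 j)⟩⟩
  refine (H1.main H2 hN hx (Λ.ball (σ + (2 * Λ.R + 2).toNat : ℕ)) fun a b h => ?_).mono
    (fun _ _ h => h) ?_
  · rw [Λ.mem_ball, Λ.mem_ball]
    exact ⟨((hG a b h).1.Bd (hG a b h).2.1 a1 a2).mono (by omega),
      ((hG a b h).1.Bd (hG a b h).2.2 a3 a4).mono (by omega)⟩
  · have := h σ m _ hm (Real.log_natCast_nonneg _) (h1 (σ + (2 * Λ.R + 2).toNat))
    linarith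

theorem dbI : ∃ c : ℝ, 0 ≤ c ∧ ∀ (σ : ℕ) (x : ℝ), 0 ≤ x →
    DB (fun a b : Γ => s.Dg (9 * Λ.R + 19) σ a.1 ∧ s.Dg (9 * Λ.R + 19) σ b.1) x →
    DB (fun a b : Γ => s.Fl Λ.R (0, σ) (σ, 0) a.1 b.1) (x / 2 + c * Real.log (σ + 2)) := by
  obtain ⟨mm, hb⟩ := brI (s := s) (2 * (Λ.R + 1) + 1) (6 * (Λ.R + 1) + 5)
  obtain ⟨c, hc, h⟩ := Λ.db_flat (mm := mm) Bd_s1
  have hR := Λ.R0
  refine ⟨c, hc, fun σ x hx hN => h σ (σ / 2) (0, σ) (σ, 0) (fun j => (j, j))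
    (fun j => (j, σ - j)) (fun j => (σ - 2 * j, 0)) _ x (by omega) (by simp) (by simp) (by simp)
    (by simp) (t_s1 _ _) (t_s1 _ _) (fun j => t_s1 _ _) (fun j => ?_) (fun j => ?_)
    (fun hG => Λ.altH_gen (by omega) hG rfl (fun i j h1 h2 => ?_) (fun j h1 => ?_)
      (fun j h1 => ⟨?_, ?_⟩) (fun j h1 => ?_) (fun κ j h1 h2 h3 h4 h5 => ?_)
      fun j h1 u u' hu hu' => ?_) hx hN⟩
  · rw [t_s1, Prod.mk_add_mk]; congr 3 <;> omega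
  · rw [Prod.mk_add_mk, t_s1]; congr 3 <;> omega
  any_goals
    simp only [Btw, Prod.mk_add_mk, Prod.fst_zero, Prod.snd_zero]
    omega
  · exact hb κ σ j (by omega) (by omega) h2 h3 h4 fun h6 => by
      simpa using h5 (by omega)
  · have key : ∀ u : Γ, (∃ g, s.At (9 * (Λ.R + 1) + 8) g (j, σ - j) 1 ∧
        s.At (9 * (Λ.R + 1) + 8) g (((j : ℤ), (j : ℤ)) + ((σ : ℤ) - 2 * j, 0)) u.1) →
        s.Dg (9 * Λ.R + 19) σ u.1 := by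
      rintro u ⟨g, g1, g2⟩
      have := (Sd.of_weyl (d := (σ - 2 * j, -(σ - 2 * j))) (d' := (σ - 2 * j, σ - 2 * j)) g1 g2
        (by simp only [Prod.mk_add_mk, Prod.mk.injEq, true_and]; omega) Bd_s2
        (by rw [t_s2, neg_neg])).dg (M := σ) (by omega) (by omega)
      rwa [show 9 * (Λ.R + 1) + 8 + 1 + 1 = 9 * Λ.R + 19 by ring] at this
    exact ⟨key u hu, key u' hu'⟩

theorem dbII [ProperSpace k] : ∃ c : ℝ, 0 ≤ c ∧ ∀ (σ : ℕ) (x : ℝ), 0 ≤ x →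
    DB (fun a b : Γ => s.Ax (9 * Λ.R + 19) (2 * σ) a.1 ∧ s.Ax (9 * Λ.R + 19) (2 * σ) b.1) x →
    DB (fun a b : Γ => s.Fl Λ.R (σ, -σ) (σ, σ) a.1 b.1) (x / 2 + c * Real.log (σ + 2)) := by
  obtain ⟨mm, hb⟩ := brII (s := s) (2 * (Λ.R + 1) + 1) (6 * (Λ.R + 1) + 5)
  obtain ⟨c, hc, h⟩ := Λ.db_flat (mm := mm) Bd_s2
  have hR := Λ.R0
  refine ⟨c, hc, fun σ x hx hN => h σ σ (σ, -σ) (σ, σ) (fun j => (j, 0))
    (fun j => (σ, j - σ)) (fun j => (σ - j, σ - j)) _ x le_rfl (by simp) (by simp) (by simp)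
    (by simp) (by rw [t_s2, neg_neg]) (t_s2 _ _) (fun j => by rw [t_s2, neg_zero])
    (fun j => ?_) (fun j => ?_)
    (fun hG => Λ.altH_gen (by omega) hG rfl (fun i j h1 h2 => ?_) (fun j h1 => ?_)
      (fun j h1 => ⟨?_, ?_⟩) (fun j h1 => ?_) (fun κ j h1 h2 h3 h4 h5 => ?_)
      fun j h1 u u' hu hu' => ?_) hx hN⟩
  · rw [t_s2, Prod.mk_add_mk]; congr 3 <;> omega
  · rw [Prod.mk_add_mk, t_s2]; congr 3 <;> omega
  any_goals
    simp only [Btw, Prod.mk_add_mk, Prod.fst_zero, Prod.snd_zero]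
    omega
  · exact hb κ σ j (by omega) (by omega) h2 h3 h4 fun h6 => by
      simpa using h5 (by omega)
  · have key : ∀ u : Γ, (∃ g, s.At (9 * (Λ.R + 1) + 8) g (σ, j - σ) 1 ∧
        s.At (9 * (Λ.R + 1) + 8) g (((j : ℤ), (0 : ℤ)) + ((σ : ℤ) - j, (σ : ℤ) - j)) u.1) →
        s.Ax (9 * Λ.R + 19) (2 * σ) u.1 := by
      rintro u ⟨g, g1, g2⟩
      have := (Sd.of_weyl (d := (0, 2 * (σ - j))) (d' := (2 * (σ - j), 0)) g1 g2
        (by simp only [Prod.mk_add_mk, Prod.mk.injEq]; omega) Bd_s1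
        (t_s1 _ _)).ax (M := 2 * σ) (by omega) (by omega)
      rwa [show 9 * (Λ.R + 1) + 8 + 1 + 1 = 9 * Λ.R + 19 by ring] at this
    exact ⟨key u hu, key u' hu'⟩

end Lat

end Pool.Agent.Work.MP_dbf1ea_an
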