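import Pool.Agent.Work.MP_dbf1ea_an.Geo1

/-!
Reduction of lattice triangles to their cores.
-/

set_option autoImplicit false

namespace Pool.Agent.Work.MP_dbf1ea_an

universe u

variable {k : Type u} [NormedField k]

namespace Sc

variable (s : Sc k)

/-- The point `w` lies in the convex hull of `1` and `u` at prescribed coordinates. -/
def Ch (n : ℤ) (v0 v1 v : ℤ × ℤ) (u w : Sp k) : Prop :=
  Btw v0 v1 v1 v ∧ ∃ g, s.At n g v0 1 ∧ s.At n g v1 u ∧ s.At n g v w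

/-- The inner triangle `x, y, z` has its vertices in the hulls of the sides of `1, a, b`. -/
def Six (n : ℤ) (θ : Fin 6 → ℤ × ℤ) (a b x y z : Sp k) : Prop :=
  s.Ch n 0 (θ 0) (θ 3) a x ∧ s.Ch n 0 (θ 0) (θ 0 - θ 4) a y ∧
  s.Ch n (θ 2) 0 (θ 2 - θ 3) b x ∧ s.Ch n (θ 2) 0 (θ 5) b z ∧
  s.Ch n 0 (θ 1) (θ 4) (a⁻¹ * b) (a⁻¹ * y) ∧ s.Ch n 0 (θ 1) (θ 1 - θ 5) (a⁻¹ * b) (a⁻¹ * z)

variable {s}

theorem At_of_K {n : ℤ} {g g' : Sp k} {a : ℤ × ℤ} (h : s.Bd n (s.K g g' a)) :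
    s.At (n + 1) g' a g := by
  have := Bd_sJ.mul h.inv
  have e : sJ * (s.K g g' a)⁻¹ = (g' * s.t a)⁻¹ * g := by rw [K]; group
  rw [e, zero_add] at this
  exact this

theorem K_of_At {n : ℤ} {g g' x : Sp k} {a : ℤ × ℤ} (h : s.At n g 0 x) (h' : s.At n g' a x) :
    s.Bd (2 * n + 2) (s.K g g' a) := by
  have := (Bd.mul h (Bd.inv h')).mul Bd_sJ
  have e : (g * s.t 0)⁻¹ * x * ((g' * s.t a)⁻¹ * x)⁻¹ * sJ = s.K g g' a := by
    rw [K, t_zero]; group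
  rw [e] at this
  exact this.mono (by omega)

theorem At.same {n : ℤ} {g x x' : Sp k} {v : ℤ × ℤ} (h : s.At n g v x) (h' : s.At n g v x') :
    s.Bd (2 * n + 2) (x⁻¹ * x') :=
  (h.close h' (m := 0) (by rw [inv_mul_cancel, mul_one, inv_mul_cancel]; exact Bd_one)).mono
    (by omega)

theorem core {n : ℤ} (hn : 0 ≤ n) {M : ℕ} {g1 g2 g3 a b : Sp k} {l1 l2 l3 : ℤ × ℤ} (d1 : Dom l1)
    (d2 : Dom l2) (d3 : Dom l3) (m1 : l1.1 ≤ M) (m2 : l2.1 ≤ M) (m3 : l3.1 ≤ M)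
    (p1 : s.At n g1 0 1) (q1 : s.At n g1 l1 a) (p2 : s.At n g2 0 a)
    (q2 : s.At n g2 l2 b) (p3 : s.At n g3 0 b) (q3 : s.At n g3 l3 1) :
    ∃ (θ : Fin 6 → ℤ × ℤ) (h1 h2 h3 : Sp k) (a1 a2 a3 : ℤ × ℤ),
      (∀ i, θ i ∈ Finset.Icc (0 : ℤ) M ×ˢ Finset.Icc (0 : ℤ) M) ∧
      s.Good (2 * n + 2) h1 h2 h3 a1 a2 a3 ∧ Dom (l1 - a1) ∧ Dom (l2 - a2) ∧ Dom (l3 - a3) ∧
      ∀ (e : ℤ) (x y z : Sp k), 0 ≤ e → s.Bd e (h1⁻¹ * x) → s.Bd e (h2⁻¹ * y) → s.Bd e (h3⁻¹ * z) →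
        s.Six (2 * n + e + 4) θ a b x y z := by
  obtain ⟨v1, v2, v3, e1, e2, e3, hg⟩ := reduce (s := s) (n := 2 * n + 2) (g1 := g1) (g2 := g2)
    (g3 := g3) ⟨d1, d2, d3, K_of_At p1 q3, K_of_At p2 q1, K_of_At p3 q2⟩
  obtain ⟨⟨f1, f2, f3, k1, k2, k3⟩, -⟩ := id hg
  have r1 := At_of_K k1
  have r2 := At_of_K k2
  have r3 := At_of_K k3
  rw [At_shift] at r1 r2 r3
  rw [show v3 + (l3 - v3 - v1) = l3 - v1 by abel] at r1
  rw [show v1 + (l1 - v1 - v2) = l1 - v2 by abel] at r2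
  rw [show v2 + (l2 - v2 - v3) = l2 - v3 by abel] at r3
  have dd : ∀ {l u v : ℤ × ℤ}, Dom u → Dom v → Dom (l - u - v) →
      Dom (l - u) ∧ Dom (l - v) ∧ Dom (l - (l - u - v)) ∧ u.1 ≤ l.1 := fun h1 h2 h3 => by
    simp only [Dom, Prod.fst_sub, Prod.snd_sub] at *
    omega
  obtain ⟨x1, x2, x3, x4⟩ := dd e1 e2 f1
  obtain ⟨y1, y2, y3, y4⟩ := dd e2 e3 f2
  obtain ⟨z1, z2, z3, z4⟩ := dd e3 e1 f3
  refine ⟨![l1, l2, l3, v1, v2, v3], _, _, _, _, _, _, fun i => ?_, hg, x3, y3, z3,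
    fun e x y z he hx hy hz => ?_⟩
  · unfold Dom at *
    fin_cases i <;> simp <;> omega
  · have sx := (At_self g1 v1).near hx
    have sy := (At_self g2 v2).near hy
    have sz := (At_self g3 v3).near hz
    have p2' := p2.left a⁻¹
    rw [inv_mul_cancel] at p2'
    exact ⟨⟨btw_dom e1 x1, g1, p1.mono (by omega), q1.mono (by omega), sx.mono (by omega)⟩,
      ⟨btw_dom x2 (by simpa using e2), g1, p1.mono (by omega), q1.mono (by omega),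
        (r2.near hy).mono (by omega)⟩,
      ⟨(btw_dom z2 (by simpa using e1)).swap, g3, q3.mono (by omega), p3.mono (by omega),
        (r1.near hx).mono (by omega)⟩,
      ⟨(btw_dom e3 z1).swap, g3, q3.mono (by omega), p3.mono (by omega), sz.mono (by omega)⟩,
      ⟨btw_dom e2 y1, _, p2'.mono (by omega), (q2.left _).mono (by omega),
        (sy.left _).mono (by omega)⟩,
      ⟨btw_dom y2 (by simpa using e3), _, p2'.mono (by omega), (q2.left _).mono (by omega),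
        ((r3.near hz).left _).mono (by omega)⟩⟩

theorem kak_chart {n : ℤ} {x y : Sp k} (h : s.Bd n (x⁻¹ * y)) :
    ∃ g l, Dom l ∧ l.1 ≤ n + 82 ∧ s.At 40 g 0 x ∧ s.At 40 g l y := by
  obtain ⟨k1, k2, v, h1, h2, h3, h4, h5⟩ := kak (s := s) (x⁻¹ * y)
  have h7 := (h3.inv.mul h).mul h4.inv
  have e : k1⁻¹ * (x⁻¹ * y) * k2⁻¹ = s.t v := by rw [h5]; group
  rw [e] at h7
  have := le_of_Bd_t h7
  refine ⟨x * k1, v, ⟨h1, h2⟩, by omega, ?_, ?_⟩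
  · rw [At, t_zero, mul_one, mul_inv_rev, inv_mul_cancel_right]; exact h3.inv
  · have e : (x * k1 * s.t v)⁻¹ * y = k2 := by
      rw [show (x * k1 * s.t v)⁻¹ * y = (k1 * s.t v)⁻¹ * (x⁻¹ * y) by group, h5]; group
    rw [At, e]; exact h4

theorem Sd.Bd {n c : ℤ} {u : Sp k} {v : ℤ × ℤ} (h : s.Sd n v u) (h1 : |v.1| ≤ c) (h2 : |v.2| ≤ c) :
    s.Bd (2 * n + c + 2) u := by
  obtain ⟨g, g1, g2⟩ := h
  exact g1.Bd g2 h1 h2

theorem Good.up {n : ℤ} {h1 h2 h3 : Sp k} {a1 a2 a3 : ℤ × ℤ} (hg : s.Good n h1 h2 h3 a1 a2 a3) :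
    s.N (a2.1 + 2 * n + 5 - a1.1 - a3.1) ((s.K h1 h3 a3).1 j0 i0) ∧
    s.N (a2.1 + a2.2 + 4 * n + 9 - (a1.1 + a1.2 + a3.1 + a3.2))
      (mn (s.K h1 h3 a3).1 j0 j1 i0 i1) := by
  obtain ⟨⟨-, d2, -, -, b2, b3⟩, -⟩ := hg
  have k1 := Bd_sJ.mul b2.inv
  have k2 := (Bd_sJ.mul b3.inv).mul Bd_sJ
  have ht : s.Bd a2.1 (s.t a2) := Bd_t (by rw [abs_le]; obtain ⟨a1, a2⟩ := d2; omega)
    (by rw [abs_le]; obtain ⟨a1, a2⟩ := d2; omega)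
  have h3 := (k1.mul ht).mul k2
  have h4 := N_mn d2 k1 k2 j0 j1 i0 i1
  rw [← K_id] at h3 h4
  rw [Bd_conj] at h3
  rw [mn_conj, N_mul_pow] at h4
  have h5 := h3 j0 i0
  simp only [wt_i0, wt_i1, wt_j0, wt_j1] at h4 h5
  exact ⟨h5.mono (by omega), h4.mono (by omega)⟩

end Sc

namespace Lat

variable {s : Sc k} {Γ : Subgroup (Sp k)} (Λ : Lat s Γ)

open Sc

theorem small_ch (n : ℤ) (v0 v1 v : ℤ × ℤ) :
    Small (Λ.ball (4 * n + 3)) fun u w : Γ => s.Ch n v0 v1 v u.1 w.1 := by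
  rintro u w w' ⟨h, g, p0, p1, p⟩ ⟨-, g', q0, q1, q⟩
  exact (Λ.mem_ball _ _).mpr (det3 h p0 p1 p1 p q0 q1 q1 q)

include Λ in
theorem red_gen (n : ℤ) (c0 : ℕ) : ∃ c : ℝ, 0 ≤ c ∧ ∀ (M : ℕ) (C C' : Γ → Γ → Prop) (d : ℝ),
    DB C' d → (∀ a b, C a b → ∃ θ : Fin 6 → ℤ × ℤ,
      (∀ i, θ i ∈ Finset.Icc (0 : ℤ) (2 * M + c0 : ℕ) ×ˢ Finset.Icc (0 : ℤ) (2 * M + c0 : ℕ)) ∧
      ∃ x y z : Γ, C' (x⁻¹ * y) (x⁻¹ * z) ∧ s.Six n θ a.1 b.1 x.1 y.1 z.1) →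
    DB C (d + c * Real.log (M + 2)) := by
  obtain ⟨c, hc, h⟩ := const_le_log (6 * Real.log (Λ.ball (4 * n + 3)).card +
    24 * Real.log (c0 + 2))
  refine ⟨c + 24, by positivity, fun M C C' d hd hC => ?_⟩
  have key := DB.union (Fintype.piFinset fun _ : Fin 6 =>
    Finset.Icc (0 : ℤ) (2 * M + c0 : ℕ) ×ˢ Finset.Icc (0 : ℤ) (2 * M + c0 : ℕ))
    (C := fun θ (a b : Γ) => ∃ x y z : Γ, C' (x⁻¹ * y) (x⁻¹ * z) ∧ s.Six n θ a.1 b.1 x.1 y.1 z.1)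
    fun θ _ => hd.red (Λ.ball (4 * n + 3)) (Λ.small_ch n 0 (θ 0) (θ 3))
      (Λ.small_ch n 0 (θ 0) (θ 0 - θ 4)) (Λ.small_ch n (θ 2) 0 (θ 2 - θ 3))
      (Λ.small_ch n (θ 2) 0 (θ 5)) (Λ.small_ch n 0 (θ 1) (θ 4)) (Λ.small_ch n 0 (θ 1) (θ 1 - θ 5))
      fun a b h => h
  refine key.mono (fun a b h => ?_) ?_
  · obtain ⟨θ, h1, h2⟩ := hC a b h
    exact ⟨θ, Fintype.mem_piFinset.mpr h1, h2⟩
  · rw [Fintype.card_piFinset_const, Finset.card_product, Int.card_Icc]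
    have e : ((2 * M + c0 : ℕ) + 1 - 0 : ℤ).toNat = 2 * M + c0 + 1 := by omega
    rw [e, ← pow_two, ← pow_mul]
    push_cast
    rw [Real.log_pow]
    have hM := Nat.cast_nonneg (α := ℝ) M
    have hc0 := Nat.cast_nonneg (α := ℝ) c0
    have e2 : Real.log (2 * M + c0 + 1) ≤ Real.log (c0 + 2) + Real.log (M + 2) := by
      rw [← Real.log_mul (by positivity) (by positivity)]
      exact Real.log_le_log (by positivity) (by nlinarith)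
    have := h M
    push_cast
    linarith

theorem flat_red {n mm c : ℤ} (hn : 0 ≤ n) (hm : 0 ≤ mm) (hc : 0 ≤ c) {h1 h2 h3 : Sp k}
    {a1 a2 a3 u u' v : ℤ × ℤ} (hg : s.Good n h1 h2 h3 a1 a2 a3)
    (hf : s.Fr mm (s.K h1 h3 a3) u u' v) (c1 : |a1.1 - u.1| ≤ c) (c2 : |a1.2 - u.2| ≤ c)
    (c3 : |a3.1 - v.1| ≤ c) (c4 : |a3.2 - v.2| ≤ c) :
    ∃ x y z : Γ, s.Fl Λ.R u u' (x⁻¹ * y).1 (x⁻¹ * z).1 ∧
      s.Bd (2 * (n + c + mm + Λ.R) + 8) (h1⁻¹ * x.1) ∧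
      s.Bd (2 * (n + c + mm + Λ.R) + 8) (h2⁻¹ * y.1) ∧
      s.Bd (2 * (n + c + mm + Λ.R) + 8) (h3⁻¹ * z.1) := by
  have hR := Λ.R0
  obtain ⟨f, f1, f2, f3⟩ := hf
  obtain ⟨⟨-, -, -, -, b2, -⟩, -⟩ := hg
  have p1 := Λ.at_rnd (h1 * f) 0
  have p2 := Λ.at_rnd (h1 * f) u
  have p3 := Λ.at_rnd (h1 * f) u'
  refine ⟨Λ.rnd (h1 * f * s.t 0), _, _, ⟨_, ?_, p2.left _, p3.left _⟩, ?_, ?_, ?_⟩
  · have := p1.left (Λ.rnd (h1 * f * s.t 0)).1⁻¹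
    rwa [inv_mul_cancel] at this
  · have q : s.At (0 + mm + 1) (h1 * f) 0 (h1 * s.t 0) :=
      (At_self h1 0).chart (by rw [t_zero, inv_one, one_mul, mul_one]; exact f1.inv)
    rw [t_zero, mul_one] at q
    exact ((q.mono (m := mm + Λ.R + 1) (by omega)).same (p1.mono (by omega))).mono (by omega)
  · have q := ((At_of_K b2).move c1 c2).chart f2.conj_inv
    exact ((q.mono (m := n + c + mm + Λ.R + 3) (by omega)).same (p2.mono (by omega))).mono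
      (by omega)
  · have q0 : s.At 0 (h1 * s.K h1 h3 a3) a3 h3 := by
      have := t_sJ (s := s) a3
      rw [t_neg] at this
      have e : (h1 * s.K h1 h3 a3 * s.t a3)⁻¹ * h3 = sJ⁻¹ := by
        simp only [K, mul_assoc]
        rw [← mul_assoc (s.t a3), this]
        group
      rw [At, e]; exact Bd_sJ.inv
    have q := (q0.move c3 c4).chart (w := (f⁻¹ * s.K h1 h3 a3)⁻¹) (u := u') (by rwa [inv_inv])
    rw [show h1 * s.K h1 h3 a3 * (f⁻¹ * s.K h1 h3 a3)⁻¹ = h1 * f by group] at q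
    exact ((q.mono (m := n + c + mm + Λ.R + 3) (by omega)).same (p3.mono (by omega))).mono
      (by omega)

theorem union_range {C : ℕ → Γ → Γ → Prop} {d : ℝ} {M : ℕ} (h : ∀ σ, σ ≤ M → DB (C σ) d) :
    DB (fun a b => ∃ σ, σ ≤ M ∧ C σ a b) (d + 2 * Real.log (M + 2)) := by
  refine (DB.union (Finset.range (M + 1)) fun σ hσ =>
    h σ (Nat.lt_succ_iff.mp (Finset.mem_range.mp hσ))).mono (fun a b ⟨σ, h1, h2⟩ =>
      ⟨σ, Finset.mem_range.mpr (Nat.lt_succ_of_le h1), h2⟩) ?_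
  rw [Finset.card_range]
  have hM := Nat.cast_nonneg (α := ℝ) M
  have : Real.log ((M + 1 : ℕ) : ℝ) ≤ Real.log (M + 2) :=
    Real.log_le_log (by positivity) (by push_cast; linarith)
  linarith

theorem redI [ProperSpace k] {n : ℤ} (hn : 40 ≤ n) : ∃ c : ℝ, 0 ≤ c ∧ ∀ (M : ℕ) (d : ℝ),
    (∀ σ : ℕ, σ ≤ M → DB (fun a b : Γ => s.Fl Λ.R (0, σ) (σ, 0) a.1 b.1) d) →
    DB (fun a b : Γ => s.Ax n M a.1 ∧ s.Ax n M b.1) (d + c * Real.log (M + 2)) := by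
  obtain ⟨e, he, hvi⟩ := Good.vi (s := s) (2 * n + 2)
  obtain ⟨mm, hfl⟩ := flatI (s := s) (2 * n + 2) (4 * n + 9 * e + 9)
  have hm0 := abs_nonneg mm
  have hm1 := le_abs_self mm
  have hR := Λ.R0
  obtain ⟨c, hc, h⟩ := Λ.red_gen
    (2 * n + (2 * (2 * n + 2 + 9 * e + (|mm| + 2 * n + 4) + Λ.R) + 8) + 4) (4 * n + 87).toNat
  refine ⟨c + 2, by positivity, fun M d hd => ?_⟩
  refine (h M _ _ _ (union_range fun σ hσ => (hd σ hσ).swap) ?_).mono (fun _ _ h => h)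
    (by linarith)
  rintro a b ⟨⟨σ1, s1, t1, sa, sa'⟩, ⟨σ3, s3, t3, sb, ⟨g3, p3, q3⟩⟩⟩
  obtain ⟨g2, l2, d2, m2, p2, q2⟩ := kak_chart
    ((sa'.Bd (c := M) (by rw [abs_le]; omega) (by simp)).mul
      (sb.Bd (c := M) (by rw [abs_le]; omega) (by simp)))
  obtain ⟨g1, p1, q1⟩ := sa
  have p3' := p3.left b.1
  have q3' := q3.left b.1
  rw [mul_one] at p3'
  rw [mul_inv_cancel] at q3'
  obtain ⟨θ, h1, h2, h3, a1, a2, a3, k1, k2, k3, -, k5, k6⟩ := core (by omega)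
    (M := 2 * M + (4 * n + 87).toNat) (l1 := (σ1, 0)) (l3 := (σ3, 0)) ⟨le_rfl, s1⟩ d2 ⟨le_rfl, s3⟩
    (by omega) (by omega) (by omega) p1 q1 (p2.mono hn) (q2.mono hn) p3' q3'
  obtain ⟨⟨e1, e2, e3, b1, -⟩, r1, -⟩ := id k2
  have up := k2.up.1
  simp only [Dom, Prod.fst_sub, Prod.snd_sub] at k3 k5
  obtain ⟨l1, l2, l3⟩ := lin_I he e1 e2 e3 (hvi _ _ _ _ _ _ k2)
    (by unfold Dom at e1; omega) (by unfold Dom at e3; omega)
  unfold Dom at e1 e3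
  have fr : s.Fr (|mm| + 2 * n + 4) (s.K h1 h3 a3) (min a1.1 a3.1, 0) (0, min a1.1 a3.1)
      (min a1.1 a3.1, 0) := by
    by_cases h0 : min a1.1 a3.1 = 0
    · refine (Fr_triv (c := 0) b1 (by simp) (by simp [h0]) (by simp [h0]) (by simp)).mono ?_
      rw [abs_of_nonneg (by omega)]
      omega
    · refine (hfl _ _ (by omega) b1 ?_ (up.mono (by omega))).mono (by omega)
      rcases r1.1 with h | h | h
      · omega
      · omega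
      · exact h
  obtain ⟨x, y, z, f1, f2, f3, f4⟩ := Λ.flat_red (c := 9 * e) (by omega) (by omega) (by omega) k2 fr
    (by rw [abs_le]; omega) (by rw [abs_le]; omega) (by rw [abs_le]; omega)
    (by rw [abs_le]; omega)
  refine ⟨θ, k1, x, y, z, ⟨(min a1.1 a3.1).toNat, by omega, ?_⟩, k6 _ _ _ _ (by omega) f2 f3 f4⟩
  obtain ⟨g, g1, g2, g3⟩ := f1
  rw [Int.toNat_of_nonneg (by omega)]
  exact ⟨g, g1, g3, g2⟩

theorem redII [ProperSpace k] {n : ℤ} (hn : 40 ≤ n) : ∃ c : ℝ, 0 ≤ c ∧ ∀ (M : ℕ) (d : ℝ),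
    (∀ σ : ℕ, σ ≤ M → DB (fun a b : Γ => s.Fl Λ.R (σ, -σ) (σ, σ) a.1 b.1) d) →
    DB (fun a b : Γ => s.Dg n M a.1 ∧ s.Dg n M b.1) (d + c * Real.log (M + 2)) := by
  obtain ⟨e, he, hvi⟩ := Good.vi (s := s) (2 * n + 2)
  obtain ⟨mm, hfl⟩ := flatII (s := s) (2 * n + 2) (8 * n + 27 * e + 17)
  have hm0 := abs_nonneg mm
  have hm1 := le_abs_self mm
  have hR := Λ.R0
  obtain ⟨c, hc, h⟩ := Λ.red_gen
    (2 * n + (2 * (2 * n + 2 + 9 * e + (|mm| + 2 * n + 4) + Λ.R) + 8) + 4) (4 * n + 87).toNat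
  refine ⟨c + 2, by positivity, fun M d hd => ?_⟩
  refine (h M _ _ _ (union_range fun σ hσ => (hd σ hσ).swap) ?_).mono (fun _ _ h => h)
    (by linarith)
  rintro a b ⟨⟨σ1, s1, t1, sa, sa'⟩, ⟨σ3, s3, t3, sb, ⟨g3, p3, q3⟩⟩⟩
  obtain ⟨g2, l2, d2, m2, p2, q2⟩ := kak_chart
    ((sa'.Bd (c := M) (by rw [abs_le]; omega) (by rw [abs_le]; omega)).mul
      (sb.Bd (c := M) (by rw [abs_le]; omega) (by rw [abs_le]; omega)))
  obtain ⟨g1, p1, q1⟩ := sa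
  have p3' := p3.left b.1
  have q3' := q3.left b.1
  rw [mul_one] at p3'
  rw [mul_inv_cancel] at q3'
  obtain ⟨θ, h1, h2, h3, a1, a2, a3, k1, k2, k3, -, k5, k6⟩ := core (by omega)
    (M := 2 * M + (4 * n + 87).toNat) (l1 := (σ1, σ1)) (l3 := (σ3, σ3)) ⟨s1, le_rfl⟩ d2
    ⟨s3, le_rfl⟩ (by omega) (by omega) (by omega) p1 q1 (p2.mono hn) (q2.mono hn) p3' q3'
  obtain ⟨⟨e1, e2, e3, b1, -⟩, r1, -⟩ := id k2
  have up := k2.up.2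
  simp only [Dom, Prod.fst_sub, Prod.snd_sub] at k3 k5
  obtain ⟨l1, l2, l3⟩ := lin_II he e1 e2 e3 (hvi _ _ _ _ _ _ k2)
    (by unfold Dom at e1; omega) (by unfold Dom at e3; omega)
  unfold Dom at e1 e3
  have fr : s.Fr (|mm| + 2 * n + 4) (s.K h1 h3 a3) (min a1.1 a3.1, min a1.1 a3.1)
      (min a1.1 a3.1, -min a1.1 a3.1) (min a1.1 a3.1, min a1.1 a3.1) := by
    by_cases h0 : min a1.1 a3.1 = 0
    · refine (Fr_triv (c := 0) b1 (by simp [h0]) (by simp [h0]) (by simp [h0])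
        (by simp [h0])).mono ?_
      rw [abs_of_nonneg (by omega)]
      omega
    · refine (hfl _ _ (by omega) b1 ?_ (up.mono (by omega))).mono (by omega)
      rcases r1.2 with h | h | h
      · omega
      · omega
      · exact h
  obtain ⟨x, y, z, f1, f2, f3, f4⟩ := Λ.flat_red (c := 9 * e) (by omega) (by omega) (by omega) k2 fr
    (by rw [abs_le]; omega) (by rw [abs_le]; omega) (by rw [abs_le]; omega)
    (by rw [abs_le]; omega)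
  refine ⟨θ, k1, x, y, z, ⟨(min a1.1 a3.1).toNat, by omega, ?_⟩, k6 _ _ _ _ (by omega) f2 f3 f4⟩
  obtain ⟨g, g1, g2, g3⟩ := f1
  rw [Int.toNat_of_nonneg (by omega)]
  exact ⟨g, g1, g3, g2⟩

end Lat

end Pool.Agent.Work.MP_dbf1ea_an
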