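import Pool.Agent.Work.MP_dbf1ea_an.Sp

/-!
An approximate Cartan decomposition by pivoting.
-/

set_option autoImplicit false

namespace Pool.Agent.Work.MP_dbf1ea_an

universe u

namespace Sc

variable {k : Type u} [NormedField k] {s : Sc k}

theorem piv_left (r : I4) : ∃ u : Sp k, s.Bd 1 u ∧ ∀ (h : Sp k) c, ‖(u * h).1 i0 c‖ = ‖h.1 r c‖ := by
  revert r
  rw [forall_I4]
  refine ⟨⟨1, Bd_one.mono (by omega), fun h c => by rw [one_mul]⟩,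
    ⟨s1, Bd_s1.mono (by omega), fun h c => by simp [mul_ap, s1]⟩,
    ⟨sJ, Bd_sJ.mono (by omega), fun h c => by simp [mul_ap, sJ]⟩,
    ⟨s1 * s2, (Bd_s1.mul Bd_s2).mono (by omega), fun h c => by simp only [mul_ap]; simp [s1, s2]⟩⟩

theorem piv_right (c : I4) : ∃ u : Sp k, s.Bd 1 u ∧ ∀ (h : Sp k) r, ‖(h * u).1 r i0‖ = ‖h.1 r c‖ := by
  revert c
  rw [forall_I4]
  refine ⟨⟨1, Bd_one.mono (by omega), fun h c => by rw [mul_one]⟩,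
    ⟨s1, Bd_s1.mono (by omega), fun h c => by simp only [mul_ap]; simp [s1]⟩,
    ⟨sJ, Bd_sJ.mono (by omega), fun h c => by simp only [mul_ap]; simp [sJ]⟩,
    ⟨s2 * s1, (Bd_s2.mul Bd_s1).mono (by omega), fun h c => by simp only [mul_ap]; simp [s1, s2]⟩⟩

/-- The first row and the first column are cleared. -/
def Blk (h : Sp k) : Prop := h.1 i0 i1 = 0 ∧ h.1 i0 j0 = 0 ∧ h.1 i0 j1 = 0 ∧ h.1 i1 i0 = 0 ∧
  h.1 j0 i0 = 0 ∧ h.1 j1 i0 = 0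

theorem clear1 (g : Sp k) (hx : g.1 i0 i0 ≠ 0) :
    Blk (hL (-g.1 i1 i0 / g.1 i0 i0) (-g.1 j1 i0 / g.1 i0 i0) (-g.1 j0 i0 / g.1 i0 i0) * g *
      hU (-g.1 i0 i1 / g.1 i0 i0) (-g.1 i0 j1 / g.1 i0 i0) (-g.1 i0 j0 / g.1 i0 i0)) ∧
    (hL (-g.1 i1 i0 / g.1 i0 i0) (-g.1 j1 i0 / g.1 i0 i0) (-g.1 j0 i0 / g.1 i0 i0) * g *
      hU (-g.1 i0 i1 / g.1 i0 i0) (-g.1 i0 j1 / g.1 i0 i0) (-g.1 i0 j0 / g.1 i0 i0)).1 i0 i0 =
      g.1 i0 i0 := by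
  simp only [Blk, mul_ap, hL, hU, Matrix.of_apply, v4_i0, v4_i1, v4_j0, v4_j1]
  refine ⟨⟨?_, ?_, ?_, ?_, ?_, ?_⟩, ?_⟩ <;> field_simp <;> ring

theorem Blk.more {h : Sp k} (b : Blk h) : h.1 i0 i0 ≠ 0 ∧ h.1 j0 j0 = (h.1 i0 i0)⁻¹ ∧
    h.1 j0 i1 = 0 ∧ h.1 j0 j1 = 0 ∧ h.1 i1 j0 = 0 ∧ h.1 j1 j0 = 0 ∧
    h.1 i1 i1 * h.1 j1 j1 - h.1 j1 i1 * h.1 i1 j1 = 1 := by
  obtain ⟨b1, b2, b3, b4, b5, b6⟩ := b
  obtain ⟨c1, -, c3, c4, -, c6⟩ := cols h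
  obtain ⟨r1, -, -, r4, -, -⟩ := rows h
  simp only [om, omr, b1, b2, b3, b4, b5, b6, zero_mul, mul_zero, sub_zero, add_zero,
    zero_add] at c1 c3 c4 c6 r1 r4
  have hx : h.1 i0 i0 ≠ 0 := left_ne_zero_of_mul_eq_one c3
  exact ⟨hx, eq_inv_of_mul_eq_one_right c3, (mul_eq_zero.mp c1).resolve_left hx,
    (mul_eq_zero.mp c4).resolve_left hx, (mul_eq_zero.mp r1).resolve_left hx,
    (mul_eq_zero.mp r4).resolve_left hx, c6⟩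

theorem clear2 {h : Sp k} (b : Blk h) (hp : h.1 i1 i1 ≠ 0) :
    h = xL (h.1 j1 i1 / h.1 i1 i1) * dg (h.1 i0 i0) (h.1 i1 i1) b.more.1 hp *
      sg 0 0 (h.1 i1 j1 / h.1 i1 i1) := by
  obtain ⟨m1, m2, m3, m4, m5, m6, m7⟩ := b.more
  obtain ⟨b1, b2, b3, b4, b5, b6⟩ := b
  refine sp_ext ?_
  simp only [forall_I4, mul_ap, xL, dg, sg, Matrix.of_apply, v4_i0, v4_i1, v4_j0, v4_j1,
    b1, b2, b3, b4, b5, b6, m2, m3, m4, m5, m6, zero_mul, mul_zero, add_zero, zero_add, mul_one,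
    one_mul, true_and, and_true]
  refine ⟨?_, ?_, ?_⟩ <;> field_simp
  linear_combination m7

theorem Blk.s2_mul {h : Sp k} (b : Blk h) : Blk (s2 * h) ∧ (s2 * h).1 i0 i0 = h.1 i0 i0 ∧
    (s2 * h).1 i1 i1 = -h.1 j1 i1 ∧ (s2 * h).1 i1 j1 = -h.1 j1 j1 ∧
    (s2 * h).1 j1 i1 = h.1 i1 i1 ∧ (s2 * h).1 j1 j1 = h.1 i1 j1 := by
  obtain ⟨b1, b2, b3, b4, b5, b6⟩ := b
  simp only [Blk, mul_ap]
  simp [s2, b1, b2, b3, b4, b5, b6]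

theorem Blk.mul_s2 {h : Sp k} (b : Blk h) : Blk (h * s2) ∧ (h * s2).1 i0 i0 = h.1 i0 i0 ∧
    (h * s2).1 i1 i1 = h.1 i1 j1 ∧ (h * s2).1 i1 j1 = -h.1 i1 i1 ∧
    (h * s2).1 j1 i1 = h.1 j1 j1 ∧ (h * s2).1 j1 j1 = -h.1 j1 i1 := by
  obtain ⟨b1, b2, b3, b4, b5, b6⟩ := b
  simp only [Blk, mul_ap]
  simp [s2, b1, b2, b3, b4, b5, b6]

theorem exists_max4 (a b c d : k) (h : a ≠ 0 ∨ b ≠ 0 ∨ c ≠ 0 ∨ d ≠ 0) : ∃ m : ℤ,
    (s.L m a ∨ s.L m b ∨ s.L m c ∨ s.L m d) ∧ s.N (m + 1) a ∧ s.N (m + 1) b ∧ s.N (m + 1) c ∧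
      s.N (m + 1) d := by
  have h0 : 0 < max (max ‖a‖ ‖b‖) (max ‖c‖ ‖d‖) := by
    simp only [lt_max_iff, norm_pos_iff]
    tauto
  obtain ⟨m, h1, h2⟩ := exists_mem_Ico_zpow h0 s.one_lt
  simp only [le_max_iff, max_lt_iff] at h1 h2
  exact ⟨m, by unfold L; tauto, h2.1.1.le, h2.1.2.le, h2.2.1.le, h2.2.2.le⟩

theorem piv2 {h : Sp k} (b : Blk h) : ∃ (m : ℤ) (u v : Sp k), s.Bd 0 u ∧ s.Bd 0 v ∧
    Blk (u * h * v) ∧ (u * h * v).1 i0 i0 = h.1 i0 i0 ∧ s.L m ((u * h * v).1 i1 i1) ∧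
    s.N (m + 1) ((u * h * v).1 i1 i1) ∧ s.N (m + 1) ((u * h * v).1 i1 j1) ∧
    s.N (m + 1) ((u * h * v).1 j1 i1) ∧ -1 ≤ m := by
  have m7 := b.more.2.2.2.2.2.2
  obtain ⟨m, h0, h1, h2, h3, h4⟩ := exists_max4 (s := s) (h.1 i1 i1) (h.1 i1 j1) (h.1 j1 i1)
    (h.1 j1 j1) (by
      by_contra hc
      push Not at hc
      rw [hc.1, hc.2.1] at m7
      simp at m7)
  have hm : -1 ≤ m := by
    have := (h1.mul h4).sub (h3.mul h2)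
    rw [m7] at this
    have h5 : s.L 0 1 := by simp [L]
    have := h5.le this
    omega
  obtain ⟨c1, c2, c3, c4, c5, c6⟩ := b.s2_mul
  obtain ⟨d1, d2, d3, d4, d5, d6⟩ := b.mul_s2
  obtain ⟨e1, e2, e3, e4, e5, e6⟩ := c1.mul_s2
  rcases h0 with h0 | h0 | h0 | h0
  · exact ⟨m, 1, 1, Bd_one, Bd_one, by simpa using b, by simp, by simpa using h0,
      by simpa using h1, by simpa using h2, by simpa using h3, hm⟩
  · refine ⟨m, 1, s2, Bd_one, Bd_s2, ?_⟩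
    rw [one_mul, d2, d3, d4, d5, N_neg]
    exact ⟨d1, rfl, h0, h2, h1, h4, hm⟩
  · refine ⟨m, s2, 1, Bd_s2, Bd_one, ?_⟩
    rw [mul_one, c2, c3, c4, c5, N_neg, N_neg, L_neg]
    exact ⟨c1, rfl, h0, h3, h4, h1, hm⟩
  · refine ⟨m, s2, s2, Bd_s2, Bd_s2, ?_⟩
    rw [e2, e3, e4, e5, c2, c3, c4, c6, N_neg, N_neg, N_neg, L_neg]
    exact ⟨e1, rfl, h0, h4, h3, h2, hm⟩

theorem dg_eq {x y : k} (hx : x ≠ 0) (hy : y ≠ 0) (v : ℤ × ℤ) :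
    dg x y hx hy = dg (x * s.w ^ (-v.1)) (y * s.w ^ (-v.2)) (mul_ne_zero hx (zpow_ne_zero _ s.ne))
      (mul_ne_zero hy (zpow_ne_zero _ s.ne)) * s.t v := by
  refine sp_ext ?_
  have := s.ne
  simp only [mul_t_ap, forall_I4, dg, Matrix.of_apply, v4_i0, v4_i1, v4_j0, v4_j1, wt_i0, wt_i1,
    wt_j0, wt_j1, zero_mul, true_and, and_true, zpow_neg]
  refine ⟨?_, ?_, ?_, ?_⟩ <;> field_simp

theorem Bd_dg' {n : ℤ} {x y : k} {hx : x ≠ 0} {hy : y ≠ 0} (h1 : s.N n x) (h2 : s.N n y)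
    (h3 : s.L (-n) x) (h4 : s.L (-n) y) : s.Bd n (dg x y hx hy) :=
  Bd_dg h1 h2 (by simpa using h3.inv) (by simpa using h4.inv)

theorem kak (g : Sp k) : ∃ (k1 k2 : Sp k) (v : ℤ × ℤ), 0 ≤ v.2 ∧ v.2 ≤ v.1 ∧ s.Bd 40 k1 ∧
    s.Bd 40 k2 ∧ g = k1 * s.t v * k2 := by
  obtain ⟨⟨r, c⟩, -, hmax⟩ := Finset.exists_max_image (Finset.univ : Finset (I4 × I4))
    (fun z => ‖g.1 z.1 z.2‖) Finset.univ_nonempty
  have c3 := (cols g).2.2.1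
  have hne : g.1 r c ≠ 0 := by
    intro h0
    have : ∀ r' c', g.1 r' c' = 0 := fun r' c' => by
      have := hmax (r', c') (Finset.mem_univ _)
      rwa [h0, norm_zero, norm_le_zero_iff] at this
    simp [om, this] at c3
  obtain ⟨n, hn1, hn2⟩ := exists_LN (s := s) hne
  have hg : s.Bd (n + 1) g := fun r' c' => le_trans (hmax (r', c') (Finset.mem_univ _)) hn2
  have hn : -1 ≤ n := by
    have := ((hg i0 i0).mul (hg j0 j0)).add4 ((hg j0 i0).mul (hg i0 j0)).neg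
      ((hg i1 i0).mul (hg j1 j0)) ((hg j1 i0).mul (hg i1 j0)).neg
    rw [← sub_eq_add_neg, ← sub_eq_add_neg] at this
    have h4 : s.N (n + 1 + (n + 1) + 1) 1 := c3 ▸ this
    have h5 : s.L 0 1 := by simp [L]
    have := h5.le h4
    omega
  obtain ⟨u, hu, hu2⟩ := piv_left (s := s) r
  obtain ⟨v, hv, hv2⟩ := piv_right (s := s) c
  set g1 := u * g * v with hg1
  have e1 : ‖g1.1 i0 i0‖ = ‖g.1 r c‖ := by rw [hg1, hv2, hu2]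
  have l1 : s.L n (g1.1 i0 i0) := by rw [L, e1]; exact hn1
  have n1 : s.N (n + 1) (g1.1 i0 i0) := by rw [N, e1]; exact hn2
  have b1 : s.Bd (n + 5) g1 := ((hu.mul hg).mul hv).mono (by omega)
  obtain ⟨k1, k2⟩ := clear1 g1 l1.ne
  have q : ∀ r c, s.N 5 (-g1.1 r c / g1.1 i0 i0) := fun r c =>
    ((b1 r c).neg.div l1).mono (by omega)
  have hu3 := Bd_hL (by omega) (q i1 i0) (q j1 i0) (q j0 i0)
  have hv3 := Bd_hU (by omega) (q i0 i1) (q i0 j1) (q i0 j0)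
  set u3 := hL (-g1.1 i1 i0 / g1.1 i0 i0) (-g1.1 j1 i0 / g1.1 i0 i0) (-g1.1 j0 i0 / g1.1 i0 i0)
  set v3 := hU (-g1.1 i0 i1 / g1.1 i0 i0) (-g1.1 i0 j1 / g1.1 i0 i0) (-g1.1 i0 j0 / g1.1 i0 i0)
  set g2 := u3 * g1 * v3 with hg2
  obtain ⟨m, u4, v4, hu4, hv4, k3, k4, k5, k6, k7, k8, hm⟩ := piv2 (s := s) k1
  set g3 := u4 * g2 * v4 with hg3
  have b3 : s.Bd (n + 19) g3 := ((hu4.mul ((hu3.mul b1).mul hv3)).mul hv4).mono (by omega)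
  have hmn := k5.le (b3 i1 i1)
  have e3 := clear2 k3 k5.ne
  rw [dg_eq (s := s) _ _ (max n 0, min (max n 0) (max m 0))] at e3
  rw [k2] at k4
  have hd : s.Bd 21 (dg (g3.1 i0 i0 * s.w ^ (-(max n 0, min (max n 0) (max m 0)).1))
      (g3.1 i1 i1 * s.w ^ (-(max n 0, min (max n 0) (max m 0)).2))
      (mul_ne_zero k3.more.1 (zpow_ne_zero _ s.ne)) (mul_ne_zero k5.ne (zpow_ne_zero _ s.ne))) := by
    refine Bd_dg' ?_ ?_ ?_ ?_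
    · rw [N_mul_pow, k4]; exact n1.mono (by omega)
    · rw [N_mul_pow]; exact k6.mono (by omega)
    · rw [L_mul_pow, k4]; exact l1.mono (by omega)
    · rw [L_mul_pow]; exact k5.mono (by omega)
  have hx : s.Bd 1 (xL (g3.1 j1 i1 / g3.1 i1 i1)) := Bd_xL (by omega) ((k8.div k5).mono (by omega))
  have hy : s.Bd 1 (sg 0 0 (g3.1 i1 j1 / g3.1 i1 i1)) :=
    Bd_sg (by omega) (N_zero _) (N_zero _) ((k7.div k5).mono (by omega))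
  refine ⟨u⁻¹ * u3⁻¹ * u4⁻¹ * xL _ * dg _ _ _ _, sg _ _ _ * v4⁻¹ * v3⁻¹ * v⁻¹,
    (max n 0, min (max n 0) (max m 0)), by simp, min_le_left _ _,
    ((((hu.inv.mul hu3.inv).mul hu4.inv).mul hx).mul hd).mono (by omega),
    (((hy.mul hv4.inv).mul hv3.inv).mul hv.inv).mono (by omega), ?_⟩
  have : g = u⁻¹ * u3⁻¹ * u4⁻¹ * g3 * v4⁻¹ * v3⁻¹ * v⁻¹ := by rw [hg3, hg2, hg1]; group
  rw [this]
  conv_lhs => rw [e3]
  simp only [mul_assoc]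

theorem le_of_Bd_t {n : ℤ} {v : ℤ × ℤ} (h : s.Bd n (s.t v)) : v.1 ≤ n :=
  (L_pow (s := s) v.1).le (h i0 i0)

end Sc

end Pool.Agent.Work.MP_dbf1ea_an
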