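import Pool.Agent.Work.MP_dbf1ea_an.Chart

/-!
Cocompact lattices: finite balls, rounding, and counting.
-/

set_option autoImplicit false

open scoped Pointwise

namespace Pool.Agent.Work.MP_dbf1ea_an

universe u

variable {k : Type u} [NormedField k]

/-- Finite balls and a rounding map for a subgroup. -/
structure Lat (s : Sc k) (Γ : Subgroup (Sp k)) where
  ball : ℤ → Finset Γ
  mem_ball : ∀ n γ, γ ∈ ball n ↔ s.Bd n γ.1
  R : ℤ
  R0 : 0 ≤ R
  rnd : Sp k → Γ
  spec : ∀ g, s.Bd R (g⁻¹ * (rnd g).1)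

theorem topGroup : IsTopologicalGroup (Sp k) where
  continuous_mul := continuous_mul
  continuous_inv := by
    refine continuous_induced_rng.mpr (continuous_pi fun r => continuous_pi fun c => ?_)
    simp only [Function.comp, inv_ap]
    exact continuous_const.mul (Sc.cont_ap _ _)

theorem exists_lat [ProperSpace k] (s : Sc k) (Γ : Subgroup (Sp k)) [DiscreteTopology Γ]
    [CompactSpace (Sp k ⧸ Γ)] : Nonempty (Lat s Γ) := by
  haveI := topGroup (k := k)
  have hfin : ∀ n : ℤ, {γ : Γ | s.Bd n γ.1}.Finite := fun n => by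
    have h := Γ.tendsto_coe_cofinite_of_discrete (isDiscrete_iff_discreteTopology.mpr inferInstance)
    have := h (Sc.isCompact_Bd (s := s) n).compl_mem_cocompact
    rw [Filter.mem_map, Filter.mem_cofinite, Set.preimage_compl, compl_compl] at this
    exact this
  obtain ⟨R, R0, hR⟩ : ∃ R : ℤ, 0 ≤ R ∧ ∀ g : Sp k, ∃ γ : Γ, s.Bd R (g * γ.1) := by
    let U : ℕ → Set (Sp k) := fun n => {g | ∀ r c, ‖g.1 r c‖ < ‖s.w‖ ^ (n : ℤ)}
    have hU : ∀ n, IsOpen (U n) := fun n => by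
      simp only [U, Set.setOf_forall]
      exact isOpen_iInter_of_finite fun r => isOpen_iInter_of_finite fun c =>
        isOpen_lt (Sc.cont_ap r c).norm continuous_const
    have hmono : Monotone U := fun a b hab g hg r c =>
      (hg r c).trans_le (zpow_le_zpow_right₀ s.one_lt.le (by exact_mod_cast hab))
    obtain ⟨n, hn⟩ := isCompact_univ.elim_directed_cover
      (fun n => ((↑) : Sp k → Sp k ⧸ Γ) '' U n) (fun n => QuotientGroup.isOpenMap_coe _ (hU n))
      (fun q _ => by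
        obtain ⟨g, rfl⟩ := QuotientGroup.mk_surjective q
        obtain ⟨n, hn⟩ := pow_unbounded_of_one_lt (∑ r, ∑ c, ‖g.1 r c‖) s.one_lt
        refine Set.mem_iUnion.mpr ⟨n, g, fun r c => ?_, rfl⟩
        rw [zpow_natCast]
        refine lt_of_le_of_lt ?_ hn
        exact (Finset.single_le_sum (f := fun c => ‖g.1 r c‖) (fun _ _ => norm_nonneg _)
          (Finset.mem_univ c)).trans (Finset.single_le_sum (f := fun r => ∑ c, ‖g.1 r c‖)
            (fun _ _ => Finset.sum_nonneg fun _ _ => norm_nonneg _) (Finset.mem_univ r)))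
      (Monotone.directed_le fun a b hab => Set.image_mono (hmono hab))
    refine ⟨n, by omega, fun g => ?_⟩
    obtain ⟨h, h1, h2⟩ := hn (Set.mem_univ (g : Sp k ⧸ Γ))
    refine ⟨⟨g⁻¹ * h, QuotientGroup.eq.mp h2.symm⟩, ?_⟩
    rw [mul_inv_cancel_left]
    exact fun r c => (h1 r c).le
  choose r hr using hR
  exact ⟨⟨fun n => (hfin n).toFinset, fun n γ => by simp, R, R0, fun g => r g⁻¹, fun g => hr g⁻¹⟩⟩

namespace Lat

variable {s : Sc k} {Γ : Subgroup (Sp k)} (Λ : Lat s Γ)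

theorem at_rnd (g : Sp k) (v : ℤ × ℤ) : s.At Λ.R g v (Λ.rnd (g * s.t v)).1 := Λ.spec _

open Classical in
theorem mem_pow {n m : ℕ} (hm : m = n + 84) {γ : Γ} (h : s.Bd n γ.1) :
    γ ∈ Λ.ball (2 * Λ.R + 41) ^ m := by
  have := Λ.R0
  obtain ⟨k1, k2, v, h1, h2, h3, h4, h5⟩ := Sc.kak (s := s) γ.1
  have h6 : v.1 ≤ n + 82 := by
    have h7 := (h3.inv.mul h).mul h4.inv
    have e : k1⁻¹ * γ.1 * k2⁻¹ = s.t v := by rw [h5]; group
    rw [e] at h7
    have := Sc.le_of_Bd_t h7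
    omega
  have key : ∀ i : ℕ, Λ.rnd (k1 * s.t (min i v.1, min i v.2)) ∈ Λ.ball (2 * Λ.R + 41) ^ (i + 1) := by
    intro i
    induction i with
    | zero =>
      rw [zero_add, pow_one, Λ.mem_ball]
      have := h3.mul (Λ.spec k1)
      rw [mul_inv_cancel_left] at this
      rw [Nat.cast_zero, min_eq_left h1, min_eq_left (h1.trans h2), Prod.mk_zero_zero, Sc.t_zero,
        mul_one]
      exact this.mono (by omega)
    | succ i ih =>
      rw [pow_succ, ← mul_inv_cancel_left (Λ.rnd (k1 * s.t (min i v.1, min i v.2)))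
        (Λ.rnd (k1 * s.t (min (i + 1 : ℕ) v.1, min (i + 1 : ℕ) v.2)))]
      refine Finset.mul_mem_mul ih ((Λ.mem_ball _ _).mpr ?_)
      have a1 := Λ.at_rnd k1 (min i v.1, min i v.2)
      have a2 := (Λ.at_rnd k1 (min (i + 1 : ℕ) v.1, min (i + 1 : ℕ) v.2)).move
        (u := (min i v.1, min i v.2)) (m := 1) (by simp only [abs_le]; omega)
        (by simp only [abs_le]; omega)
      exact ((a1.mono (by omega)).close a2 (m := 0) (by
        rw [inv_mul_cancel, mul_one, inv_mul_cancel]; exact Sc.Bd_one)).mono (by omega)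
  obtain ⟨M, hM⟩ : ∃ M : ℕ, M = n + 82 := ⟨_, rfl⟩
  have k3 := key M
  rw [min_eq_right (by omega), min_eq_right (by omega)] at k3
  rw [show m = M + 1 + 1 by omega, pow_succ, ← mul_inv_cancel_left (Λ.rnd (k1 * s.t v)) γ]
  refine Finset.mul_mem_mul k3 ((Λ.mem_ball _ _).mpr ?_)
  have := (Λ.spec (k1 * s.t v)).inv.mul h4
  have e : ((k1 * s.t v)⁻¹ * (Λ.rnd (k1 * s.t v)).1)⁻¹ * k2 = ((Λ.rnd (k1 * s.t v))⁻¹ * γ).1 := by
    rw [Subgroup.coe_mul, Subgroup.coe_inv, h5]; group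
  rw [e] at this
  exact this.mono (by omega)

theorem log_card : ∃ c : ℝ, 0 ≤ c ∧ ∀ n : ℕ, Real.log (Λ.ball n).card ≤ c * (n + 1) := by
  classical
  set S := Λ.ball (2 * Λ.R + 41)
  refine ⟨84 * Real.log S.card, by have := Real.log_natCast_nonneg S.card; positivity, fun n => ?_⟩
  obtain ⟨m, hm⟩ : ∃ m : ℕ, m = n + 84 := ⟨_, rfl⟩
  have h1 : (Λ.ball n).card ≤ S.card ^ m :=
    (Finset.card_le_card fun γ hγ => Λ.mem_pow hm ((Λ.mem_ball _ _).mp hγ)).trans
      Finset.card_pow_le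
  have h2 : 0 < (Λ.ball n).card :=
    Finset.card_pos.mpr ⟨1, (Λ.mem_ball _ _).mpr (Sc.Bd_one.mono (by omega))⟩
  have h3 : Real.log (Λ.ball n).card ≤ Real.log ((S.card : ℝ) ^ m) :=
    Real.log_le_log (by exact_mod_cast h2) (by exact_mod_cast h1)
  rw [Real.log_pow, hm] at h3
  have := Real.log_natCast_nonneg S.card
  have : (0 : ℝ) ≤ n := Nat.cast_nonneg n
  push_cast at h3
  nlinarith

theorem closure_ball : Subgroup.closure (Λ.ball (2 * Λ.R + 41) : Set Γ) = ⊤ := by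
  classical
  refine eq_top_iff.mpr fun γ _ => ?_
  obtain ⟨k1, k2, v, h1, h2, h3, h4, h5⟩ := Sc.kak (s := s) γ.1
  have h6 : s.Bd (v.1 + 82).toNat γ.1 := by
    rw [h5]
    exact ((h3.mul (Sc.Bd_t (n := v.1) (by rw [abs_le]; omega) (by rw [abs_le]; omega))).mul
      h4).mono (by omega)
  obtain ⟨m, hm⟩ : ∃ m : ℕ, m = (v.1 + 82).toNat + 84 := ⟨_, rfl⟩
  have h7 := Λ.mem_pow hm h6
  clear h5 h6 hm
  induction m generalizing γ with
  | zero =>
    rw [pow_zero, Finset.mem_one] at h7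
    rw [h7]; exact one_mem _
  | succ m ih =>
    rw [pow_succ, Finset.mem_mul] at h7
    obtain ⟨a, ha, b, hb, rfl⟩ := h7
    exact mul_mem (ih a trivial ha) (Subgroup.subset_closure hb)

theorem Bd_of_mem_pow {e : ℤ} (he : 0 ≤ e) (n : ℕ) {γ : Γ}
    (h : γ ∈ (insert (1 : Γ) ((Λ.ball e : Set Γ) ∪ (Λ.ball e : Set Γ)⁻¹)) ^ n) :
    s.Bd (n * (e + 1)) γ.1 := by
  induction n generalizing γ with
  | zero =>
    rw [pow_zero, Set.mem_one] at h
    rw [h]
    exact Sc.Bd_one.mono (by simp)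
  | succ n ih =>
    rw [pow_succ, Set.mem_mul] at h
    obtain ⟨a, ha, b, hb, rfl⟩ := h
    have hb' : s.Bd e b.1 := by
      rcases hb with rfl | hb | hb
      · exact Sc.Bd_one.mono he
      · exact (Λ.mem_ball _ _).mp hb
      · exact Sc.Bd_inv.mp ((Λ.mem_ball _ _).mp hb)
    refine ((ih ha).mul hb').mono ?_
    push_cast
    linarith

end Lat

end Pool.Agent.Work.MP_dbf1ea_an
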