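import Pool.Agent.Work.MP_dbf1ea_an.Geo2
import Pool.Agent.Work.MP_dbf1ea_an.Gibbs

/-!
Logarithmic entropy defect for all lattice triangles, and rapid decay.
-/

set_option autoImplicit false

open scoped Pointwise

namespace Pool.Agent.Work.MP_dbf1ea_an

universe u

variable {k : Type u} [NormedField k]

theorem log_le_log_nat {a b : ℕ} (h : a ≤ b) : Real.log (a + 2) ≤ Real.log (b + 2) :=
  Real.log_le_log (by positivity) (by have : (a : ℝ) ≤ b := by exact_mod_cast h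
                                      linarith)

theorem log_nat_nonneg (a : ℕ) : 0 ≤ Real.log (a + 2) :=
  Real.log_nonneg (by have := Nat.cast_nonneg (α := ℝ) a; linarith)

theorem log_lin (p q : ℕ) : ∃ c : ℝ, 0 ≤ c ∧ ∀ M : ℕ,
    Real.log ((p * M + q : ℕ) + 2) ≤ c * Real.log (M + 2) := by
  obtain ⟨c, hc, h⟩ := const_le_log (Real.log (p + q + 2))
  refine ⟨c + 1, by positivity, fun M => ?_⟩
  have hM := Nat.cast_nonneg (α := ℝ) M
  have hp := Nat.cast_nonneg (α := ℝ) p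
  have hq := Nat.cast_nonneg (α := ℝ) q
  have e2 : Real.log ((p * M + q : ℕ) + 2) ≤ Real.log (p + q + 2) + Real.log (M + 2) := by
    rw [← Real.log_mul (by positivity) (by positivity)]
    exact Real.log_le_log (by positivity) (by push_cast; nlinarith)
  have := h M
  linarith

namespace Sc

variable {s : Sc k}

theorem Ax.tol {n n' : ℤ} {M : ℕ} {u : Sp k} (h : s.Ax n M u) (hn : n ≤ n') : s.Ax n' M u := by
  obtain ⟨σ, h0, h1, h2, h3⟩ := h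
  exact ⟨σ, h0, h1, h2.mono hn, h3.mono hn⟩

theorem Dg.tol {n n' : ℤ} {M : ℕ} {u : Sp k} (h : s.Dg n M u) (hn : n ≤ n') : s.Dg n' M u := by
  obtain ⟨σ, h0, h1, h2, h3⟩ := h
  exact ⟨σ, h0, h1, h2.mono hn, h3.mono hn⟩

theorem side_types {n R c : ℤ} (hn : 0 ≤ n) (hR : 0 ≤ R) (hc : 0 ≤ c) {M : ℕ} {h h' x y : Sp k}
    {a : ℤ × ℤ} (ha : Dom a) (hM : a.1 ≤ M) (hK : s.Bd n (s.K h' h a)) (hx : s.Bd R (h⁻¹ * x))
    (hy : s.Bd R (h'⁻¹ * y)) :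
    (a.2 ≤ c → s.Ax (n + R + c + 4) M (x⁻¹ * y)) ∧
      (a.1 - a.2 ≤ c → s.Dg (n + R + c + 4) M (x⁻¹ * y)) := by
  have p0 : s.At R h 0 x := by rwa [At, t_zero, mul_one]
  have p1 := p0.left x⁻¹
  rw [inv_mul_cancel] at p1
  have p2 := ((At_of_K hK).near hy).left x⁻¹
  obtain ⟨a1, a2⟩ := ha
  constructor
  · intro h1
    exact (Sd.ax (n := n + R + c + 3) (σ := a.1) ⟨_, p1.mono (by omega),
      (p2.move (u := (a.1, 0)) (m := c) (by simpa) (by rw [abs_le]; omega)).mono (by omega)⟩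
      (by omega) hM).tol (by omega)
  · intro h1
    exact (Sd.dg (n := n + R + c + 3) (σ := a.1) ⟨_, p1.mono (by omega),
      (p2.move (u := (a.1, a.1)) (m := c) (by simpa) (by rw [abs_le]; omega)).mono (by omega)⟩
      (by omega) hM).tol (by omega)

end Sc

theorem six_cases {Γ : Type u} [Group Γ] {P Q : Γ → Prop} {d : ℝ} (hP : ∀ u, P u → P u⁻¹)
    (hQ : ∀ u, Q u → Q u⁻¹) (h1 : DB (fun a b => P a ∧ P b) d) (h2 : DB (fun a b => Q a ∧ Q b) d) :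
    DB (fun a b => (P a ∧ Q (a⁻¹ * b)) ∨ (P a ∧ Q b⁻¹) ∨ (P (a⁻¹ * b) ∧ Q a) ∨
      (P (a⁻¹ * b) ∧ Q b⁻¹) ∨ (P b⁻¹ ∧ Q a) ∨ (P b⁻¹ ∧ Q (a⁻¹ * b))) (d + 6 * Real.log 2) := by
  have key : ∀ {P Q : Γ → Prop}, (∀ u, P u → P u⁻¹) → (∀ u, Q u → Q u⁻¹) →
      DB (fun a b => P a ∧ P b) d → DB (fun a b => Q a ∧ Q b) d →
      DB (fun a b => ((P b⁻¹ ∧ Q (a⁻¹ * b)) ∨ (P a ∧ Q (a⁻¹ * b))) ∨ (P a ∧ Q b⁻¹))
        (d + 2 * Real.log 2 + 2 * Real.log 2) := by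
    intro P Q hP hQ h1 h2
    have k1 : DB (fun a b => P b ∧ Q (a⁻¹ * b)) d :=
      (h1.copy h2 fun a b b' h h' => ⟨⟨h.1, h'.1⟩, h.2, h'.2⟩).mono (fun _ _ h => h) (by linarith)
    have l2 := Real.log_nonneg (one_le_two (α := ℝ))
    refine DB.or (DB.or (k1.mono (fun a b h => ⟨by simpa using hP _ h.1, h.2⟩) le_rfl)
      (k1.swap.mono (fun a b h => ⟨h.1, by simpa using hQ _ h.2⟩) le_rfl))
      (k1.swap.rot.mono (fun a b h => ⟨hP _ h.1, by simpa using h.2⟩) (by linarith))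
  refine ((key hP hQ h1 h2).or (key hQ hP h2 h1)).mono (fun a b h => ?_) (by linarith)
  rcases h with h | h | h | h | h | h
  · exact Or.inl (Or.inl (Or.inr h))
  · exact Or.inl (Or.inr h)
  · exact Or.inr (Or.inl (Or.inr h.symm))
  · exact Or.inr (Or.inl (Or.inl h.symm))
  · exact Or.inr (Or.inr h.symm)
  · exact Or.inl (Or.inl (Or.inl h))

namespace Lat

variable {s : Sc k} {Γ : Subgroup (Sp k)} (Λ : Lat s Γ) [ProperSpace k]

open Sc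

theorem db_flat_log : ∃ c : ℝ, 0 ≤ c ∧ ∀ σ : ℕ,
    DB (fun a b : Γ => s.Fl Λ.R (0, σ) (σ, 0) a.1 b.1) (c * Real.log (σ + 2)) ∧
    DB (fun a b : Γ => s.Fl Λ.R (σ, -σ) (σ, σ) a.1 b.1) (c * Real.log (σ + 2)) := by
  have hR := Λ.R0
  obtain ⟨c0, hc0, h0⟩ := Λ.log_card
  obtain ⟨c1, hc1, h1⟩ := Λ.dbI
  obtain ⟨c2, hc2, h2⟩ := Λ.dbII
  obtain ⟨c3, hc3, h3⟩ := Λ.redI (n := 9 * Λ.R + 40) (by omega)
  obtain ⟨c4, hc4, h4⟩ := Λ.redII (n := 9 * Λ.R + 40) (by omega)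
  have k2 : ∀ (M : ℕ) (y : ℝ), 0 ≤ y →
      DB (fun a b : Γ => s.Ax (9 * Λ.R + 40) (2 * M) a.1 ∧ s.Ax (9 * Λ.R + 40) (2 * M) b.1) y →
      ∀ σ : ℕ, σ ≤ M → DB (fun a b : Γ => s.Fl Λ.R (σ, -σ) (σ, σ) a.1 b.1)
        (y / 2 + c2 * Real.log (M + 2)) := fun M y hy h σ hσ =>
    (h2 σ y hy (h.mono (fun a b h => ⟨(h.1.tol (by omega)).mono (by omega),
      (h.2.tol (by omega)).mono (by omega)⟩) le_rfl)).mono (fun _ _ h => h) (by
        have := mul_le_mul_of_nonneg_left (log_le_log_nat hσ) hc2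
        linarith)
  have k1 : ∀ (M : ℕ) (y : ℝ), 0 ≤ y →
      DB (fun a b : Γ => s.Ax (9 * Λ.R + 40) (2 * M) a.1 ∧ s.Ax (9 * Λ.R + 40) (2 * M) b.1) y →
      ∀ σ : ℕ, σ ≤ M → DB (fun a b : Γ => s.Fl Λ.R (0, σ) (σ, 0) a.1 b.1)
        (y / 4 + (c1 + c2 + c4) * Real.log (M + 2)) := fun M y hy h σ hσ => by
    have := log_nat_nonneg M
    refine (h1 σ _ (by positivity) ((h4 M _ (k2 M y hy h)).mono (fun a b h =>
      ⟨(h.1.tol (by omega)).mono hσ, (h.2.tol (by omega)).mono hσ⟩) le_rfl)).mono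
      (fun _ _ h => h) ?_
    have := mul_le_mul_of_nonneg_left (log_le_log_nat hσ) hc1
    have := mul_nonneg hc2 (log_nat_nonneg M)
    have := mul_nonneg hc4 (log_nat_nonneg M)
    linarith
  have k3 := rec_quarter
    (C := fun M (a b : Γ) => s.Ax (9 * Λ.R + 40) M a.1 ∧ s.Ax (9 * Λ.R + 40) M b.1)
    (c := 4 * c0 * ((18 * Λ.R + 82).toNat + 1)) (K := c1 + c2 + c3 + c4) (by positivity)
    (by positivity) (fun M => ?_) fun M y hy h => (h3 M _ (k1 M y hy h)).mono (fun _ _ h => h)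
      (by linarith)
  · obtain ⟨c5, hc5, h5⟩ := log_lin 2 0
    refine ⟨(c1 + c2 + c3 + c4) * c5 + (c1 + c2 + c4), by positivity, fun σ => ?_⟩
    have e1 := mul_le_mul_of_nonneg_left (h5 σ) (by positivity : 0 ≤ c1 + c2 + c3 + c4)
    rw [add_zero] at e1
    have e2 := mul_nonneg (by positivity : 0 ≤ c1 + c2 + c3 + c4) (log_nat_nonneg (2 * σ))
    have e3 := mul_nonneg hc1 (log_nat_nonneg σ)
    have e4 := mul_nonneg hc4 (log_nat_nonneg σ)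
    exact ⟨(k1 σ _ (by linarith) (k3 (2 * σ)) σ le_rfl).mono (fun _ _ h => h) (by linarith),
      (k2 σ _ (by linarith) (k3 (2 * σ)) σ le_rfl).mono (fun _ _ h => h) (by linarith)⟩
  · refine (DB_trivial (Λ.ball (M + (18 * Λ.R + 82).toNat : ℕ))).mono (fun a b h => ?_) ?_
    · obtain ⟨⟨σ, p0, p1, p2, -⟩, σ', q0, q1, q2, -⟩ := h
      rw [Λ.mem_ball, Λ.mem_ball]
      exact ⟨(p2.Bd (c := M) (by rw [abs_le]; omega) (by simp)).mono (by omega),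
        (q2.Bd (c := M) (by rw [abs_le]; omega) (by simp)).mono (by omega)⟩
    · have := h0 (M + (18 * Λ.R + 82).toNat)
      have hM := Nat.cast_nonneg (α := ℝ) M
      have hM' := Nat.cast_nonneg (α := ℝ) (18 * Λ.R + 82).toNat
      have : 0 ≤ c0 * M * (18 * Λ.R + 82).toNat := by positivity
      rw [Nat.cast_add (R := ℝ)] at *
      nlinarith

include Λ in
theorem db_two : ∃ c : ℝ, 0 ≤ c ∧ ∀ M : ℕ,
    DB (fun a b : Γ => s.Bd M a.1 ∧ s.Bd M b.1) (c * Real.log (M + 2)) := by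
  have hR := Λ.R0
  obtain ⟨e, he, hvi⟩ := Good.vi (s := s) (2 * 40 + 2)
  obtain ⟨c0, hc0, h0⟩ := Λ.db_flat_log
  obtain ⟨c1, hc1, h1⟩ := Λ.redI (n := 2 * 40 + 2 + Λ.R + 9 * e + 4) (by omega)
  obtain ⟨c2, hc2, h2⟩ := Λ.redII (n := 2 * 40 + 2 + Λ.R + 9 * e + 4) (by omega)
  obtain ⟨c3, hc3, h3⟩ := Λ.red_gen (2 * 40 + Λ.R + 4) 83
  obtain ⟨c4, hc4, h4⟩ := log_lin 2 83
  refine ⟨(c0 + c1 + c2) * c4 + 6 + c3, by positivity, fun M => ?_⟩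
  have l0 := log_nat_nonneg (2 * M + 83)
  have k1 := h1 (2 * M + 83) (c0 * Real.log ((2 * M + 83 : ℕ) + 2)) fun σ hσ =>
    (h0 σ).1.mono (fun _ _ h => h) (mul_le_mul_of_nonneg_left (log_le_log_nat hσ) hc0)
  have k2 := h2 (2 * M + 83) (c0 * Real.log ((2 * M + 83 : ℕ) + 2)) fun σ hσ =>
    (h0 σ).2.mono (fun _ _ h => h) (mul_le_mul_of_nonneg_left (log_le_log_nat hσ) hc0)
  have k3 := six_cases (d := (c0 + c1 + c2) * Real.log ((2 * M + 83 : ℕ) + 2))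
    (P := fun u : Γ => s.Ax (2 * 40 + 2 + Λ.R + 9 * e + 4) (2 * M + 83) u.1)
    (Q := fun u : Γ => s.Dg (2 * 40 + 2 + Λ.R + 9 * e + 4) (2 * M + 83) u.1)
    (fun u h => h.inv) (fun u h => h.inv)
    (k1.mono (fun _ _ h => h) (by have := mul_nonneg hc2 l0; linarith))
    (k2.mono (fun _ _ h => h) (by have := mul_nonneg hc1 l0; linarith))
  refine (h3 M _ _ _ k3 ?_).mono (fun _ _ h => h) ?_
  · rintro a b ⟨ha, hb⟩
    obtain ⟨g1, l1, d1, m1, p1, q1⟩ := kak_chart (x := 1) (y := a.1) (by simpa using ha)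
    obtain ⟨g2, l2, d2, m2, p2, q2⟩ := kak_chart (ha.inv.mul hb)
    obtain ⟨g3, l3, d3, m3, p3, q3⟩ := kak_chart (x := b.1) (y := 1) (by simpa using hb.inv)
    obtain ⟨θ, x, y, z, a1, a2, a3, e1, e2, e3, e4, e5, e6⟩ := core (by omega)
      (M := 2 * M + 83) d1 d2 d3 (by omega) (by omega) (by omega) p1 q1 p2 q2 p3 q3
    obtain ⟨⟨f1, f2, f3, b1, b2, b3⟩, -⟩ := id e2
    simp only [Dom, Prod.fst_sub, Prod.snd_sub] at e3 e4 e5
    have s1 := side_types (c := 9 * e) (M := 2 * M + 83) (by omega) hR (by omega) f1 (by omega) b2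
      (Λ.spec x) (Λ.spec y)
    have s2 := side_types (c := 9 * e) (M := 2 * M + 83) (by omega) hR (by omega) f2 (by omega) b3
      (Λ.spec y) (Λ.spec z)
    have s3 := side_types (c := 9 * e) (M := 2 * M + 83) (by omega) hR (by omega) f3 (by omega) b1
      (Λ.spec z) (Λ.spec x)
    refine ⟨θ, e1, Λ.rnd x, Λ.rnd y, Λ.rnd z, ?_, e6 _ _ _ _ hR (Λ.spec x) (Λ.spec y) (Λ.spec z)⟩
    simp only [mul_inv_rev, inv_inv, mul_assoc, mul_inv_cancel_left, Subgroup.coe_mul,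
      Subgroup.coe_inv]
    rcases lin_all he f1 f2 f3 (hvi _ _ _ _ _ _ e2) with h | h | h | h | h | h
    · exact Or.inl ⟨s1.1 h.1, s2.2 h.2⟩
    · exact Or.inr (Or.inl ⟨s1.1 h.1, s3.2 h.2⟩)
    · exact Or.inr (Or.inr (Or.inl ⟨s2.1 h.1, s1.2 h.2⟩))
    · exact Or.inr (Or.inr (Or.inr (Or.inl ⟨s2.1 h.1, s3.2 h.2⟩)))
    · exact Or.inr (Or.inr (Or.inr (Or.inr (Or.inl ⟨s3.1 h.1, s1.2 h.2⟩))))
    · exact Or.inr (Or.inr (Or.inr (Or.inr (Or.inr ⟨s3.1 h.1, s2.2 h.2⟩))))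
  · have e1 := mul_le_mul_of_nonneg_left (h4 M) (by positivity : 0 ≤ c0 + c1 + c2)
    have e2 := log_le_log_nat (Nat.zero_le M)
    simp only [Nat.cast_zero, zero_add] at e2
    linarith

include Λ in
theorem db_one : ∃ c : ℝ, 0 ≤ c ∧ ∀ M L : ℕ,
    DB (fun a b : Γ => s.Bd M a.1 ∧ s.Bd L a.1 ∧ s.Bd L b.1 ∧ s.Bd L (a⁻¹ * b).1)
      (c * Real.log (M + 5)) := by
  obtain ⟨c, hc, h⟩ := Λ.db_two
  refine ⟨4 * c, by positivity, fun M L => ?_⟩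
  have k := rec_half (C := fun (M : ℕ) (a b : Γ) => s.Bd M a.1 ∧ s.Bd L b.1 ∧ s.Bd L (a⁻¹ * b).1)
    (c := 4 * Real.log (Λ.ball L).card) (K := c) (c0 := 1) hc (fun M => ?_) (fun M d hd => ?_) M
  · refine k.mono (fun a b h => ⟨h.1, h.2.2⟩) (le_of_eq ?_)
    push_cast
    rw [add_assoc]
    norm_num
  · refine (DB_trivial (Λ.ball L)).swap.rot.swap.mono (fun a b h => ?_) le_rfl
    rw [Λ.mem_ball, Λ.mem_ball]
    exact ⟨by simpa using h.2.2.inv, h.2.1.inv⟩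
  · refine ((h M).copy (C := fun b a : Γ => s.Bd M a.1 ∧ s.Bd L b.1 ∧ s.Bd L (a⁻¹ * b).1)
      hd.swap.rot fun b a a' h1 h2 => ⟨⟨h1.1, h2.1⟩, ?_⟩).swap.mono (fun _ _ h => h) ?_
    · simp only [mul_inv_rev, inv_inv, mul_assoc, mul_inv_cancel_left, inv_mul_cancel_left,
        Subgroup.coe_mul, Subgroup.coe_inv]
      exact ⟨(h1.1.inv.mul h2.1).mono (by push_cast; omega), h1.2.2, h2.2.2⟩
    · have := mul_nonneg hc (log_nat_nonneg M)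
      linarith

include Λ in
theorem rd : ∃ S : Finset Γ, Subgroup.closure (S : Set Γ) = ⊤ ∧
    ∃ C : ℝ, ∃ p : ℕ, ∀ n : ℕ, ∀ f g : Γ →₀ ℂ,
      (f.support : Set Γ) ⊆ (insert (1 : Γ) ((S : Set Γ) ∪ (S : Set Γ)⁻¹)) ^ n →
      (∑' γ : Γ, ‖∑ h ∈ f.support, f h * g (h⁻¹ * γ)‖ ^ 2)
        ≤ C * (1 + (n : ℝ)) ^ p * (∑' γ : Γ, ‖f γ‖ ^ 2) * (∑' γ : Γ, ‖g γ‖ ^ 2) := by
  have hR := Λ.R0
  obtain ⟨c, hc, h⟩ := Λ.db_one
  obtain ⟨e, he⟩ : ∃ e : ℕ, (e : ℤ) = 2 * Λ.R + 41 + 1 := ⟨(2 * Λ.R + 41 + 1).toNat, by omega⟩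
  refine ⟨Λ.ball (2 * Λ.R + 41), Λ.closure_ball, ((e : ℝ) + 5) ^ ⌈c⌉₊, ⌈c⌉₊, fun n f g hf => ?_⟩
  have hb : ∀ γ : Γ, ∃ L : ℕ, s.Bd L γ.1 := fun γ => by
    obtain ⟨k1, k2, v, h1, h2, h3, h4, h5⟩ := kak (s := s) γ.1
    refine ⟨(v.1 + 82).toNat, ?_⟩
    rw [h5]
    exact ((h3.mul (Bd_t (n := v.1) (by rw [abs_le]; omega) (by rw [abs_le]; omega))).mul
      h4).mono (by omega)
  choose L hL using hb
  have hf' : ∀ a ∈ f.support, s.Bd (n * e : ℕ) a.1 := fun a ha => by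
    have := Λ.Bd_of_mem_pow (by omega) n (hf ha)
    rwa [← he, ← Nat.cast_mul] at this
  refine (rd_of_DB (h (n * e) (n * e + g.support.sup L + 1)) f g fun a ha b hb => ?_).trans ?_
  · have h1 := hf' a ha
    have h2 : s.Bd (g.support.sup L : ℕ) b.1 := (hL b).mono (by exact_mod_cast Finset.le_sup hb)
    refine ⟨h1, h1.mono (by omega), (h1.mul h2).mono (by omega), ?_⟩
    rw [inv_mul_cancel_left]
    exact h2.mono (by omega)
  · refine mul_le_mul_of_nonneg_right (mul_le_mul_of_nonneg_right ?_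
      (tsum_nonneg fun _ => sq_nonneg _)) (tsum_nonneg fun _ => sq_nonneg _)
    have hn := Nat.cast_nonneg (α := ℝ) n
    have he' := Nat.cast_nonneg (α := ℝ) e
    have h1 : (1 : ℝ) ≤ (n * e : ℕ) + 5 := by have := Nat.cast_nonneg (α := ℝ) (n * e); linarith
    rw [← mul_pow, mul_comm c, ← Real.rpow_def_of_pos (by linarith), ← Real.rpow_natCast]
    refine (Real.rpow_le_rpow_of_exponent_le h1 (Nat.le_ceil c)).trans
      (Real.rpow_le_rpow (by linarith) ?_ (Nat.cast_nonneg _))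
    push_cast
    nlinarith

end Lat

end Pool.Agent.Work.MP_dbf1ea_an
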