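import Pool.Agent.Work.MP_dbf1ea_an.Vertex

/-!
Reduction of a triangle at its three vertices and the shape of reduced triangles.
-/

set_option autoImplicit false

namespace Pool.Agent.Work.MP_dbf1ea_an

universe u

/-- The three vertex inequalities of a reduced triangle. -/
def VI (e : ℤ) (a1 a2 a3 : ℤ × ℤ) : Prop :=
  (Ori a1 a3 (a2.1 + e) (a2.1 + a2.2 + e) ∨ Ori a3 a1 (a2.1 + e) (a2.1 + a2.2 + e)) ∧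
  (Ori a2 a1 (a3.1 + e) (a3.1 + a3.2 + e) ∨ Ori a1 a2 (a3.1 + e) (a3.1 + a3.2 + e)) ∧
  (Ori a3 a2 (a1.1 + e) (a1.1 + a1.2 + e) ∨ Ori a2 a3 (a1.1 + e) (a1.1 + a1.2 + e))

theorem lin_all {e : ℤ} {a1 a2 a3 : ℤ × ℤ} (he : 0 ≤ e) (h1 : Dom a1) (h2 : Dom a2) (h3 : Dom a3)
    (h : VI e a1 a2 a3) :
    (a1.2 ≤ 9 * e ∧ a2.1 - a2.2 ≤ 9 * e) ∨ (a1.2 ≤ 9 * e ∧ a3.1 - a3.2 ≤ 9 * e) ∨
    (a2.2 ≤ 9 * e ∧ a1.1 - a1.2 ≤ 9 * e) ∨ (a2.2 ≤ 9 * e ∧ a3.1 - a3.2 ≤ 9 * e) ∨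
    (a3.2 ≤ 9 * e ∧ a1.1 - a1.2 ≤ 9 * e) ∨ (a3.2 ≤ 9 * e ∧ a2.1 - a2.2 ≤ 9 * e) := by
  unfold VI Ori Dom at *
  obtain ⟨k1 | k1, k2 | k2, k3 | k3⟩ := h <;> omega

theorem lin_I {e : ℤ} {a1 a2 a3 : ℤ × ℤ} (he : 0 ≤ e) (h1 : Dom a1) (h2 : Dom a2) (h3 : Dom a3)
    (h : VI e a1 a2 a3) (z1 : a1.2 = 0) (z3 : a3.2 = 0) :
    a1.1 ≤ a3.1 + 9 * e ∧ a3.1 ≤ a1.1 + 9 * e ∧ a2.1 ≤ a1.1 + 9 * e := by
  unfold VI Ori Dom at *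
  obtain ⟨k1 | k1, k2 | k2, k3 | k3⟩ := h <;> omega

theorem lin_II {e : ℤ} {a1 a2 a3 : ℤ × ℤ} (he : 0 ≤ e) (h1 : Dom a1) (h2 : Dom a2) (h3 : Dom a3)
    (h : VI e a1 a2 a3) (z1 : a1.1 = a1.2) (z3 : a3.1 = a3.2) :
    a1.1 ≤ a3.1 + 9 * e ∧ a3.1 ≤ a1.1 + 9 * e ∧ a2.1 + a2.2 ≤ 2 * a1.1 + 9 * e := by
  unfold VI Ori Dom at *
  obtain ⟨k1 | k1, k2 | k2, k3 | k3⟩ := h <;> omega

namespace Sc

variable {k : Type u} [NormedField k] (s : Sc k)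

/-- The transition between the two charts at a vertex. -/
noncomputable def K (g g' : Sp k) (a : ℤ × ℤ) : Sp k := g⁻¹ * g' * s.t a * sJ

/-- Three charts closing up to a triangle. -/
def Pre (n : ℤ) (g1 g2 g3 : Sp k) (a1 a2 a3 : ℤ × ℤ) : Prop :=
  Dom a1 ∧ Dom a2 ∧ Dom a3 ∧ s.Bd n (s.K g1 g3 a3) ∧ s.Bd n (s.K g2 g1 a1) ∧ s.Bd n (s.K g3 g2 a2)

/-- A triangle reduced at its three vertices. -/
def Good (n : ℤ) (g1 g2 g3 : Sp k) (a1 a2 a3 : ℤ × ℤ) : Prop :=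
  s.Pre n g1 g2 g3 a1 a2 a3 ∧ s.Rd n (s.K g1 g3 a3) a1 a3 ∧ s.Rd n (s.K g2 g1 a1) a2 a1 ∧
    s.Rd n (s.K g3 g2 a2) a3 a2

/-- The triangle has a reduced inner triangle. -/
def Out (n : ℤ) (g1 g2 g3 : Sp k) (l1 l2 l3 : ℤ × ℤ) : Prop :=
  ∃ v1 v2 v3, Dom v1 ∧ Dom v2 ∧ Dom v3 ∧ s.Good n (g1 * s.t v1) (g2 * s.t v2) (g3 * s.t v3)
    (l1 - v1 - v2) (l2 - v2 - v3) (l3 - v3 - v1)

variable {s}

theorem Pre.rot {n : ℤ} {g1 g2 g3 : Sp k} {a1 a2 a3 : ℤ × ℤ} (h : s.Pre n g1 g2 g3 a1 a2 a3) :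
    s.Pre n g2 g3 g1 a2 a3 a1 := ⟨h.2.1, h.2.2.1, h.1, h.2.2.2.2.1, h.2.2.2.2.2, h.2.2.2.1⟩

theorem Good.rot {n : ℤ} {g1 g2 g3 : Sp k} {a1 a2 a3 : ℤ × ℤ} (h : s.Good n g1 g2 g3 a1 a2 a3) :
    s.Good n g2 g3 g1 a2 a3 a1 := ⟨h.1.rot, h.2.2.1, h.2.2.2, h.2.1⟩

theorem Out.rot {n : ℤ} {g1 g2 g3 : Sp k} {a1 a2 a3 : ℤ × ℤ} (h : s.Out n g1 g2 g3 a1 a2 a3) :
    s.Out n g2 g3 g1 a2 a3 a1 := by
  obtain ⟨v1, v2, v3, h1, h2, h3, h4⟩ := h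
  exact ⟨v2, v3, v1, h2, h3, h1, h4.rot⟩

theorem K_left (g g' : Sp k) (a v : ℤ × ℤ) :
    s.K (g * s.t v) g' (a - v) = (s.t v)⁻¹ * s.K g g' a * s.t v := by
  have := t_sJ (s := s) (-v)
  rw [neg_neg, t_neg] at this
  simp only [K, t_sub, mul_inv_rev, mul_assoc, this]

theorem K_right (g g' : Sp k) (a v : ℤ × ℤ) : s.K g (g' * s.t v) (a - v) = s.K g g' a := by
  simp only [K, mul_assoc]
  rw [← mul_assoc (s.t v), ← t_add, add_sub_cancel]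

theorem step {n : ℤ} {g1 g2 g3 : Sp k} {l1 l2 l3 : ℤ × ℤ} (h : s.Pre n g1 g2 g3 l1 l2 l3)
    (hR : ¬ s.Rd n (s.K g1 g3 l3) l1 l3)
    (ih : ∀ g1 l1' l3', l1'.1 + l3'.1 < l1.1 + l3.1 → s.Pre n g1 g2 g3 l1' l2 l3' →
      s.Out n g1 g2 g3 l1' l2 l3') : s.Out n g1 g2 g3 l1 l2 l3 := by
  obtain ⟨d1, d2, d3, b1, b2, b3⟩ := h
  obtain ⟨v, hv, hv1, hv2, hv3, hv4⟩ : ∃ v : ℤ × ℤ, Dom v ∧ v.1 = 1 ∧ Dom (l1 - v) ∧ Dom (l3 - v) ∧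
      s.Bd n ((s.t v)⁻¹ * s.K g1 g3 l3 * s.t v) := by
    unfold Rd at hR
    unfold Dom at *
    rcases not_and_or.mp hR with h | h <;> simp only [not_or, not_not] at h
    · exact ⟨(1, 0), by simp, rfl, by simp; omega, by simp; omega, h.2.2⟩
    · exact ⟨(1, 1), by simp, rfl, by simp; omega, by simp; omega, h.2.2⟩
  obtain ⟨v1, v2, v3, e1, e2, e3, e4⟩ := ih (g1 * s.t v) (l1 - v) (l3 - v)
    (by simp only [Prod.fst_sub]; omega)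
    ⟨hv2, d2, hv3, by rw [K_left g1 g3 l3 v]; exact hv4, by rw [K_right g2 g1 l1 v]; exact b2,
      by rw [← K_right g3 g2 l2 0] at b3; simpa [t_zero] using b3⟩
  refine ⟨v + v1, v2, v3, ?_, e2, e3, ?_⟩
  · unfold Dom at *
    simp only [Prod.fst_add, Prod.snd_add]
    omega
  · rw [t_add, ← mul_assoc, show l1 - (v + v1) - v2 = l1 - v - v1 - v2 by abel,
      show l3 - v3 - (v + v1) = l3 - v - v3 - v1 by abel]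
    exact e4

theorem reduce {n : ℤ} {g1 g2 g3 : Sp k} {l1 l2 l3 : ℤ × ℤ} (h : s.Pre n g1 g2 g3 l1 l2 l3) :
    s.Out n g1 g2 g3 l1 l2 l3 := by
  obtain ⟨m, hm⟩ : ∃ m : ℕ, l1.1 + l2.1 + l3.1 < m := ⟨(l1.1 + l2.1 + l3.1).toNat + 1, by omega⟩
  induction m generalizing g1 g2 g3 l1 l2 l3 with
  | zero =>
    obtain ⟨⟨_, _⟩, ⟨_, _⟩, ⟨_, _⟩, -⟩ := h
    omega
  | succ m ih =>
    by_cases h1 : s.Rd n (s.K g1 g3 l3) l1 l3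
    · by_cases h2 : s.Rd n (s.K g2 g1 l1) l2 l1
      · by_cases h3 : s.Rd n (s.K g3 g2 l2) l3 l2
        · refine ⟨0, 0, 0, ⟨le_rfl, le_rfl⟩, ⟨le_rfl, le_rfl⟩, ⟨le_rfl, le_rfl⟩, ?_⟩
          simp only [t_zero, mul_one, sub_zero]
          exact ⟨h, h1, h2, h3⟩
        · exact (step h.rot.rot h3 fun g a b hl hp => ih hp (by omega)).rot
      · exact (step h.rot h2 fun g a b hl hp => ih hp (by omega)).rot.rot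
    · exact step h h1 fun g a b hl hp => ih hp (by omega)

theorem K_id (g1 g2 g3 : Sp k) (a1 a2 a3 : ℤ × ℤ) :
    (s.t a1)⁻¹ * s.K g1 g3 a3 * s.t a3 =
      sJ * (s.K g2 g1 a1)⁻¹ * s.t a2 * (sJ * (s.K g3 g2 a2)⁻¹ * sJ) := by
  have := t_sJ (s := s) a3
  rw [t_neg] at this
  simp only [K, mul_assoc]
  rw [← mul_assoc (s.t a3), this]
  group

theorem Good.vi [ProperSpace k] (n : ℤ) : ∃ e : ℤ, 0 ≤ e ∧ ∀ (g1 g2 g3 : Sp k) (a1 a2 a3 : ℤ × ℤ),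
    s.Good n g1 g2 g3 a1 a2 a3 → VI e a1 a2 a3 := by
  obtain ⟨e, he, h⟩ := vertex (s := s) n
  have key : ∀ (g1 g2 g3 : Sp k) (a1 a2 a3 : ℤ × ℤ), s.Good n g1 g2 g3 a1 a2 a3 →
      Ori a1 a3 (a2.1 + e) (a2.1 + a2.2 + e) ∨ Ori a3 a1 (a2.1 + e) (a2.1 + a2.2 + e) := by
    rintro g1 g2 g3 a1 a2 a3 ⟨⟨d1, d2, d3, b1, b2, b3⟩, r1, -, -⟩
    exact h _ _ _ a2 a1 a3 d2 d1 d3 b1 ((Bd_sJ.mul b2.inv).mono (by omega))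
      (((Bd_sJ.mul b3.inv).mul Bd_sJ).mono (by omega)) (K_id g1 g2 g3 a1 a2 a3) r1
  exact ⟨e, he, fun g1 g2 g3 a1 a2 a3 hg => ⟨key _ _ _ _ _ _ hg, key _ _ _ _ _ _ hg.rot,
    key _ _ _ _ _ _ hg.rot.rot⟩⟩

end Sc

end Pool.Agent.Work.MP_dbf1ea_an
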