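import Mathlib

/-!
Explicit computations in the symplectic group of rank two over a normed field.
-/

set_option autoImplicit false

namespace Pool.Agent.Work.MP_dbf1ea_an

universe u

abbrev I4 := Fin 2 ⊕ Fin 2

def i0 : I4 := Sum.inl 0
def i1 : I4 := Sum.inl 1
def j0 : I4 := Sum.inr 0
def j1 : I4 := Sum.inr 1

theorem forall_I4 {p : I4 → Prop} : (∀ r, p r) ↔ p i0 ∧ p i1 ∧ p j0 ∧ p j1 := by
  simp only [Sum.forall, Fin.forall_fin_two, i0, i1, j0, j1, and_assoc]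

theorem exists_I4 {p : I4 → Prop} : (∃ r, p r) ↔ p i0 ∨ p i1 ∨ p j0 ∨ p j1 := by
  simp only [Sum.exists, Fin.exists_fin_two, i0, i1, j0, j1, or_assoc]

theorem sum_I4 {M : Type*} [AddCommMonoid M] (f : I4 → M) :
    ∑ r, f r = f i0 + f i1 + f j0 + f j1 := by
  simp only [Fintype.sum_sum_type, Fin.sum_univ_two, i0, i1, j0, j1, add_assoc]

/-- A function on the four indices. -/
def v4 {α : Type*} (a b c d : α) : I4 → α := Sum.elim ![a, b] ![c, d]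

@[simp] theorem v4_i0 {α : Type*} (a b c d : α) : v4 a b c d i0 = a := rfl
@[simp] theorem v4_i1 {α : Type*} (a b c d : α) : v4 a b c d i1 = b := rfl
@[simp] theorem v4_j0 {α : Type*} (a b c d : α) : v4 a b c d j0 = c := rfl
@[simp] theorem v4_j1 {α : Type*} (a b c d : α) : v4 a b c d j1 = d := rfl

abbrev Sp (k : Type u) [CommRing k] := Matrix.symplecticGroup (Fin 2) k

section ring

variable {k : Type u} [Field k]

/-- The symplectic pairing of two columns. -/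
def om (A : Matrix I4 I4 k) (c d : I4) : k :=
  A i0 c * A j0 d - A j0 c * A i0 d + A i1 c * A j1 d - A j1 c * A i1 d

theorem mem_iff_om (A : Matrix I4 I4 k) : A ∈ Sp k ↔ om A i0 i1 = 0 ∧ om A j0 j1 = 0 ∧
    om A i0 j0 = 1 ∧ om A i0 j1 = 0 ∧ om A i1 j0 = 0 ∧ om A i1 j1 = 1 := by
  rw [← Matrix.fromBlocks_toBlocks A, SymplecticGroup.fromBlocks_mem_iff,
    Matrix.fromBlocks_toBlocks]
  simp only [← Matrix.ext_iff, Fin.forall_fin_two, Matrix.mul_apply, Fin.sum_univ_two,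
    Matrix.transpose_apply, Matrix.sub_apply, Matrix.toBlocks₁₁, Matrix.toBlocks₁₂,
    Matrix.toBlocks₂₁, Matrix.toBlocks₂₂, Matrix.of_apply, om, i0, i1, j0, j1,
    Matrix.one_apply_eq, Matrix.one_apply_ne (show (0 : Fin 2) ≠ 1 by decide),
    Matrix.one_apply_ne (show (1 : Fin 2) ≠ 0 by decide)]
  constructor
  · rintro ⟨⟨⟨-, h1⟩, -⟩, ⟨⟨-, h2⟩, -⟩, ⟨h3, h4⟩, h5, h6⟩
    exact ⟨by linear_combination h1, by linear_combination h2, by linear_combination h3,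
      by linear_combination h4, by linear_combination h5, by linear_combination h6⟩
  · rintro ⟨h1, h2, h3, h4, h5, h6⟩
    exact ⟨⟨⟨by ring, by linear_combination h1⟩, by linear_combination -h1, by ring⟩,
      ⟨⟨by ring, by linear_combination h2⟩, by linear_combination -h2, by ring⟩,
      ⟨by linear_combination h3, by linear_combination h4⟩, by linear_combination h5,
      by linear_combination h6⟩

theorem cols (g : Sp k) : om g.1 i0 i1 = 0 ∧ om g.1 j0 j1 = 0 ∧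
    om g.1 i0 j0 = 1 ∧ om g.1 i0 j1 = 0 ∧ om g.1 i1 j0 = 0 ∧ om g.1 i1 j1 = 1 :=
  (mem_iff_om g.1).mp g.2

theorem mul_ap (g h : Sp k) (r c : I4) : (g * h).1 r c =
    g.1 r i0 * h.1 i0 c + g.1 r i1 * h.1 i1 c + g.1 r j0 * h.1 j0 c + g.1 r j1 * h.1 j1 c := by
  rw [Submonoid.coe_mul, Matrix.mul_apply, sum_I4]

theorem inv_val (g : Sp k) : (g⁻¹).1 = Matrix.of
    (v4 (v4 (g.1 j0 j0) (g.1 j1 j0) (-g.1 i0 j0) (-g.1 i1 j0))
      (v4 (g.1 j0 j1) (g.1 j1 j1) (-g.1 i0 j1) (-g.1 i1 j1))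
      (v4 (-g.1 j0 i0) (-g.1 j1 i0) (g.1 i0 i0) (g.1 i1 i0))
      (v4 (-g.1 j0 i1) (-g.1 j1 i1) (g.1 i0 i1) (g.1 i1 i1))) := by
  rw [SymplecticGroup.coe_inv]
  ext r c
  revert r c
  simp only [forall_I4, Matrix.of_apply, v4_i0, v4_i1, v4_j0, v4_j1]
  simp [Matrix.mul_apply, Matrix.J, i0, i1, j0, j1, Matrix.one_apply]

/-- The symplectic pairing of two rows. -/
def omr (A : Matrix I4 I4 k) (r s : I4) : k :=
  A r i0 * A s j0 - A r j0 * A s i0 + A r i1 * A s j1 - A r j1 * A s i1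

theorem rows (g : Sp k) : omr g.1 i0 i1 = 0 ∧ omr g.1 j0 j1 = 0 ∧
    omr g.1 i0 j0 = 1 ∧ omr g.1 i0 j1 = 0 ∧ omr g.1 i1 j0 = 0 ∧ omr g.1 i1 j1 = 1 :=
  (mem_iff_om g.1.transpose).mp (SymplecticGroup.transpose_mem g.2)

theorem one_val : (1 : Sp k).1 = Matrix.of
    (v4 (v4 1 0 0 0) (v4 0 1 0 0) (v4 0 0 1 0) (v4 0 0 0 1)) := by
  ext r c
  revert r c
  simp only [forall_I4, Matrix.of_apply, v4_i0, v4_i1, v4_j0, v4_j1]
  simp [i0, i1, j0, j1, Matrix.one_apply]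

theorem sp_ext {g h : Sp k} (e : ∀ r c, g.1 r c = h.1 r c) : g = h :=
  Subtype.ext (Matrix.ext e)

/-- Lower Heisenberg elements. -/
def hL (a b c : k) : Sp k := ⟨Matrix.of
    (v4 (v4 1 0 0 0) (v4 a 1 0 0) (v4 c b 1 (-a)) (v4 b 0 0 1)), by
  simp only [mem_iff_om, om, Matrix.of_apply, v4_i0, v4_i1, v4_j0, v4_j1]
  refine ⟨?_, ?_, ?_, ?_, ?_, ?_⟩ <;> ring⟩

/-- Upper Heisenberg elements. -/
def hU (a b c : k) : Sp k := ⟨Matrix.of
    (v4 (v4 1 a c b) (v4 0 1 b 0) (v4 0 0 1 0) (v4 0 0 (-a) 1)), by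
  simp only [mem_iff_om, om, Matrix.of_apply, v4_i0, v4_i1, v4_j0, v4_j1]
  refine ⟨?_, ?_, ?_, ?_, ?_, ?_⟩ <;> ring⟩

/-- Lower root elements of the second long root. -/
def xL (a : k) : Sp k := ⟨Matrix.of
    (v4 (v4 1 0 0 0) (v4 0 1 0 0) (v4 0 0 1 0) (v4 0 a 0 1)), by
  simp only [mem_iff_om, om, Matrix.of_apply, v4_i0, v4_i1, v4_j0, v4_j1]
  refine ⟨?_, ?_, ?_, ?_, ?_, ?_⟩ <;> ring⟩

/-- Upper unipotent elements of the Siegel parabolic. -/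
def sg (a b c : k) : Sp k := ⟨Matrix.of
    (v4 (v4 1 0 a b) (v4 0 1 b c) (v4 0 0 1 0) (v4 0 0 0 1)), by
  simp only [mem_iff_om, om, Matrix.of_apply, v4_i0, v4_i1, v4_j0, v4_j1]
  refine ⟨?_, ?_, ?_, ?_, ?_, ?_⟩ <;> ring⟩

/-- Diagonal elements. -/
def dg (x y : k) (hx : x ≠ 0) (hy : y ≠ 0) : Sp k := ⟨Matrix.of
    (v4 (v4 x 0 0 0) (v4 0 y 0 0) (v4 0 0 x⁻¹ 0) (v4 0 0 0 y⁻¹)), by
  simp only [mem_iff_om, om, Matrix.of_apply, v4_i0, v4_i1, v4_j0, v4_j1]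
  refine ⟨?_, ?_, ?_, ?_, ?_, ?_⟩ <;> field_simp <;> ring⟩

/-- The Weyl element exchanging the two coordinates. -/
def s1 : Sp k := ⟨Matrix.of
    (v4 (v4 0 1 0 0) (v4 1 0 0 0) (v4 0 0 0 1) (v4 0 0 1 0)), by
  simp only [mem_iff_om, om, Matrix.of_apply, v4_i0, v4_i1, v4_j0, v4_j1]
  refine ⟨?_, ?_, ?_, ?_, ?_, ?_⟩ <;> ring⟩

/-- The Weyl element negating the second coordinate. -/
def s2 : Sp k := ⟨Matrix.of
    (v4 (v4 1 0 0 0) (v4 0 0 0 (-1)) (v4 0 0 1 0) (v4 0 1 0 0)), by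
  simp only [mem_iff_om, om, Matrix.of_apply, v4_i0, v4_i1, v4_j0, v4_j1]
  refine ⟨?_, ?_, ?_, ?_, ?_, ?_⟩ <;> ring⟩

/-- The Weyl element negating the first coordinate. -/
def s3 : Sp k := ⟨Matrix.of
    (v4 (v4 0 0 (-1) 0) (v4 0 1 0 0) (v4 1 0 0 0) (v4 0 0 0 1)), by
  simp only [mem_iff_om, om, Matrix.of_apply, v4_i0, v4_i1, v4_j0, v4_j1]
  refine ⟨?_, ?_, ?_, ?_, ?_, ?_⟩ <;> ring⟩

/-- The Weyl element negating both coordinates. -/
def sJ : Sp k := ⟨Matrix.of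
    (v4 (v4 0 0 (-1) 0) (v4 0 0 0 (-1)) (v4 1 0 0 0) (v4 0 1 0 0)), by
  simp only [mem_iff_om, om, Matrix.of_apply, v4_i0, v4_i1, v4_j0, v4_j1]
  refine ⟨?_, ?_, ?_, ?_, ?_, ?_⟩ <;> ring⟩

end ring

/-- A scale: an element of norm at least four. -/
structure Sc (k : Type u) [NormedField k] where
  w : k
  h : 4 ≤ ‖w‖

/-- The weights of the standard representation. -/
def wt (v : ℤ × ℤ) : I4 → ℤ := v4 v.1 v.2 (-v.1) (-v.2)

@[simp] theorem wt_i0 (v : ℤ × ℤ) : wt v i0 = v.1 := rfl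
@[simp] theorem wt_i1 (v : ℤ × ℤ) : wt v i1 = v.2 := rfl
@[simp] theorem wt_j0 (v : ℤ × ℤ) : wt v j0 = -v.1 := rfl
@[simp] theorem wt_j1 (v : ℤ × ℤ) : wt v j1 = -v.2 := rfl

namespace Sc

variable {k : Type u} [NormedField k] (s : Sc k)

theorem one_lt : 1 < ‖s.w‖ := lt_of_lt_of_le (by norm_num) s.h
theorem pos : 0 < ‖s.w‖ := lt_trans one_pos s.one_lt
theorem ne : s.w ≠ 0 := norm_pos_iff.mp s.pos

/-- Upper bound by a power of the scale. -/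
def N (n : ℤ) (x : k) : Prop := ‖x‖ ≤ ‖s.w‖ ^ n

/-- Lower bound by a power of the scale. -/
def L (n : ℤ) (x : k) : Prop := ‖s.w‖ ^ n ≤ ‖x‖

variable {s}

theorem N.mono {m n : ℤ} {x : k} (h : s.N m x) (hmn : m ≤ n) : s.N n x :=
  le_trans h (zpow_le_zpow_right₀ s.one_lt.le hmn)

theorem L.mono {m n : ℤ} {x : k} (h : s.L m x) (hmn : n ≤ m) : s.L n x :=
  le_trans (zpow_le_zpow_right₀ s.one_lt.le hmn) h

theorem N_zero (n : ℤ) : s.N n 0 := by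
  rw [N, norm_zero]; exact (zpow_pos s.pos n).le

theorem N_one : s.N 0 1 := by simp [N]

theorem N.neg {n : ℤ} {x : k} (h : s.N n x) : s.N n (-x) := by rwa [N, norm_neg]

theorem N_neg {n : ℤ} {x : k} : s.N n (-x) ↔ s.N n x := by rw [N, norm_neg, N]

theorem L_neg {n : ℤ} {x : k} : s.L n (-x) ↔ s.L n x := by rw [L, norm_neg, L]

theorem N.mul {m n : ℤ} {x y : k} (h : s.N m x) (h' : s.N n y) : s.N (m + n) (x * y) := by
  rw [N, norm_mul, zpow_add₀ s.pos.ne']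
  exact mul_le_mul h h' (norm_nonneg _) (zpow_pos s.pos m).le

theorem L.mul {m n : ℤ} {x y : k} (h : s.L m x) (h' : s.L n y) : s.L (m + n) (x * y) := by
  rw [L, norm_mul, zpow_add₀ s.pos.ne']
  exact mul_le_mul h h' (zpow_pos s.pos n).le (norm_nonneg _)

theorem N.add4 {n : ℤ} {x y z t : k} (h1 : s.N n x) (h2 : s.N n y) (h3 : s.N n z) (h4 : s.N n t) :
    s.N (n + 1) (x + y + z + t) := by
  unfold N at *
  rw [zpow_add_one₀ s.pos.ne']
  have := mul_le_mul_of_nonneg_left s.h (zpow_pos s.pos n).le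
  have := norm_add_le (x + y + z) t
  have := norm_add_le (x + y) z
  have := norm_add_le x y
  linarith

theorem N.add {m n : ℤ} {x y : k} (h1 : s.N m x) (h2 : s.N n y) : s.N (max m n + 1) (x + y) := by
  simpa using (h1.mono (le_max_left m n)).add4 (h2.mono (le_max_right m n)) (N_zero _) (N_zero _)

theorem N.sub {m n : ℤ} {x y : k} (h1 : s.N m x) (h2 : s.N n y) : s.N (max m n + 1) (x - y) := by
  rw [sub_eq_add_neg]; exact h1.add h2.neg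

theorem L.ne {n : ℤ} {x : k} (h : s.L n x) : x ≠ 0 :=
  norm_pos_iff.mp (lt_of_lt_of_le (zpow_pos s.pos n) h)

theorem L.inv {n : ℤ} {x : k} (h : s.L n x) : s.N (-n) x⁻¹ := by
  rw [N, norm_inv, zpow_neg]
  exact inv_anti₀ (zpow_pos s.pos n) h

theorem N.div {m n : ℤ} {x y : k} (h : s.N m x) (h' : s.L n y) : s.N (m - n) (x / y) := by
  rw [div_eq_mul_inv, sub_eq_add_neg]; exact h.mul h'.inv

theorem L_of_not {n : ℤ} {x : k} (h : ¬ s.N n x) : s.L n x := le_of_lt (not_le.mp h)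

theorem L.le {m n : ℤ} {x : k} (h : s.L m x) (h' : s.N n x) : m ≤ n :=
  (zpow_le_zpow_iff_right₀ s.one_lt).mp (le_trans h h')

theorem N_pow (n : ℤ) : s.N n (s.w ^ n) := by rw [N, norm_zpow]
theorem L_pow (n : ℤ) : s.L n (s.w ^ n) := by rw [L, norm_zpow]

theorem N_mul_pow {n m : ℤ} {x : k} : s.N n (x * s.w ^ m) ↔ s.N (n - m) x := by
  rw [N, N, norm_mul, norm_zpow, zpow_sub₀ s.pos.ne', le_div_iff₀ (zpow_pos s.pos m)]

theorem L_mul_pow {n m : ℤ} {x : k} : s.L n (x * s.w ^ m) ↔ s.L (n - m) x := by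
  rw [L, L, norm_mul, norm_zpow, zpow_sub₀ s.pos.ne', div_le_iff₀ (zpow_pos s.pos m)]

theorem exists_LN {x : k} (h : x ≠ 0) : ∃ n, s.L n x ∧ s.N (n + 1) x := by
  obtain ⟨n, h1, h2⟩ := exists_mem_Ico_zpow (norm_pos_iff.mpr h) s.one_lt
  exact ⟨n, h1, h2.le⟩

variable (s)

/-- All entries are bounded by a power of the scale. -/
def Bd (n : ℤ) (g : Sp k) : Prop := ∀ r c, s.N n (g.1 r c)

/-- The torus element of an integral coweight. -/
noncomputable def t (v : ℤ × ℤ) : Sp k :=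
  dg (s.w ^ v.1) (s.w ^ v.2) (zpow_ne_zero _ s.ne) (zpow_ne_zero _ s.ne)

variable {s}

theorem Bd.mono {m n : ℤ} {g : Sp k} (h : s.Bd m g) (hmn : m ≤ n) : s.Bd n g :=
  fun r c => (h r c).mono hmn

theorem Bd.mul {m n : ℤ} {g h : Sp k} (h1 : s.Bd m g) (h2 : s.Bd n h) :
    s.Bd (m + n + 1) (g * h) := fun r c => by
  rw [mul_ap]
  exact ((h1 _ _).mul (h2 _ _)).add4 ((h1 _ _).mul (h2 _ _)) ((h1 _ _).mul (h2 _ _))
    ((h1 _ _).mul (h2 _ _))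

theorem Bd.inv {n : ℤ} {g : Sp k} (h : s.Bd n g) : s.Bd n g⁻¹ := by
  simp only [Bd, inv_val, forall_I4, Matrix.of_apply, v4_i0, v4_i1, v4_j0, v4_j1, N_neg, h _ _,
    and_self]

theorem Bd_inv {n : ℤ} {g : Sp k} : s.Bd n g⁻¹ ↔ s.Bd n g :=
  ⟨fun h => by simpa using h.inv, Bd.inv⟩

theorem Bd_one : s.Bd 0 1 := by
  simp only [Bd, one_val, forall_I4, Matrix.of_apply, v4_i0, v4_i1, v4_j0, v4_j1, N_one, N_zero,
    and_self]

theorem Bd_s1 : s.Bd 0 s1 := by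
  simp only [Bd, s1, forall_I4, Matrix.of_apply, v4_i0, v4_i1, v4_j0, v4_j1, N_one, N_zero,
    and_self]

theorem Bd_s2 : s.Bd 0 s2 := by
  simp only [Bd, s2, forall_I4, Matrix.of_apply, v4_i0, v4_i1, v4_j0, v4_j1, N_one, N_zero,
    and_self, N_neg]

theorem Bd_s3 : s.Bd 0 s3 := by
  simp only [Bd, s3, forall_I4, Matrix.of_apply, v4_i0, v4_i1, v4_j0, v4_j1, N_one, N_zero,
    and_self, N_neg]

theorem Bd_sJ : s.Bd 0 sJ := by
  simp only [Bd, sJ, forall_I4, Matrix.of_apply, v4_i0, v4_i1, v4_j0, v4_j1, N_one, N_zero,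
    and_self, N_neg]

theorem Bd_hL {n : ℤ} (hn : 0 ≤ n) {a b c : k} (ha : s.N n a) (hb : s.N n b) (hc : s.N n c) :
    s.Bd n (hL a b c) := by
  simp only [Bd, hL, forall_I4, Matrix.of_apply, v4_i0, v4_i1, v4_j0, v4_j1, N_one.mono hn, N_zero,
    and_self, N_neg, ha, hb, hc]

theorem Bd_hU {n : ℤ} (hn : 0 ≤ n) {a b c : k} (ha : s.N n a) (hb : s.N n b) (hc : s.N n c) :
    s.Bd n (hU a b c) := by
  simp only [Bd, hU, forall_I4, Matrix.of_apply, v4_i0, v4_i1, v4_j0, v4_j1, N_one.mono hn, N_zero,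
    and_self, N_neg, ha, hb, hc]

theorem Bd_sg {n : ℤ} (hn : 0 ≤ n) {a b c : k} (ha : s.N n a) (hb : s.N n b) (hc : s.N n c) :
    s.Bd n (sg a b c) := by
  simp only [Bd, sg, forall_I4, Matrix.of_apply, v4_i0, v4_i1, v4_j0, v4_j1, N_one.mono hn, N_zero,
    and_self, N_neg, ha, hb, hc]

theorem Bd_xL {n : ℤ} (hn : 0 ≤ n) {a : k} (ha : s.N n a) : s.Bd n (xL a) := by
  simp only [Bd, xL, forall_I4, Matrix.of_apply, v4_i0, v4_i1, v4_j0, v4_j1, N_one.mono hn, N_zero,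
    and_self, N_neg, ha]

theorem Bd_dg {n : ℤ} {x y : k} {hx : x ≠ 0} {hy : y ≠ 0} (h1 : s.N n x) (h2 : s.N n y)
    (h3 : s.N n x⁻¹) (h4 : s.N n y⁻¹) : s.Bd n (dg x y hx hy) := by
  simp only [Bd, dg, forall_I4, Matrix.of_apply, v4_i0, v4_i1, v4_j0, v4_j1, N_zero,
    and_self, h1, h2, h3, h4]

theorem Bd_t {n : ℤ} {v : ℤ × ℤ} (h1 : |v.1| ≤ n) (h2 : |v.2| ≤ n) : s.Bd n (s.t v) := by
  rw [abs_le] at h1 h2
  refine Bd_dg ((N_pow _).mono h1.2) ((N_pow _).mono h2.2) ?_ ?_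
  · rw [← zpow_neg]; exact (N_pow _).mono (by omega)
  · rw [← zpow_neg]; exact (N_pow _).mono (by omega)

theorem t_mul_ap (v : ℤ × ℤ) (g : Sp k) (r c : I4) :
    (s.t v * g).1 r c = s.w ^ wt v r * g.1 r c := by
  revert r
  simp only [mul_ap, t, dg, forall_I4, Matrix.of_apply, v4_i0, v4_i1, v4_j0, v4_j1, wt_i0, wt_i1,
    wt_j0, wt_j1, zpow_neg, zero_mul, add_zero, zero_add, and_self]

theorem mul_t_ap (v : ℤ × ℤ) (g : Sp k) (r c : I4) :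
    (g * s.t v).1 r c = g.1 r c * s.w ^ wt v c := by
  revert c
  simp only [mul_ap, t, dg, forall_I4, Matrix.of_apply, v4_i0, v4_i1, v4_j0, v4_j1, wt_i0, wt_i1,
    wt_j0, wt_j1, zpow_neg, mul_zero, add_zero, zero_add, and_self]

theorem t_add (u v : ℤ × ℤ) : s.t (u + v) = s.t u * s.t v := by
  refine sp_ext ?_
  simp only [t_mul_ap]
  simp only [t, dg, forall_I4, Matrix.of_apply, v4_i0, v4_i1, v4_j0, v4_j1, wt_i0, wt_i1,
    wt_j0, wt_j1, zpow_neg, mul_zero, Prod.fst_add, Prod.snd_add, zpow_add₀ s.ne, mul_inv,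
    and_self]

theorem t_zero : s.t 0 = 1 := by
  have := t_add (s := s) 0 0
  rw [add_zero] at this
  exact mul_eq_left.mp this.symm

theorem t_neg (v : ℤ × ℤ) : s.t (-v) = (s.t v)⁻¹ := by
  rw [eq_inv_iff_mul_eq_one, ← t_add, neg_add_cancel, t_zero]

theorem t_sub (u v : ℤ × ℤ) : s.t (u - v) = s.t u * (s.t v)⁻¹ := by
  rw [sub_eq_add_neg, t_add, t_neg]

theorem t_comm (u v : ℤ × ℤ) : s.t u * s.t v = s.t v * s.t u := by
  rw [← t_add, ← t_add, add_comm]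

theorem wt_neg (v : ℤ × ℤ) (r : I4) : wt (-v) r = - wt v r := by
  revert r
  simp only [forall_I4]
  simp

theorem conj_ap (u v : ℤ × ℤ) (g : Sp k) (r c : I4) :
    ((s.t u)⁻¹ * g * s.t v).1 r c = g.1 r c * s.w ^ (wt v c - wt u r) := by
  rw [mul_t_ap, ← t_neg, t_mul_ap, wt_neg, sub_eq_add_neg, zpow_add₀ s.ne]
  ring

theorem Bd_conj {n : ℤ} {u v : ℤ × ℤ} {g : Sp k} :
    s.Bd n ((s.t u)⁻¹ * g * s.t v) ↔ ∀ r c, s.N (n - (wt v c - wt u r)) (g.1 r c) := by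
  simp only [Bd, conj_ap, N_mul_pow]

theorem t_s1 (a b : ℤ) : s.t (a, b) * s1 = s1 * s.t (b, a) := by
  refine sp_ext ?_
  simp only [t_mul_ap, mul_t_ap, forall_I4]
  simp [s1]

theorem t_s2 (a b : ℤ) : s.t (a, b) * s2 = s2 * s.t (a, -b) := by
  refine sp_ext ?_
  simp only [t_mul_ap, mul_t_ap, forall_I4]
  simp [s2]

theorem t_s3 (a b : ℤ) : s.t (a, b) * s3 = s3 * s.t (-a, b) := by
  refine sp_ext ?_
  simp only [t_mul_ap, mul_t_ap, forall_I4]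
  simp [s3]

theorem t_sJ (v : ℤ × ℤ) : s.t v * sJ = sJ * s.t (-v) := by
  refine sp_ext ?_
  simp only [t_mul_ap, mul_t_ap, forall_I4]
  simp [sJ]

end Sc

end Pool.Agent.Work.MP_dbf1ea_an
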