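import Pool.Agent.Work.MP_dbf1ea_an.KAK

/-!
Lower bounds for the side opposite to a reduced vertex.
-/

set_option autoImplicit false

namespace Pool.Agent.Work.MP_dbf1ea_an

universe u

section alg

variable {k : Type u} [Field k]

/-- Two by two minors. -/
def mn (A : Matrix I4 I4 k) (r s x y : I4) : k := A r x * A s y - A r y * A s x

theorem key1 (g : Sp k) (h : g.1 j1 i0 ≠ 0 ∨ g.1 j0 i0 ≠ 0) :
    mn g.1 j1 j0 i0 i1 ≠ 0 ∨ mn g.1 j1 j0 i0 j1 ≠ 0 := by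
  by_contra hc
  push Not at hc
  obtain ⟨m1, m2⟩ := hc
  obtain ⟨-, r2, r3, r4, r5, r6⟩ := rows g
  simp only [mn, omr] at *
  have m3 : g.1 j1 i0 * g.1 j0 j0 - g.1 j0 i0 * g.1 j1 j0 = 0 := by
    rcases h with h | h
    · refine mul_left_cancel₀ h ?_
      linear_combination (-g.1 j1 i0) * r2 + g.1 j1 j1 * m1 - g.1 j1 i1 * m2
    · refine mul_left_cancel₀ h ?_
      linear_combination (-g.1 j0 i0) * r2 + g.1 j0 j1 * m1 - g.1 j0 i1 * m2
  rcases h with h | h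
  · apply h
    linear_combination (-g.1 j1 i0) * r3 + g.1 j0 i0 * r4 + g.1 i0 i0 * m3 + g.1 i0 i1 * m2 -
      g.1 i0 j1 * m1
  · apply h
    linear_combination g.1 j1 i0 * r5 - g.1 j0 i0 * r6 - g.1 i1 i0 * m3 - g.1 i1 i1 * m2 +
      g.1 i1 j1 * m1

theorem key2 (g : Sp k) (r : I4) (h : g.1 r i0 ≠ 0) : ∃ s, mn g.1 r s i0 i1 ≠ 0 := by
  by_contra hc
  push Not at hc
  obtain ⟨-, -, -, c4, -, c6⟩ := cols g
  have h1 := hc i0
  have h2 := hc i1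
  have h3 := hc j0
  have h4 := hc j1
  simp only [mn, om] at *
  apply h
  linear_combination (-g.1 r i0) * c6 + g.1 r i1 * c4 + g.1 j0 j1 * h1 - g.1 i0 j1 * h3 +
    g.1 j1 j1 * h2 - g.1 i1 j1 * h4

/-- Dominant coweights. -/
def Dom (v : ℤ × ℤ) : Prop := 0 ≤ v.2 ∧ v.2 ≤ v.1

/-- The lower bound for the opposite side, in one orientation. -/
def Ori (b c : ℤ × ℤ) (A1 A2 : ℤ) : Prop :=
  c.1 + b.2 ≤ A1 ∧ b.2 + c.1 + b.1 - c.2 ≤ A2 ∧ b.2 + c.1 - b.1 + c.2 ≤ A2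

theorem wt_le {v : ℤ × ℤ} (h : Dom v) (r : I4) : wt v r ≤ v.1 := by
  obtain ⟨h1, h2⟩ := h
  revert r
  simp only [forall_I4, wt_i0, wt_i1, wt_j0, wt_j1]
  omega

theorem vert1 (g : Sp k) {b c : ℤ × ℤ} (hb : Dom b) (hc : Dom c) {A1 A2 : ℤ}
    (hE : ∀ r x, g.1 r x ≠ 0 → wt c x - wt b r ≤ A1)
    (hM : ∀ r s x y, mn g.1 r s x y ≠ 0 → wt c x + wt c y - wt b r - wt b s ≤ A2)
    (h : g.1 j1 i0 ≠ 0 ∨ g.1 j0 i0 ≠ 0) : Ori b c A1 A2 := by
  have hw := wt_le hb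
  obtain ⟨b1, b2⟩ := hb
  obtain ⟨c1, c2⟩ := hc
  refine ⟨?_, ?_, ?_⟩
  · rcases h with h | h <;> have := hE _ _ h <;> simp only [wt_i0, wt_j0, wt_j1] at this <;> omega
  · rcases key1 g h with h | h <;> have := hM _ _ _ _ h <;>
      simp only [wt_i0, wt_i1, wt_j0, wt_j1] at this <;> omega
  · rcases h with h | h <;> obtain ⟨s, hs⟩ := key2 g _ h <;> have := hM _ _ _ _ hs <;>
      have := hw s <;> simp only [wt_i0, wt_i1, wt_j0, wt_j1] at * <;> omega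

/-- The index involution. -/
def sw : I4 → I4 := v4 j0 j1 i0 i1

/-- The index signs. -/
def sgn : I4 → k := v4 1 1 (-1) (-1)

theorem inv_ap (g : Sp k) (r x : I4) : (g⁻¹).1 r x = sgn r * sgn x * g.1 (sw x) (sw r) := by
  revert r x
  simp only [forall_I4, inv_val, sw, sgn, Matrix.of_apply, v4_i0, v4_i1, v4_j0, v4_j1]
  simp

theorem wt_sw (v : ℤ × ℤ) (r : I4) : wt v (sw r) = - wt v r := by
  revert r
  simp only [forall_I4, sw, v4_i0, v4_i1, v4_j0, v4_j1]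
  simp

theorem vert (g : Sp k) {b c : ℤ × ℤ} (hb : Dom b) (hc : Dom c) {A1 A2 : ℤ}
    (hE : ∀ r x, g.1 r x ≠ 0 → wt c x - wt b r ≤ A1)
    (hM : ∀ r s x y, mn g.1 r s x y ≠ 0 → wt c x + wt c y - wt b r - wt b s ≤ A2)
    (R1 : b.1 = b.2 ∨ c.1 = c.2 ∨ g.1 i1 i0 ≠ 0 ∨ g.1 j1 i0 ≠ 0 ∨ g.1 j0 i0 ≠ 0 ∨ g.1 j0 i1 ≠ 0 ∨
      g.1 j0 j1 ≠ 0)
    (R2 : b.2 = 0 ∨ c.2 = 0 ∨ g.1 j0 i0 ≠ 0 ∨ g.1 j0 i1 ≠ 0 ∨ g.1 j1 i0 ≠ 0 ∨ g.1 j1 i1 ≠ 0) :
    Ori b c A1 A2 ∨ Ori c b A1 A2 := by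
  by_cases hX : g.1 j1 i0 ≠ 0 ∨ g.1 j0 i0 ≠ 0
  · exact Or.inl (vert1 g hb hc hE hM hX)
  by_cases hY : g.1 j0 i1 ≠ 0
  · refine Or.inr (vert1 g⁻¹ hc hb (fun r x h => ?_) (fun r s x y h => ?_) (Or.inl ?_))
    · rw [inv_ap] at h
      have := hE _ _ (right_ne_zero_of_mul h)
      rw [wt_sw, wt_sw] at this
      omega
    · have e : mn (g⁻¹).1 r s x y =
          sgn r * sgn s * sgn x * sgn y * mn g.1 (sw x) (sw y) (sw r) (sw s) := by
        simp only [mn, inv_ap]; ring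
      rw [e] at h
      have := hM _ _ _ _ (right_ne_zero_of_mul h)
      simp only [wt_sw] at this
      omega
    · simpa [inv_val] using hY
  push Not at hX hY
  obtain ⟨z1, z2⟩ := hX
  obtain ⟨b1, b2⟩ := hb
  obtain ⟨c1, c2⟩ := hc
  obtain ⟨k1, -, k3, k4, k5, k6⟩ := cols g
  obtain ⟨-, r2, r3, r4, r5, r6⟩ := rows g
  simp only [om, omr, z1, z2, hY, mul_zero, zero_mul, sub_zero, zero_add, add_zero, zero_sub,
    ne_eq, not_true_eq_false, false_or] at k1 k3 k4 k5 k6 r2 r3 r4 r5 r6 R1 R2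
  unfold Ori
  by_cases hS : g.1 j1 i1 = 0
  · simp only [hS, mul_zero, zero_mul, sub_zero, add_zero, not_true_eq_false,
      or_false] at k3 k4 k5 k6 r3 r4 r5 r6 R2
    have d1 : mn g.1 i0 i1 i0 i1 * mn g.1 j0 j1 j0 j1 = 1 := by
      simp only [mn]
      linear_combination (g.1 i0 i1 * g.1 j0 j1 + g.1 i1 i1 * g.1 j1 j1) * k3 + k6 -
        (g.1 i0 i1 * g.1 j0 j0 + g.1 i1 i1 * g.1 j1 j0) * k4
    have m1 := hM _ _ _ _ (left_ne_zero_of_mul_eq_one d1)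
    have m2 := hM _ _ _ _ (right_ne_zero_of_mul_eq_one d1)
    simp only [wt_i0, wt_i1, wt_j0, wt_j1] at m1 m2
    by_cases hT : g.1 i1 i0 = 0
    · simp only [hT, zero_mul, add_zero] at k3 k4
      have a1 : g.1 i0 i0 ≠ 0 := left_ne_zero_of_mul_eq_one k3
      have a2 : g.1 j0 j0 ≠ 0 := right_ne_zero_of_mul_eq_one k3
      have z3 : g.1 j0 j1 = 0 := (mul_eq_zero.mp k4).resolve_left a1
      simp only [z3, mul_zero, zero_add] at k6
      have a3 : g.1 i1 i1 ≠ 0 := left_ne_zero_of_mul_eq_one k6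
      have a4 : g.1 j1 j1 ≠ 0 := right_ne_zero_of_mul_eq_one k6
      have e1 := hE _ _ a1
      have e2 := hE _ _ a2
      have e3 := hE _ _ a3
      have e4 := hE _ _ a4
      have m3 := hM i0 j1 i0 j1 (by simpa [mn, z1] using ⟨a1, a4⟩)
      have m4 := hM i1 j0 i1 j0 (by simpa [mn, hY] using ⟨a3, a2⟩)
      simp only [wt_i0, wt_i1, wt_j0, wt_j1] at *
      simp only [hT, z3, not_true_eq_false, or_false] at R1
      omega
    · have a2 : g.1 j0 j1 ≠ 0 := by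
        intro h0
        simp only [h0, mul_zero, zero_add] at k4 k6
        exact right_ne_zero_of_mul_eq_one k6 ((mul_eq_zero.mp k4).resolve_left hT)
      have e1 := hE _ _ hT
      have e2 := hE _ _ a2
      have m3 := hM i1 j0 i0 j1 (by simpa [mn, z2] using ⟨hT, a2⟩)
      simp only [wt_i0, wt_i1, wt_j0, wt_j1] at *
      omega
  · have z3 : g.1 i1 i0 = 0 := (mul_eq_zero.mp k1).resolve_right hS
    have z4 : g.1 j0 j1 = 0 := (mul_eq_zero.mp (neg_eq_zero.mp r2)).resolve_right hS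
    simp only [z3, zero_mul, add_zero] at k3
    have a1 : g.1 i0 i0 ≠ 0 := left_ne_zero_of_mul_eq_one k3
    have a2 : g.1 j0 j0 ≠ 0 := right_ne_zero_of_mul_eq_one k3
    have e1 := hE _ _ hS
    have m3 := hM i0 j1 i0 i1 (by simpa [mn, z1] using ⟨a1, hS⟩)
    have m4 := hM j1 j0 i1 j0 (by simpa [mn, hY] using ⟨hS, a2⟩)
    simp only [wt_i0, wt_i1, wt_j0, wt_j1] at *
    simp only [z3, z4, not_true_eq_false, or_false] at R1
    omega

end alg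

theorem model_gen {X ι k : Type*} [TopologicalSpace X] [Fintype ι] [NormedField k] {K : Set X}
    (hK : IsCompact K) (φ : ι → X → k) (hφ : ∀ i, Continuous (φ i)) {δ : ℝ} (hδ : 0 < δ) :
    ∃ ε > 0, ∀ x ∈ K, ∃ x0, (∀ i, φ i x0 ≠ 0 → ε ≤ ‖φ i x‖) ∧ ∀ i, δ ≤ ‖φ i x‖ → φ i x0 ≠ 0 := by
  refine hK.induction_on (p := fun S => ∃ ε > 0, ∀ x ∈ S, ∃ x0,
    (∀ i, φ i x0 ≠ 0 → ε ≤ ‖φ i x‖) ∧ ∀ i, δ ≤ ‖φ i x‖ → φ i x0 ≠ 0)
    ⟨1, one_pos, fun _ h => h.elim⟩ ?_ ?_ ?_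
  · rintro S T hST ⟨ε, h0, h⟩
    exact ⟨ε, h0, fun x hx => h x (hST hx)⟩
  · rintro S T ⟨ε, h0, h⟩ ⟨ε', h0', h'⟩
    refine ⟨min ε ε', lt_min h0 h0', fun x hx => ?_⟩
    rcases hx with hx | hx
    · obtain ⟨x0, h1, h2⟩ := h x hx
      exact ⟨x0, fun i hi => (min_le_left _ _).trans (h1 i hi), h2⟩
    · obtain ⟨x0, h1, h2⟩ := h' x hx
      exact ⟨x0, fun i hi => (min_le_right _ _).trans (h1 i hi), h2⟩
  · intro x0 _
    have h1 : ∀ i, ∃ ε > 0, φ i x0 ≠ 0 → 2 * ε ≤ ‖φ i x0‖ := fun i => by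
      by_cases h : φ i x0 = 0
      · exact ⟨1, one_pos, fun h' => absurd h h'⟩
      · exact ⟨‖φ i x0‖ / 2, half_pos (norm_pos_iff.mpr h), fun _ => by linarith⟩
    choose e he0 he using h1
    obtain ⟨ε, hε0, hε⟩ : ∃ ε > 0, ε ≤ δ ∧ ∀ i, ε ≤ e i := by
      have : ∀ᶠ ε in nhdsWithin (0 : ℝ) (Set.Ioi 0), ε ≤ δ ∧ ∀ i, ε ≤ e i :=
        Filter.Eventually.filter_mono nhdsWithin_le_nhds ((eventually_le_nhds hδ).and
          (Filter.eventually_all.mpr fun i => eventually_le_nhds (he0 i)))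
      obtain ⟨ε, h1, h2⟩ := (this.and self_mem_nhdsWithin).exists
      exact ⟨ε, h2, h1⟩
    have h2 : ∀ᶠ x in nhds x0, ∀ i, ‖φ i x - φ i x0‖ < ε :=
      Filter.eventually_all.mpr fun i =>
        (((hφ i).sub continuous_const).norm.tendsto x0).eventually_lt_const (by simpa)
    refine ⟨_, mem_nhdsWithin_of_mem_nhds h2, ε, hε0, fun x hx => ⟨x0, fun i hi => ?_, fun i hi h0 => ?_⟩⟩
    · have := hx i
      have := he i hi
      have := hε.2 i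
      have := norm_sub_norm_le (φ i x0) (φ i x)
      rw [norm_sub_rev] at this
      linarith
    · have := hx i
      rw [h0, sub_zero] at this
      linarith [hε.1]

namespace Sc

variable {k : Type u} [NormedField k] {s : Sc k}

theorem isClosed_Sp : IsClosed (Sp k : Set (Matrix I4 I4 k)) := by
  have : (Sp k : Set (Matrix I4 I4 k)) =
      {A | A * Matrix.J (Fin 2) k * A.transpose = Matrix.J (Fin 2) k} :=
    Set.ext fun A => SymplecticGroup.mem_iff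
  rw [this]
  exact isClosed_eq (by fun_prop) continuous_const

theorem cont_ap (r c : I4) : Continuous fun g : Sp k => g.1 r c :=
  (continuous_apply c).comp ((continuous_apply r).comp continuous_subtype_val)

theorem isCompact_Bd [ProperSpace k] (n : ℤ) : IsCompact {g : Sp k | s.Bd n g} := by
  have h := (isClosed_Sp (k := k)).isClosedEmbedding_subtypeVal.isCompact_preimage
    (isCompact_univ_pi fun _ : I4 => isCompact_univ_pi fun _ : I4 =>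
      isCompact_closedBall (0 : k) (‖s.w‖ ^ n))
  refine (Set.ext fun g => ?_ : _ = {g : Sp k | s.Bd n g}) ▸ h
  exact ⟨fun hg r c => mem_closedBall_zero_iff.mp (hg r trivial c trivial),
    fun hg r _ c _ => mem_closedBall_zero_iff.mpr (hg r c)⟩

theorem model [ProperSpace k] (n e : ℤ) : ∃ e' : ℤ, ∀ g : Sp k, s.Bd n g → ∃ g0 : Sp k,
    (∀ r c, g0.1 r c ≠ 0 → s.L e' (g.1 r c)) ∧
    (∀ r r' x y, mn g0.1 r r' x y ≠ 0 → s.L e' (mn g.1 r r' x y)) ∧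
    ∀ r c, s.L e (g.1 r c) → g0.1 r c ≠ 0 := by
  obtain ⟨ε, h0, h⟩ := model_gen (isCompact_Bd (s := s) n) (ι := (I4 × I4) ⊕ (I4 × I4 × I4 × I4))
    (Sum.elim (fun z g => g.1 z.1 z.2) fun z g => mn g.1 z.1 z.2.1 z.2.2.1 z.2.2.2)
    (by
      rintro (z | z)
      · exact cont_ap _ _
      · exact ((cont_ap _ _).mul (cont_ap _ _)).sub ((cont_ap _ _).mul (cont_ap _ _)))
    (zpow_pos s.pos e)
  obtain ⟨e', h1, -⟩ := exists_mem_Ico_zpow h0 s.one_lt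
  refine ⟨e', fun g hg => ?_⟩
  obtain ⟨g0, h2, h3⟩ := h g hg
  exact ⟨g0, fun r c hr => h1.trans (h2 (Sum.inl (r, c)) hr),
    fun r r' x y hr => h1.trans (h2 (Sum.inr (r, r', x, y)) hr),
    fun r c hr => h3 (Sum.inl (r, c)) hr⟩

theorem N_of_not {n : ℤ} {x : k} (h : ¬ s.L n x) : s.N n x := le_of_lt (not_le.mp h)

theorem N_sum {n : ℤ} {f : I4 → k} (h : ∀ p, s.N n (f p)) : s.N (n + 1) (∑ p, f p) := by
  rw [sum_I4]; exact (h _).add4 (h _) (h _) (h _)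

theorem N_mn {n m : ℤ} {k1 k2 : Sp k} {a : ℤ × ℤ} (ha : Dom a) (h1 : s.Bd n k1) (h2 : s.Bd m k2)
    (r r' x y : I4) : s.N (a.1 + a.2 + 2 * n + 2 * m + 3) (mn (k1 * s.t a * k2).1 r r' x y) := by
  have e : mn (k1 * s.t a * k2).1 r r' x y =
      ∑ p, ∑ q, k1.1 r p * k1.1 r' q * (mn k2.1 p q x y * s.w ^ (wt a p + wt a q)) := by
    rw [mul_assoc]
    simp only [mn, mul_ap k1, t_mul_ap, sum_I4, zpow_add₀ s.ne]
    ring
  have hw : ∀ p q, p = q ∨ wt a p + wt a q ≤ a.1 + a.2 := by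
    obtain ⟨a1, a2⟩ := ha
    simp only [forall_I4, wt_i0, wt_i1, wt_j0, wt_j1, true_or, true_and, and_true]
    refine ⟨⟨?_, ?_, ?_⟩, ⟨?_, ?_, ?_⟩, ⟨?_, ?_, ?_⟩, ?_, ?_, ?_⟩ <;> right <;> omega
  rw [e]
  refine (N_sum fun p => N_sum (n := a.1 + a.2 + 2 * n + 2 * m + 1) fun q => ?_).mono (by omega)
  rcases hw p q with h | h
  · rw [h, show mn k2.1 q q x y = 0 by simp only [mn]; ring, zero_mul, mul_zero]
    exact N_zero _
  · exact (((h1 r p).mul (h1 r' q)).mul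
      ((((h2 p x).mul (h2 q y)).sub ((h2 p y).mul (h2 q x))).mul (N_pow _))).mono (by omega)

theorem mn_conj (u v : ℤ × ℤ) (g : Sp k) (r r' x y : I4) :
    mn ((s.t u)⁻¹ * g * s.t v).1 r r' x y =
      mn g.1 r r' x y * s.w ^ (wt v x + wt v y - wt u r - wt u r') := by
  have := s.ne
  simp only [mn, conj_ap, zpow_sub₀ s.ne, zpow_add₀ s.ne]
  field_simp

theorem nb10 {n : ℤ} {g : Sp k} (h : s.Bd n g) (h' : ¬ s.Bd n ((s.t (1, 0))⁻¹ * g * s.t (1, 0))) :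
    s.L (n - 2) (g.1 i1 i0) ∨ s.L (n - 2) (g.1 j1 i0) ∨ s.L (n - 2) (g.1 j0 i0) ∨
      s.L (n - 2) (g.1 j0 i1) ∨ s.L (n - 2) (g.1 j0 j1) := by
  by_contra hc
  simp only [not_or] at hc
  obtain ⟨h1, h2, h3, h4, h5⟩ := hc
  apply h'
  simp only [Bd_conj, forall_I4, wt_i0, wt_i1, wt_j0, wt_j1]
  exact ⟨⟨(h _ _).mono (by omega), (h _ _).mono (by omega), (h _ _).mono (by omega),
      (h _ _).mono (by omega)⟩,
    ⟨(N_of_not h1).mono (by omega), (h _ _).mono (by omega), (h _ _).mono (by omega),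
      (h _ _).mono (by omega)⟩,
    ⟨(N_of_not h3).mono (by omega), (N_of_not h4).mono (by omega), (h _ _).mono (by omega),
      (N_of_not h5).mono (by omega)⟩,
    (N_of_not h2).mono (by omega), (h _ _).mono (by omega), (h _ _).mono (by omega),
      (h _ _).mono (by omega)⟩

theorem nb11 {n : ℤ} {g : Sp k} (h : s.Bd n g) (h' : ¬ s.Bd n ((s.t (1, 1))⁻¹ * g * s.t (1, 1))) :
    s.L (n - 2) (g.1 j0 i0) ∨ s.L (n - 2) (g.1 j0 i1) ∨ s.L (n - 2) (g.1 j1 i0) ∨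
      s.L (n - 2) (g.1 j1 i1) := by
  by_contra hc
  simp only [not_or] at hc
  obtain ⟨h1, h2, h3, h4⟩ := hc
  apply h'
  simp only [Bd_conj, forall_I4, wt_i0, wt_i1, wt_j0, wt_j1]
  exact ⟨⟨(h _ _).mono (by omega), (h _ _).mono (by omega), (h _ _).mono (by omega),
      (h _ _).mono (by omega)⟩,
    ⟨(h _ _).mono (by omega), (h _ _).mono (by omega), (h _ _).mono (by omega),
      (h _ _).mono (by omega)⟩,
    ⟨(N_of_not h1).mono (by omega), (N_of_not h2).mono (by omega), (h _ _).mono (by omega),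
      (h _ _).mono (by omega)⟩,
    (N_of_not h3).mono (by omega), (N_of_not h4).mono (by omega), (h _ _).mono (by omega),
      (h _ _).mono (by omega)⟩

variable (s) in
/-- A vertex at which the two sides cannot be followed together any further. -/
def Rd (n : ℤ) (K : Sp k) (b c : ℤ × ℤ) : Prop :=
  (b.1 = b.2 ∨ c.1 = c.2 ∨ ¬ s.Bd n ((s.t (1, 0))⁻¹ * K * s.t (1, 0))) ∧
  (b.2 = 0 ∨ c.2 = 0 ∨ ¬ s.Bd n ((s.t (1, 1))⁻¹ * K * s.t (1, 1)))

theorem vertex [ProperSpace k] (n : ℤ) : ∃ e : ℤ, 0 ≤ e ∧ ∀ (K k1 k2 : Sp k) (a b c : ℤ × ℤ),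
    Dom a → Dom b → Dom c → s.Bd n K → s.Bd (n + 2) k1 → s.Bd (n + 2) k2 →
    (s.t b)⁻¹ * K * s.t c = k1 * s.t a * k2 → s.Rd n K b c →
    Ori b c (a.1 + e) (a.1 + a.2 + e) ∨ Ori c b (a.1 + e) (a.1 + a.2 + e) := by
  obtain ⟨e', h⟩ := model (s := s) n (n - 2)
  refine ⟨|e'| + 4 * |n| + 11, by positivity, fun K k1 k2 a b c ha hb hc hK h1 h2 he hR => ?_⟩
  obtain ⟨g0, m1, m2, m3⟩ := h K hK
  have := le_abs_self n
  have := neg_abs_le e'
  have := abs_nonneg n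
  refine vert g0 hb hc (fun r x hr => ?_) (fun r r' x y hr => ?_) ?_ ?_
  · have ht : s.Bd a.1 (s.t a) := Bd_t (by rw [abs_le]; obtain ⟨a1, a2⟩ := ha; omega)
      (by rw [abs_le]; obtain ⟨a1, a2⟩ := ha; omega)
    have h3 := (h1.mul ht).mul h2
    rw [← he, Bd_conj] at h3
    have := (m1 r x hr).le (h3 r x)
    omega
  · have h3 := N_mn ha h1 h2 r r' x y
    rw [← he, mn_conj, N_mul_pow] at h3
    have := (m2 r r' x y hr).le h3
    omega
  · rcases hR.1 with h | h | h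
    · exact Or.inl h
    · exact Or.inr (Or.inl h)
    · rcases nb10 hK h with h | h | h | h | h <;> have := m3 _ _ h <;> tauto
  · rcases hR.2 with h | h | h
    · exact Or.inl h
    · exact Or.inr (Or.inl h)
    · rcases nb11 hK h with h | h | h | h <;> have := m3 _ _ h <;> tauto

end Sc

end Pool.Agent.Work.MP_dbf1ea_an
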